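import Pool.Agent.P.MP_7badbe_co.Sp.A

set_option autoImplicit false
set_option linter.unusedSectionVars false

section


open Finset Filter Topology
open scoped BigOperators

namespace Pool.Agent.P.MP_7badbe_co

variable {V : Type} [Fintype V] [Nonempty V]

theorem asy_log : Tendsto (fun m : ℕ => Real.log (m + 1)) atTop atTop :=
  Real.tendsto_log_atTop.comp (tendsto_atTop_add_const_right _ 1 tendsto_natCast_atTop_atTop)

theorem asy_ev (C : ℝ) {s : ℝ} (hs : 0 < s) :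
    ∀ᶠ m : ℕ in atTop, C * (1 + Real.log (m + 1)) < Real.exp (s * Real.log (m + 1)) := by
  filter_upwards [asy_log.eventually_ge_atTop 1, asy_log.eventually_gt_atTop (8 * |C| / s ^ 2)]
    with m h1 h2
  generalize Real.log (m + 1) = x at h1 h2
  rw [div_lt_iff₀ (by positivity)] at h2
  have h3 := Real.add_one_le_exp (s * x / 2)
  have h4 : Real.exp (s * x) = Real.exp (s * x / 2) ^ 2 := by
    rw [sq, ← Real.exp_add]
    ring_nf
  have h5 : (s * x / 2) ^ 2 ≤ Real.exp (s * x / 2) ^ 2 :=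
    pow_le_pow_left₀ (by positivity) (by linarith) 2
  have h6 : C * (1 + x) ≤ |C| * (2 * x) :=
    (mul_le_mul_of_nonneg_right (le_abs_self C) (by linarith)).trans
      (mul_le_mul_of_nonneg_left (by linarith) (abs_nonneg C))
  have h7 : 8 * |C| * x < x * s ^ 2 * x := mul_lt_mul_of_pos_right h2 (by linarith)
  rw [h4]
  nlinarith

theorem asy_choose {j r k : ℕ} {R q D lam : ℝ} (hr : r < j) (hk : 2 * j ≤ k ^ 2) (hR : 1 ≤ R)
    (hq : 0 ≤ q) (hl : lam = R * (k : ℝ) ^ 2 * q) (hD : 5 * (2 * R) ^ j * j.factorial ≤ D) :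
    5 * lam ^ r ≤ D * (((k ^ 2).choose r : ℝ) * q ^ r) := by
  have h1 : (((k ^ 2 + 1 - r : ℕ) : ℝ) ^ r) / r.factorial ≤ ((k ^ 2).choose r : ℝ) :=
    Nat.pow_le_choose r (k ^ 2)
  have h2 : (k : ℝ) ^ 2 / 2 ≤ ((k ^ 2 + 1 - r : ℕ) : ℝ) := by
    have h3 : k ^ 2 ≤ 2 * (k ^ 2 + 1 - r) := by omega
    have h4 : ((k ^ 2 : ℕ) : ℝ) ≤ ((2 * (k ^ 2 + 1 - r) : ℕ) : ℝ) := Nat.cast_le.2 h3
    rw [Nat.cast_mul, Nat.cast_pow] at h4
    norm_num at h4
    linarith
  have h3 : (0 : ℝ) < r.factorial := Nat.cast_pos.2 r.factorial_pos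
  have h4 : (r.factorial : ℝ) ≤ j.factorial := Nat.cast_le.2 (Nat.factorial_le hr.le)
  rw [div_le_iff₀ h3] at h1
  have h5 : ((k : ℝ) ^ 2 / 2) ^ r ≤ ((k ^ 2).choose r : ℝ) * j.factorial :=
    ((pow_le_pow_left₀ (by positivity) h2 r).trans h1).trans
      (mul_le_mul_of_nonneg_left h4 (Nat.cast_nonneg _))
  have h6 : (2 * R) ^ r ≤ (2 * R) ^ j := pow_le_pow_right₀ (by linarith) hr.le
  have h7 : lam ^ r = (2 * R) ^ r * (((k : ℝ) ^ 2 / 2) ^ r * q ^ r) := by
    rw [← mul_pow, ← mul_pow, hl]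
    congr 1
    ring
  calc 5 * lam ^ r = 5 * ((2 * R) ^ r * (((k : ℝ) ^ 2 / 2) ^ r * q ^ r)) := by rw [h7]
    _ ≤ 5 * ((2 * R) ^ j * ((((k ^ 2).choose r : ℝ) * j.factorial) * q ^ r)) := by gcongr
    _ = 5 * (2 * R) ^ j * j.factorial * (((k ^ 2).choose r : ℝ) * q ^ r) := by ring
    _ ≤ _ := mul_le_mul_of_nonneg_right hD (by positivity)

theorem asy_last {j : ℕ} {x c g w β A ε H H' Z E θ lam : ℝ} (hx : 0 ≤ x) (hc : 0 < c) (hg0 : 0 < g)
    (hβ0 : 0 ≤ β) (hβ : A / 3 + j * β ≤ j - 1 - w / 3) (hg : (2 * j + 3) * g ≤ w / 12)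
    (hε : 2 * j * ε ≤ w / 12) (hH : H ≤ A * x) (hH0 : 0 ≤ H') (hH' : H' ≤ 2 * j * ε * x)
    (hZ : Z ≤ c * x * Real.exp (x - j * x)) (hE : E ≤ 8) (hθ : 0 < θ) (hl : lam ≠ 0)
    (h : 4 * c * Real.exp 8 * (2 ^ (2 * j + 1)) ^ j / θ ^ 2 * (1 + x) < Real.exp (w / 6 * x)) :
    Z * (2 * Real.exp (g * x / 2) * Real.exp E * (Real.exp (H / 3 + 2 * H' / 3) *
      (1 + Real.exp (g * x) ^ 2 * (lam * Real.exp (β * x) / lam) ^ j *
        (2 ^ (2 * j + 1) * Real.exp (g * x) / Real.exp (-(g * x))) ^ j))) < θ ^ 2 := by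
  have hY : Real.exp (g * x) ^ 2 * (lam * Real.exp (β * x) / lam) ^ j *
      (2 ^ (2 * j + 1) * Real.exp (g * x) / Real.exp (-(g * x))) ^ j =
      (2 ^ (2 * j + 1)) ^ j * Real.exp ((2 * g + j * β + 2 * g * j) * x) := by
    rw [mul_div_cancel_left₀ _ hl, mul_div_assoc, ← Real.exp_sub, mul_pow, ← Real.exp_nat_mul,
      ← Real.exp_nat_mul, ← Real.exp_nat_mul, ← Real.exp_add, mul_left_comm, ← Real.exp_add]
    congr 2
    push_cast
    ring
  have hY1 : (1 : ℝ) ≤ (2 ^ (2 * j + 1)) ^ j * Real.exp ((2 * g + j * β + 2 * g * j) * x) :=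
    one_le_mul_of_one_le_of_one_le (one_le_pow₀ (one_le_pow₀ one_le_two))
      (Real.one_le_exp (by positivity))
  rw [hY]
  generalize ((2 : ℝ) ^ (2 * j + 1)) ^ j = W at h hY1 ⊢
  have hW : 0 ≤ W := by
    by_contra h0
    have := mul_neg_of_neg_of_pos (not_le.1 h0) (Real.exp_pos ((2 * g + j * β + 2 * g * j) * x))
    linarith
  have h1 : (x - j * x) + g * x / 2 + (A * x / 3 + 2 * j * ε * x) +
      (2 * g + j * β + 2 * g * j) * x ≤ -(w / 6 * x) := by
    have h2 : (1 - j) + g / 2 + (A / 3 + 2 * j * ε) + (2 * g + j * β + 2 * g * j) ≤ -(w / 6) := by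
      linarith
    have := mul_le_mul_of_nonneg_right h2 hx
    linarith
  calc _ ≤ c * x * Real.exp (x - j * x) * (2 * Real.exp (g * x / 2) * Real.exp 8 *
        (Real.exp (A * x / 3 + 2 * j * ε * x) *
          (2 * (W * Real.exp ((2 * g + j * β + 2 * g * j) * x))))) := by
        gcongr
        · linarith
        · linarith
    _ = 4 * c * Real.exp 8 * W * x * Real.exp ((x - j * x) + g * x / 2 +
        (A * x / 3 + 2 * j * ε * x) + (2 * g + j * β + 2 * g * j) * x) := by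
        rw [Real.exp_add _ ((2 * g + j * β + 2 * g * j) * x), Real.exp_add _ (A * x / 3 + _),
          Real.exp_add (x - j * x)]
        ring
    _ ≤ 4 * c * Real.exp 8 * W * (1 + x) * Real.exp (-(w / 6 * x)) := by
        gcongr
        linarith
    _ < θ ^ 2 := by
        rw [Real.exp_neg, ← div_eq_mul_inv, div_lt_iff₀ (Real.exp_pos _)]
        rw [div_mul_eq_mul_div, div_lt_iff₀ (by positivity)] at h
        linarith

theorem asy_main {j m R t M : ℕ} {c a A w β g ε θ x K : ℝ} (hj : 2 ≤ j) (hc : 0 < c)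
    (hR : 1 ≤ R) (ha : a = 1 + 1 / R) (hA : A = a ^ (2 * j + 1) * c / j.factorial)
    (hAj : A ≤ 2 * j) (hβ0 : 0 ≤ β) (hβ1 : 2 * A / (3 * j) ≤ 1 + β)
    (hβ2 : A / 3 + j * β ≤ j - 1 - w / 3) (hg0 : 0 < g) (hg : (2 * j + 3) * g ≤ w / 12)
    (ht : (j : ℝ) + 1 ≤ t * g) (hε0 : 0 < ε) (hε : 2 * j * ε ≤ w / 12)
    (hθ : θ = 1 / R / a / 8) (hM1 : 1 ≤ M) (hM : 3 * t ≤ θ * ε * M)
    (hK : K = m + 1) (hx : x = Real.log K) (h1 : 2 * (M * j) + j ≤ m + 1)
    (h2 : 2 * Real.exp 5 ≤ K) (h3 : 1 ≤ x) (h4 : 2 ≤ g * x)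
    (h5 : 5120 * j ^ 5 * R ^ 2 ≤ g ^ 2 * x)
    (h6 : 3 * 2 ^ M ≤ θ * ε * c * K)
    (h7 : (2 + 5 * (2 * R) ^ j * j.factorial + 3 / θ + a ^ (j + 1) * c) * (1 + x) <
      Real.exp (g * x))
    (h8 : 16 * R * (1 + j ^ 2) * (1 + x) < Real.exp (1 / 2 * x))
    (h9 : 4 * j * Real.exp 5 ^ (2 * j) * (a ^ (j + 1) * c) * (1 + x) < Real.exp (g / 2 * x))
    (h10 : 4 * c * Real.exp 8 * (2 ^ (2 * j + 1)) ^ j / (2 * θ) ^ 2 * (1 + x) <
      Real.exp (w / 6 * x)) :
    Par j m (c * x / K ^ j) := by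
  have hR' : (1 : ℝ) ≤ R := Nat.one_le_cast.2 hR
  have hj' : (2 : ℝ) ≤ j := by exact_mod_cast hj
  have hM' : (1 : ℝ) ≤ M := Nat.one_le_cast.2 hM1
  have hi0 : (0 : ℝ) < 1 / R := by positivity
  have hi1 : (1 : ℝ) / R ≤ 1 := by rw [div_le_one (by linarith)]; exact hR'
  have ha1 : 1 < a := by linarith
  have ha2 : a ≤ 2 := by linarith
  have hK0 : 0 < K := by rw [hK]; positivity
  have hK1 : 1 ≤ K := by rw [hK]; exact le_add_of_nonneg_left (Nat.cast_nonneg m)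
  have hex : Real.exp x = K := by rw [hx, Real.exp_log hK0]
  have hθ0 : 0 < θ := by rw [hθ]; positivity
  have hf0 : (0 : ℝ) < j.factorial := Nat.cast_pos.2 j.factorial_pos
  have he5 : 6 ≤ Real.exp 5 := by linarith [Real.add_one_le_exp 5]
  obtain ⟨δ, hδ⟩ : ∃ δ, δ = c * x / K ^ j := ⟨_, rfl⟩
  obtain ⟨q, hq⟩ : ∃ q, q = a / (R * K) := ⟨_, rfl⟩
  have hδ0 : 0 < δ := by rw [hδ]; positivity
  have hq0 : 0 < q := by rw [hq]; positivity
  have hqK : q * K ≤ 2 := by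
    have : q * K = a * (1 / R) := by rw [hq]; field_simp
    have := mul_le_mul ha2 hi1 hi0.le zero_le_two
    linarith
  have hq5 : Real.exp 5 * q ≤ 1 := by linarith [mul_le_mul_of_nonneg_left h2 hq0.le]
  have hq2 : q ≤ 1 / 2 := by linarith [mul_le_mul_of_nonneg_right he5 hq0.le]
  have hn : ((R * (m + 1) ^ 2 : ℕ) : ℝ) = R * K ^ 2 := by rw [hK]; push_cast; ring
  have he : (((m + 1) ^ 2 : ℕ) : ℝ) = K ^ 2 := by rw [hK]; push_cast; ring
  have hnq : R * K ^ 2 * q = a * K := by rw [hq]; field_simp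
  obtain ⟨h, hh⟩ : ∃ h, h = ((R * (m + 1) ^ 2 + (m + 1) ^ 2).choose j : ℝ) * q ^ j := ⟨_, rfl⟩
  have hh0 : 0 ≤ h := by rw [hh]; positivity
  have hH : h * (a * δ) ≤ A * x := by
    have e1 : (((R * (m + 1) ^ 2 + (m + 1) ^ 2 : ℕ) : ℝ)) * q = a ^ 2 * K := by
      rw [Nat.cast_add, hn, he, hq]
      have : (R : ℝ) + 1 = a * R := by rw [ha]; field_simp
      field_simp
      linarith
    have e2 : h ≤ (a ^ 2 * K) ^ j / j.factorial := by
      rw [hh, ← e1, mul_pow, mul_div_right_comm]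
      exact mul_le_mul_of_nonneg_right (Nat.choose_le_pow_div _ _) (by positivity)
    refine (mul_le_mul_of_nonneg_right e2 (by positivity)).trans (le_of_eq ?_)
    rw [hA, hδ, mul_pow, ← pow_mul, pow_succ]
    field_simp
  have hH2 : h * (a * δ) ≤ 2 * j * x := hH.trans (mul_le_mul_of_nonneg_right hAj (by linarith))
  have hC : (a * K) ^ j * (a * δ) = a ^ (j + 1) * c * x := by
    rw [hδ, mul_pow, pow_succ]
    field_simp
  have hp1 : (0 : ℝ) ≤ 5 * (2 * R) ^ j * j.factorial := by positivity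
  have hp2 : 0 ≤ 3 / θ := by positivity
  have hp3 : 0 ≤ a ^ (j + 1) * c := by positivity
  have hD : 2 + 5 * (2 * R) ^ j * j.factorial + 3 / θ + a ^ (j + 1) * c * x <
      Real.exp (g * x) := by
    refine lt_of_le_of_lt ?_ h7
    have hx0 : 0 ≤ x := by linarith
    linarith [mul_nonneg hp1 hx0, mul_nonneg hp2 hx0]
  have hp4 : 0 ≤ a ^ (j + 1) * c * x := by positivity
  rw [← hδ]
  refine ⟨(m + 1 - j) / 2, m + 1 - j - (m + 1 - j) / 2, R * (m + 1) ^ 2, (m + 1) ^ 2, M, t, q,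
    1 / R, Real.exp (g * x), Real.exp (-(g * x)), Real.exp (g * x), g * x / (8 * j * R), g * x / 2,
    ε, a * K * Real.exp (β * x), by omega, by omega, Nat.one_le_pow _ _ (Nat.succ_pos m), hM1,
    by omega, hq0, hq5, ?_⟩
  rw [← ha, ← hh, hn, he, hnq]
  have haK : 1 * K ≤ a * K := mul_le_mul_of_nonneg_right ha1.le hK0.le
  refine ⟨by linarith, by linarith, hδ0, hi0, by linarith, Real.exp_pos _,
    Real.exp_le_exp.2 (by linarith), by positivity, by linarith, hε0, fun r _ hr => ?_,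
    by rw [hC]; linarith, ?_, ?_, ?_, ?_, ?_, ?_, ?_, ?_⟩
  · refine asy_choose (R := R) hr ?_ hR' hq0.le (by rw [← hnq, hK]; push_cast; ring) (by linarith)
    have : M * j ≥ j := Nat.le_mul_of_pos_left j hM1
    have : m + 1 ≤ (m + 1) ^ 2 := Nat.le_self_pow two_ne_zero _
    omega
  · obtain ⟨u, hu⟩ : ∃ u, u = Real.exp (1 / 2 * x) := ⟨_, rfl⟩
    have hu2 : u ^ 2 = K := by
      rw [hu, sq, ← Real.exp_add, ← hex]
      ring_nf
    have hu0 : 0 < u := by rw [hu]; exact Real.exp_pos _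
    rw [← hu] at h8
    have e0 : (1 : ℝ) ≤ 16 * R * (1 + j ^ 2) :=
      one_le_mul_of_one_le_of_one_le (by linarith) (le_add_of_nonneg_right (sq_nonneg _))
    have e1 : x ≤ u := by
      linarith [mul_le_mul_of_nonneg_right e0 (show 0 ≤ 1 + x by linarith)]
    have e2 : 16 * R * (1 + j ^ 2) ≤ u :=
      (le_mul_of_one_le_right (by linarith) (by linarith)).trans h8.le
    have e3 : √(a * K) ≤ 2 * u := Real.sqrt_le_iff.2 ⟨by positivity, by
      rw [mul_pow, hu2]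
      exact mul_le_mul_of_nonneg_right (by linarith) hK0.le⟩
    have e4 : j * (h * (a * δ)) ≤ j * (2 * j * u) :=
      mul_le_mul_of_nonneg_left (hH2.trans (by gcongr)) (by positivity)
    have e5 : 16 * (1 + j ^ 2) * u ≤ 1 / R * K := by
      rw [← hu2, one_div, ← div_eq_inv_mul, le_div_iff₀ (by linarith)]
      linarith [mul_le_mul_of_nonneg_right e2 hu0.le]
    have e6 : a * K - m = 1 / R * K + 1 := by
      rw [ha, add_mul, one_mul, hK]
      ring
    rw [e6]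
    linarith
  · rw [div_pow, le_div_iff₀ (by positivity)]
    have e1 := mul_le_mul_of_nonneg_right h5 (show 0 ≤ x by linarith)
    have e2 : 40 * j ^ 2 * (h * (a * δ)) * (8 * j * R) ^ 2 ≤
        40 * j ^ 2 * (2 * j * x) * (8 * j * R) ^ 2 := by gcongr
    linarith
  · refine le_of_eq ?_
    field_simp
    ring
  · have e1 : Real.exp (g * x / 2) * Real.exp (-(g * x)) * Real.exp (g / 2 * x) = 1 := by
      rw [← Real.exp_add, ← Real.exp_add, ← Real.exp_zero]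
      congr 1
      ring
    have e2 : Real.exp (g * x / 2) * (2 * j * Real.exp 5 ^ (2 * j) * Real.exp (-(g * x)) *
        (a * K) ^ j * (a * δ)) = Real.exp (g * x / 2) * Real.exp (-(g * x)) *
        (4 * j * Real.exp 5 ^ (2 * j) * (a ^ (j + 1) * c) * x) / 2 := by
      rw [mul_assoc _ ((a * K) ^ j), hC]
      ring
    have e3 : 4 * j * Real.exp 5 ^ (2 * j) * (a ^ (j + 1) * c) * x ≤ Real.exp (g / 2 * x) :=
      le_trans (by gcongr; linarith) h9.le
    rw [e2, ← e1]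
    gcongr
  · rw [← hθ]
    have e1 : 1 / Real.exp (g * x) ≤ θ / 3 := by
      rw [← one_div_div 3 θ]
      exact one_div_le_one_div_of_le (by positivity) (by linarith)
    have e2 : (t : ℝ) / M ≤ θ / 3 * ε := by
      rw [div_le_iff₀ (by linarith)]
      linarith
    have e3 : K ^ (j + 1) ≤ Real.exp (g * x) ^ t := by
      rw [← hex, ← Real.exp_nat_mul, ← Real.exp_nat_mul, Real.exp_le_exp, ← mul_assoc]
      push_cast
      exact mul_le_mul_of_nonneg_right ht (by linarith)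
    have e4 : c * K ≤ Real.exp (g * x) ^ t * M * δ := by
      calc c * K = K ^ (j + 1) * 1 * (c * 1 / K ^ j) := by
            rw [pow_succ]
            field_simp
        _ ≤ _ := by
            rw [hδ]
            gcongr
    have e5 : 2 ^ M / (Real.exp (g * x) ^ t * M * δ) ≤ θ / 3 * ε := by
      rw [div_le_iff₀ (by positivity)]
      have := mul_le_mul_of_nonneg_left e4 (show 0 ≤ θ / 3 * ε by positivity)
      linarith
    have e6 : (t / M + 2 ^ M / (Real.exp (g * x) ^ t * M * δ)) / ε ≤ 2 * θ / 3 := by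
      rw [div_le_iff₀ hε0]
      linarith
    linarith
  · exact le_mul_of_one_le_right (by positivity) (Real.one_le_exp (by positivity))
  · calc _ ≤ Real.exp (x + β * x) := by
          refine Real.exp_le_exp.2 ?_
          have e1 := mul_le_mul_of_nonneg_right hβ1 (show 0 ≤ x by linarith)
          have e2 : 2 * (h * (a * δ)) / (3 * j) ≤ 2 * (A * x) / (3 * j) := by gcongr
          have e3 : 2 * (A * x) / (3 * j) = 2 * A / (3 * j) * x := by ring
          linarith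
      _ = 1 * K * Real.exp (β * x) := by rw [Real.exp_add, hex, one_mul]
      _ ≤ _ := by gcongr
  · rw [show 1 / (R : ℝ) / a / 4 = 2 * θ by rw [hθ]; ring]
    refine asy_last (by linarith) hc hg0 hβ0 hβ2 hg hε hH (by positivity) ?_ ?_ ?_ (by positivity)
      (by positivity) h10
    · have e1 : h * (ε * δ) ≤ ε * (h * (a * δ)) := by
        have : h * (ε * δ) = ε * (h * (1 * δ)) := by ring
        rw [this]
        gcongr
      have e2 := mul_le_mul_of_nonneg_left hH2 hε0.le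
      linarith
    · have e1 : ((m + 1 - j - (m + 1 - j) / 2 : ℕ) : ℝ) ≤ K := by
        rw [hK]
        exact_mod_cast (show m + 1 - j - (m + 1 - j) / 2 ≤ m + 1 by omega)
      refine (mul_le_mul_of_nonneg_right e1 hδ0.le).trans (le_of_eq ?_)
      rw [hδ, Real.exp_sub, Real.exp_nat_mul, hex]
      ring
    · rw [div_le_iff₀ (by linarith)]
      have e1 : R * K ^ 2 * q ^ 2 = a * (q * K) := by
        rw [sq q, ← mul_assoc, hnq]
        ring
      linarith [mul_le_mul ha2 hqK (by positivity) zero_le_two]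

theorem par_eventually {j : ℕ} (hj : 2 ≤ j) {c : ℝ} (hc0 : 0 < c)
    (hc : c < (2 * j - 1) * j.factorial) :
    ∀ᶠ m : ℕ in atTop, Par j m (c * Real.log (m + 1) / (m + 1) ^ j) := by
  have hj' : (2 : ℝ) ≤ j := by exact_mod_cast hj
  have hf0 : (0 : ℝ) < j.factorial := Nat.cast_pos.2 j.factorial_pos
  have hlim : Tendsto (fun R : ℕ => (1 + 1 / (R : ℝ)) ^ (2 * j + 1) * c) atTop
      (𝓝 ((1 + 0) ^ (2 * j + 1) * c)) :=
    ((tendsto_const_nhds.add tendsto_one_div_atTop_nhds_zero_nat).pow _).mul tendsto_const_nhds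
  rw [add_zero, one_pow, one_mul] at hlim
  obtain ⟨R, hR1, hR⟩ := ((hlim.eventually_lt_const hc).and (eventually_ge_atTop 1)).exists
  obtain ⟨a, ha⟩ : ∃ a : ℝ, a = 1 + 1 / R := ⟨_, rfl⟩
  obtain ⟨A, hA⟩ : ∃ A : ℝ, A = a ^ (2 * j + 1) * c / j.factorial := ⟨_, rfl⟩
  have hA1 : A < 2 * j - 1 := by
    rw [hA, div_lt_iff₀ hf0, ha]
    exact hR1
  obtain ⟨w, hw⟩ : ∃ w : ℝ, w = 2 * j - 1 - A := ⟨_, rfl⟩
  have hw0 : 0 < w := by linarith
  have hβ2 : A / 3 + j * max 0 (2 * A / (3 * j) - 1) ≤ j - 1 - w / 3 := by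
    rcases le_total 0 (2 * A / (3 * j) - 1) with h | h
    · rw [max_eq_right h]
      have : j * (2 * A / (3 * j) - 1) = 2 * A / 3 - j := by field_simp
      linarith
    · rw [max_eq_left h]
      linarith
  obtain ⟨g, hg⟩ : ∃ g : ℝ, g = w / 12 / (2 * j + 3) := ⟨_, rfl⟩
  have hg0 : 0 < g := by rw [hg]; positivity
  obtain ⟨t, ht⟩ := exists_nat_ge (((j : ℝ) + 1) / g)
  rw [div_le_iff₀ hg0] at ht
  obtain ⟨ε, hε⟩ : ∃ ε : ℝ, ε = w / 12 / (2 * j) := ⟨_, rfl⟩
  have hε0 : 0 < ε := by rw [hε]; positivity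
  obtain ⟨θ, hθ⟩ : ∃ θ : ℝ, θ = 1 / R / a / 8 := ⟨_, rfl⟩
  have hR0 : (0 : ℝ) < R := Nat.cast_pos.2 hR
  have hθ0 : 0 < θ := by rw [hθ, ha]; positivity
  obtain ⟨M, hM⟩ := exists_nat_ge (3 * (t : ℝ) / (θ * ε))
  rw [div_le_iff₀ (by positivity)] at hM
  have hK : Tendsto (fun m : ℕ => (m : ℝ) + 1) atTop atTop :=
    tendsto_atTop_add_const_right _ 1 tendsto_natCast_atTop_atTop
  filter_upwards [eventually_ge_atTop (2 * ((M + 1) * j) + j),
    hK.eventually_ge_atTop (2 * Real.exp 5),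
    asy_log.eventually_ge_atTop 1, (asy_log.const_mul_atTop hg0).eventually_ge_atTop 2,
    (asy_log.const_mul_atTop (pow_pos hg0 2)).eventually_ge_atTop (5120 * j ^ 5 * R ^ 2),
    (hK.const_mul_atTop (show 0 < θ * ε * c by positivity)).eventually_ge_atTop (3 * 2 ^ (M + 1)),
    asy_ev (2 + 5 * (2 * R) ^ j * j.factorial + 3 / θ + a ^ (j + 1) * c) hg0,
    asy_ev (16 * R * (1 + j ^ 2)) (show (0 : ℝ) < 1 / 2 by norm_num),
    asy_ev (4 * j * Real.exp 5 ^ (2 * j) * (a ^ (j + 1) * c)) (half_pos hg0),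
    asy_ev (4 * c * Real.exp 8 * (2 ^ (2 * j + 1)) ^ j / (2 * θ) ^ 2)
      (show 0 < w / 6 by positivity)] with m h1 h2 h3 h4 h5 h6 h7 h8 h9 h10
  refine asy_main (M := M + 1) hj hc0 hR ha hA (by linarith) (le_max_left _ _)
    (by linarith [le_max_right 0 (2 * A / (3 * j) - 1)]) hβ2 hg0 (le_of_eq ?_) ht hε0
    (le_of_eq ?_) hθ (by omega) ?_ rfl rfl (by omega) h2 h3 h4 h5 h6 h7 h8 h9 h10
  · rw [hg]
    field_simp
  · rw [hε]
    field_simp
  · push_cast
    linarith [mul_pos hθ0 hε0]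

end Pool.Agent.P.MP_7badbe_co

end

section


open Finset Filter Topology
open scoped BigOperators

namespace Pool.Agent.P.MP_7badbe_co

variable {V : Type} [Fintype V] [Nonempty V]

lemma Asy1_lim {a : ℝ} (ha : 0 < a) (c : ℝ) :
    Tendsto (fun x : ℝ => c * (x * Real.exp (-(a * x)))) atTop (𝓝 0) := by
  have h := (Real.tendsto_pow_mul_exp_neg_atTop_nhds_zero 1).comp
    (tendsto_id.const_mul_atTop ha)
  have h2 := h.const_mul (c / a)
  rw [mul_zero] at h2
  refine h2.congr (fun x => ?_)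
  simp only [Function.comp, id, pow_one]
  field_simp

lemma Asy1_abs {m : ℕ} {δ eps E : ℝ} (hδ : 0 < δ) (hδ1 : δ ≤ 1 / 16) (he0 : 0 < eps)
    (he1 : eps ≤ 1) (hm : 1 ≤ m) (hk : 1 ≤ (m + 1) * δ)
    (hE : Real.exp ((m + 1) * ((1 + eps) * δ) / (1 - (1 + eps) * δ) ^ 2) ≤ E)
    (hK : ((24 / eps) ^ 2 + 16 * (24 / eps)) * (E * δ) ≤ (eps / 100) ^ 8) : Par1 m δ := by
  have hE0 : 0 < E := (Real.exp_pos _).trans_le hE
  have hm1 : (1 : ℝ) ≤ m := by exact_mod_cast hm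
  obtain ⟨y, hy1, hy2⟩ : ∃ y : ℕ, (y : ℝ) * (16 * δ) ≤ 1 ∧ 1 ≤ ((y : ℝ) + 1) * (16 * δ) ∧ 1 ≤ y := by
    refine ⟨⌊1 / (16 * δ)⌋₊, ?_, ?_, ?_⟩
    · have := Nat.floor_le (a := 1 / (16 * δ)) (by positivity)
      rwa [le_div_iff₀ (by positivity)] at this
    · have := (Nat.lt_floor_add_one (1 / (16 * δ))).le
      rwa [div_le_iff₀ (by positivity)] at this
    · refine Nat.le_floor ?_
      rw [le_div_iff₀ (by positivity)]
      push_cast; linarith
  obtain ⟨hy2, hy3⟩ := hy2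
  have hy0 : (0 : ℝ) ≤ y := Nat.cast_nonneg _
  have hym : 2 * y ≤ m := by
    have h1 : (y : ℝ) * 16 * δ ≤ (m + 1) * δ := by nlinarith
    have h2 : (y : ℝ) * 16 ≤ m + 1 := le_of_mul_le_mul_right h1 hδ
    have h3 : 2 * (y : ℝ) ≤ m := by linarith
    exact_mod_cast h3
  set K : ℝ := (24 / eps) ^ 2 + 16 * (24 / eps) with hKd
  have hK0 : 0 < K := by positivity
  refine ⟨y, m - 2 * y, eps, E, K * δ ^ 2, by omega, hy3, hδ, he0, he1, by nlinarith, ?_, ?_,
    by nlinarith, ?_, ?_⟩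
  · refine le_trans (Real.exp_le_exp.2 ?_) hE
    refine div_le_div_of_nonneg_right (mul_le_mul_of_nonneg_right ?_ (by positivity))
      (by positivity)
    have : m - 2 * y ≤ m + 1 := by omega
    exact_mod_cast this
  · have h1 : 24 / eps * δ / (y + 1) ≤ 16 * (24 / eps) * δ ^ 2 := by
      rw [div_le_iff₀ (by positivity)]
      have h2 : 0 ≤ 24 / eps * δ := by positivity
      have := mul_le_mul_of_nonneg_left hy2 h2
      nlinarith
    rw [hKd]
    nlinarith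
  · have h1 : E * (K * δ ^ 2) / δ = K * (E * δ) := by field_simp
    rw [h1]
    refine hK.trans (pow_le_pow_of_le_one (by positivity) (by linarith) (by norm_num))
  · refine le_trans ?_ hK
    have h2 : 0 ≤ K * (E * δ) := by positivity
    have h3 : (y : ℝ) * δ ≤ 1 := by nlinarith
    have := mul_le_mul_of_nonneg_left h3 h2
    nlinarith

theorem par1_eventually {c : ℝ} (hc0 : 0 < c) (hc : c < 1) :
    ∀ᶠ m : ℕ in atTop, Par1 m (c * Real.log (m + 1) / (m + 1)) := by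
  set eps : ℝ := (1 - c) / 2 with heps
  have he0 : 0 < eps := by rw [heps]; linarith
  have he1 : eps ≤ 1 := by rw [heps]; linarith
  set c1 : ℝ := (1 + eps) * c with hc1
  have hc1p : 0 < c1 := by positivity
  have hc11 : c1 < 1 := by rw [hc1, heps]; nlinarith
  set c2 : ℝ := (1 + c1) / 2 with hc2
  have hc2p : 0 < c2 := by positivity
  have hx : Tendsto (fun m : ℕ => Real.log ((m : ℝ) + 1)) atTop atTop :=
    Real.tendsto_log_atTop.comp (tendsto_atTop_add_const_right _ 1 tendsto_natCast_atTop_atTop)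
  have hexp : ∀ m : ℕ, Real.exp (Real.log ((m : ℝ) + 1)) = m + 1 :=
    fun m => Real.exp_log (by positivity)
  have hδ : Tendsto (fun m : ℕ => c * Real.log (m + 1) / (m + 1)) atTop (𝓝 0) := by
    refine ((Asy1_lim one_pos c).comp hx).congr (fun m => ?_)
    simp only [Function.comp, one_mul, Real.exp_neg, hexp]
    ring
  have hEδ : Tendsto (fun m : ℕ => ((24 / eps) ^ 2 + 16 * (24 / eps))
      * (Real.exp (c2 * Real.log (m + 1)) * (c * Real.log (m + 1) / (m + 1)))) atTop (𝓝 0) := by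
    have ha : 0 < 1 - c2 := by rw [hc2]; linarith
    refine ((Asy1_lim ha (((24 / eps) ^ 2 + 16 * (24 / eps)) * c)).comp hx).congr (fun m => ?_)
    simp only [Function.comp]
    have : -((1 - c2) * Real.log ((m : ℝ) + 1))
        = c2 * Real.log ((m : ℝ) + 1) - Real.log ((m : ℝ) + 1) := by ring
    rw [this, Real.exp_sub, hexp]
    ring
  have hsq : Tendsto (fun m : ℕ => (1 - (1 + eps) * (c * Real.log (m + 1) / (m + 1))) ^ 2)
      atTop (𝓝 1) := by
    have := ((hδ.const_mul (1 + eps)).const_sub 1).pow 2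
    simpa using this
  have hlt : c1 / c2 < 1 := by rw [div_lt_one hc2p, hc2]; linarith
  filter_upwards [hδ.eventually (ge_mem_nhds (by norm_num : (0 : ℝ) < 1 / 16)),
    hEδ.eventually (ge_mem_nhds (by positivity : (0 : ℝ) < (eps / 100) ^ 8)),
    hsq.eventually (le_mem_nhds hlt), hx.eventually_ge_atTop (1 / c), eventually_ge_atTop 1]
    with m h1 h2 h3 h4 h5
  have hL : 1 ≤ c * Real.log ((m : ℝ) + 1) := by
    rw [div_le_iff₀ hc0] at h4; linarith
  have hL0 : 0 ≤ Real.log ((m : ℝ) + 1) := le_trans (by positivity) h4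
  have hk : ((m : ℝ) + 1) * (c * Real.log (m + 1) / (m + 1)) = c * Real.log (m + 1) := by
    field_simp
  refine Asy1_abs (div_pos (by linarith) (by positivity)) h1 he0 he1 h5 (by rw [hk]; exact hL)
    (Real.exp_le_exp.2 ?_) h2
  have h6 : 0 < (1 - (1 + eps) * (c * Real.log (m + 1) / (m + 1))) ^ 2 :=
    lt_of_lt_of_le (by positivity) h3
  rw [div_le_iff₀ h6]
  rw [div_le_iff₀ hc2p] at h3
  have h7 : ((m : ℝ) + 1) * ((1 + eps) * (c * Real.log (m + 1) / (m + 1)))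
      = c1 * Real.log (m + 1) := by
    rw [hc1]; field_simp
  rw [h7]
  have := mul_le_mul_of_nonneg_left h3 hL0
  nlinarith

end Pool.Agent.P.MP_7badbe_co

end

section


open Finset Filter Topology
open scoped BigOperators

namespace Pool.Agent.P.MP_7badbe_co

variable {V : Type} [Fintype V] [Nonempty V]

lemma upa_tend : Tendsto (fun m : ℕ => (m : ℝ) + 1) atTop atTop :=
  tendsto_atTop_add_const_right _ _ tendsto_natCast_atTop_atTop

lemma upa_log : Tendsto (fun m : ℕ => Real.log ((m : ℝ) + 1)) atTop atTop :=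
  Real.tendsto_log_atTop.comp upa_tend

lemma upa_sq (D : ℝ) : ∀ᶠ m : ℕ in atTop, D * Real.log ((m : ℝ) + 1) ^ 2 ≤ (m : ℝ) + 1 := by
  have h1 := Real.tendsto_pow_log_div_mul_add_atTop 1 0 2 one_ne_zero
  have h2 : Tendsto (fun x : ℝ => D * (Real.log x ^ 2 / (1 * x + 0))) atTop (𝓝 (D * 0)) :=
    h1.const_mul D
  rw [mul_zero] at h2
  have h3 := (h2.comp upa_tend).eventually (gt_mem_nhds (show (0 : ℝ) < 1 by norm_num))
  filter_upwards [h3] with m hm
  have h0 : (0 : ℝ) < (m : ℝ) + 1 := by positivity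
  simp only [Function.comp, one_mul, add_zero] at hm
  rw [← mul_div_assoc, div_lt_one h0] at hm
  exact hm.le

lemma upa_exp {e d : ℝ} (D : ℝ) (he : 0 < e) (hd : 0 < d) :
    ∀ᶠ m : ℕ in atTop, D * Real.exp (-(e * Real.log ((m : ℝ) + 1))) ≤ d := by
  have h1 : Tendsto (fun m : ℕ => e * Real.log ((m : ℝ) + 1)) atTop atTop :=
    upa_log.const_mul_atTop he
  have h2 := (Real.tendsto_exp_neg_atTop_nhds_zero.comp h1).const_mul D
  rw [mul_zero] at h2
  filter_upwards [h2.eventually (gt_mem_nhds hd)] with m hm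
  exact hm.le

/-- the third term -/
lemma upa_three {j m r : ℕ} {x : ℝ} (hx : Real.exp x = (m : ℝ) + 1) (hx0 : 0 ≤ x) (hr : 1 ≤ r)
    (hr1 : (r : ℝ) * ((2 * j + 3) * x) ≤ (m : ℝ) + 1) (hr2 : (r : ℝ) ≤ (m : ℝ) + 1)
    (hj : (j : ℝ) * (2 * j + 3) ≤ (m : ℝ) + 1) :
    r * (((m : ℝ) + 1) ^ j * (1 - 1 / (r : ℝ)) ^ (m + 1 - j))
      ≤ 1 / ((m : ℝ) + 1) / ((m : ℝ) + 1) ^ j := by
  set K : ℝ := (m : ℝ) + 1 with hK
  have hK0 : 0 < K := by positivity
  have hr0 : (1 : ℝ) ≤ r := by exact_mod_cast hr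
  have hj0 : (0 : ℝ) ≤ j := Nat.cast_nonneg j
  have hjm : j ≤ m + 1 := by
    have : (j : ℝ) ≤ ((m + 1 : ℕ) : ℝ) := by push_cast; nlinarith
    exact_mod_cast this
  have h4 : (0 : ℝ) ≤ 1 - 1 / r := by
    rw [sub_nonneg, div_le_one (by linarith)]; exact hr0
  have h5 : (1 - 1 / (r : ℝ)) ^ (m + 1 - j) ≤ Real.exp (-((2 * j + 2) * x)) := by
    refine (pow_le_pow_left₀ h4 (Real.one_sub_le_exp_neg _) _).trans ?_
    rw [← Real.exp_nat_mul, Real.exp_le_exp, Nat.cast_sub hjm]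
    push_cast
    rw [← hK, mul_neg, neg_le_neg_iff, mul_one_div, le_div_iff₀ (by linarith)]
    have h6 : K * ((2 * j + 2) * x * r) ≤ K * (K - j) := by
      have h7 : (2 * j + 2) * K ≤ (2 * j + 3) * (K - j) := by nlinarith
      have h8 : 0 ≤ x * r := by positivity
      have h9 : K - j ≥ 0 := by nlinarith
      calc K * ((2 * j + 2) * x * r) = ((2 * j + 2) * K) * (x * r) := by ring
        _ ≤ ((2 * j + 3) * (K - j)) * (x * r) := by gcongr
        _ = (r * ((2 * j + 3) * x)) * (K - j) := by ring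
        _ ≤ K * (K - j) := by gcongr
    exact le_of_mul_le_mul_left h6 hK0
  have h6 : Real.exp (-((2 * j + 2) * x)) = 1 / K ^ (2 * j + 2) := by
    rw [Real.exp_neg, ← hx, ← Real.exp_nat_mul, one_div]
    push_cast
    rfl
  rw [h6] at h5
  calc r * (K ^ j * (1 - 1 / (r : ℝ)) ^ (m + 1 - j)) ≤ K * (K ^ j * (1 / K ^ (2 * j + 2))) := by
        gcongr
    _ = 1 / K / K ^ j := by
        field_simp
        ring

/-- the main exponent -/
lemma upa_choose {j m l : ℕ} {x C1 e : ℝ} (hj : 1 ≤ j) (hx0 : 0 < x) (hC1 : 0 < C1) (he : 0 < e)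
    (ha : C1 / j.factorial = (2 * j - 1) + 2 * e) (hl : 1 ≤ l)
    (hl1 : (l : ℝ) ≤ ((m : ℝ) + 1) ^ j / (C1 * x) + 1)
    (h1 : 2 * j ^ 2 * (C1 / j.factorial) / e ≤ (m : ℝ) + 1)
    (h2 : 2 * (2 * j - 1 + e) / e * (C1 * x) ≤ (m : ℝ) + 1) (h3 : (j : ℝ) ≤ (m : ℝ) + 1) :
    (2 * j - 1 + e) * x ≤ (m.choose j : ℝ) / l := by
  set K : ℝ := (m : ℝ) + 1 with hK
  have hK0 : 0 < K := by positivity
  have hK1 : 1 ≤ K := by rw [hK]; linarith [Nat.cast_nonneg (α := ℝ) m]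
  have hl0 : (1 : ℝ) ≤ l := by exact_mod_cast hl
  have hj1 : (1 : ℝ) ≤ j := by exact_mod_cast hj
  have hF : (0 : ℝ) < j.factorial := by positivity
  have hjm : j ≤ m + 1 := by
    have : (j : ℝ) ≤ ((m + 1 : ℕ) : ℝ) := by push_cast; exact h3
    exact_mod_cast this
  have c1 := Nat.pow_le_choose (α := ℝ) j m
  rw [Nat.cast_sub hjm] at c1
  push_cast at c1
  rw [← hK] at c1
  have c2 : K ^ j * (1 - j ^ 2 / K) ≤ (K - j) ^ j := by
    have h5 : (1 : ℝ) + j * (-(j / K)) ≤ (1 + -(j / K)) ^ j :=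
      one_add_mul_le_pow (by
        have : (j : ℝ) / K ≤ 1 := (div_le_one hK0).2 h3
        linarith) j
    have h6 : K - j = K * (1 + -(j / K)) := by field_simp; ring
    rw [h6, mul_pow]
    refine mul_le_mul_of_nonneg_left (le_trans (le_of_eq ?_) h5) (by positivity)
    ring
  set a := C1 / j.factorial with ha'
  set b : ℝ := 2 * j - 1 + e with hb
  have hb0 : 0 < b := by rw [hb]; linarith
  have ha0 : 0 < a := by positivity
  set L := K ^ j / (C1 * x) with hL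
  have hCx : 0 < C1 * x := by positivity
  have hL1 : 2 * b / e ≤ L := by
    rw [hL, le_div_iff₀ hCx]
    exact h2.trans (le_self_pow₀ hK1 (by omega))
  have hL2 : b ≤ e / 2 * L := by
    rw [div_le_iff₀ he] at hL1
    linarith
  have hL0 : 0 ≤ L := by positivity
  have c3 : j ^ 2 / K * a ≤ e / 2 := by
    rw [div_le_iff₀ he] at h1
    rw [div_mul_eq_mul_div, div_le_iff₀ hK0]
    linarith
  have c4 : b * l ≤ L * ((1 - j ^ 2 / K) * a) := by
    have h5 : b + e / 2 ≤ (1 - j ^ 2 / K) * a := by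
      rw [sub_mul, one_mul]
      linarith
    calc b * l ≤ b * (L + 1) := by gcongr
      _ ≤ L * (b + e / 2) := by nlinarith
      _ ≤ _ := by gcongr
  rw [le_div_iff₀ (by linarith)]
  refine le_trans ?_ c1
  calc b * x * l = x * (b * l) := by ring
    _ ≤ x * (L * ((1 - j ^ 2 / K) * a)) := by gcongr
    _ = K ^ j * (1 - j ^ 2 / K) / j.factorial := by
        rw [hL, ha']
        field_simp
    _ ≤ _ := by gcongr

/-- choice of the two moduli -/
theorem up_par {j : ℕ} (hj : 1 ≤ j) {C : ℝ} (hC : (2 * j - 1) * j.factorial < C) :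
    ∀ᶠ m : ℕ in atTop, ∃ (l r : ℕ) (β : ℝ), 1 ≤ l ∧ 1 ≤ r ∧
      j * ((m : ℝ) + 1) ^ (j - 1) ≤ β * l ∧ β ≤ 1 / 2 ∧
      1 / (l : ℝ) + (l : ℝ) / r * ((1 + ((m : ℝ) + 1) ^ j / l)
          * Real.exp (-((m.choose j : ℝ) / l) + 6 * m * β ^ 2))
        + r * (((m : ℝ) + 1) ^ j * (1 - 1 / (r : ℝ)) ^ (m + 1 - j))
      ≤ C * Real.log (m + 1) / (m + 1) ^ j := by
  have hj1 : (1 : ℝ) ≤ j := by exact_mod_cast hj
  have hF : (1 : ℝ) ≤ j.factorial := by exact_mod_cast Nat.factorial_pos j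
  obtain ⟨C1, hC1, hC2⟩ := exists_between hC
  have hC3 : 1 ≤ C1 := by nlinarith
  obtain ⟨e, he, ha⟩ : ∃ e : ℝ, 0 < e ∧ C1 / j.factorial = (2 * j - 1) + 2 * e := by
    refine ⟨(C1 / j.factorial - (2 * j - 1)) / 2, ?_, by ring⟩
    have : (2 * j - 1 : ℝ) < C1 / j.factorial := by rw [lt_div_iff₀ (by linarith)]; exact hC1
    linarith
  have hd : 0 < (C - C1) / 2 := by linarith
  filter_upwards [upa_log.eventually_ge_atTop 2, upa_sq (j * (2 * j + 3)), upa_sq (2 * j * C1),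
    upa_sq (6 * j ^ 2 * C1 ^ 2), upa_sq (2 * j ^ 2 * (C1 / j.factorial) / e),
    upa_sq (2 * (2 * j - 1 + e) / e * C1), upa_sq (2 / (C - C1)),
    upa_exp (4 * (2 * j + 3) * Real.exp 1) he hd] with m x2 g1 g2 g3 g4 g5 g6 g7
  have hx : Real.exp (Real.log ((m : ℝ) + 1)) = (m : ℝ) + 1 := Real.exp_log (by positivity)
  generalize Real.log ((m : ℝ) + 1) = x at *
  have hx0 : 0 < x := by linarith
  have sq1 : ∀ D : ℝ, 0 ≤ D → D * x ≤ D * x ^ 2 := fun D hD =>
    mul_le_mul_of_nonneg_left (by nlinarith) hD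
  have sq0 : ∀ D : ℝ, 0 ≤ D → D ≤ D * x ^ 2 := fun D hD =>
    le_mul_of_one_le_right hD (by nlinarith)
  have hK0 : (0 : ℝ) < (m : ℝ) + 1 := by positivity
  have hK1 : (1 : ℝ) ≤ (m : ℝ) + 1 := by linarith [Nat.cast_nonneg (α := ℝ) m]
  have hCx : 2 ≤ C1 * x := by nlinarith
  have hb0 : 0 < 2 * j - 1 + e := by linarith
  have k1 : (j : ℝ) * (2 * j + 3) ≤ (m : ℝ) + 1 := (sq0 _ (by positivity)).trans g1
  have k2 : (2 * j + 3) * x ≤ (m : ℝ) + 1 := by
    refine le_trans ?_ ((sq1 _ (by positivity)).trans g1)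
    have : 0 ≤ (2 * j + 3) * x := by positivity
    nlinarith
  have k3 : 2 * j * C1 * x ≤ (m : ℝ) + 1 := (sq1 _ (by positivity)).trans g2
  have k4 := (sq0 _ (by positivity)).trans g4
  have k5 : 2 * (2 * j - 1 + e) / e * (C1 * x) ≤ (m : ℝ) + 1 := by
    rw [← mul_assoc]
    exact (sq1 _ (by positivity)).trans g5
  have k6 : 2 / (C - C1) ≤ (m : ℝ) + 1 :=
    (sq0 _ (div_nonneg (by norm_num) (by linarith))).trans g6
  have k7 : (j : ℝ) ≤ (m : ℝ) + 1 := (le_mul_of_one_le_right (by linarith) (by linarith)).trans k1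
  have hmK : (m : ℝ) ≤ (m : ℝ) + 1 := by linarith
  have hKj : (m : ℝ) + 1 ≤ ((m : ℝ) + 1) ^ j := le_self_pow₀ hK1 (by omega)
  have hKj' : ((m : ℝ) + 1) ^ j = ((m : ℝ) + 1) ^ (j - 1) * ((m : ℝ) + 1) := by
    rw [← pow_succ]; congr 1; omega
  set l := ⌈((m : ℝ) + 1) ^ j / (C1 * x)⌉₊ with hl
  set r := ⌊((m : ℝ) + 1) / ((2 * j + 3) * x)⌋₊ with hr
  have hL1 : 1 ≤ ((m : ℝ) + 1) ^ j / (C1 * x) := by
    rw [le_div_iff₀ (by linarith)]
    have h5 : 1 * (C1 * x) ≤ 2 * j * (C1 * x) :=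
      mul_le_mul_of_nonneg_right (by linarith) (by linarith)
    linarith
  have l1 : ((m : ℝ) + 1) ^ j / (C1 * x) ≤ l := Nat.le_ceil _
  have l2 : (l : ℝ) ≤ ((m : ℝ) + 1) ^ j / (C1 * x) + 1 := (Nat.ceil_lt_add_one (by linarith)).le
  have l3 : (1 : ℝ) ≤ l := hL1.trans l1
  have l4 : 1 ≤ l := by exact_mod_cast l3
  have hjx : 0 < (2 * j + 3) * x := by positivity
  have hR1 : 1 ≤ ((m : ℝ) + 1) / ((2 * j + 3) * x) := by rw [le_div_iff₀ hjx]; linarith
  have r1 : 1 ≤ r := Nat.le_floor (by exact_mod_cast hR1)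
  have r2 : (1 : ℝ) ≤ r := by exact_mod_cast r1
  have r3 : (r : ℝ) ≤ ((m : ℝ) + 1) / ((2 * j + 3) * x) := Nat.floor_le (by linarith)
  have r4 : ((m : ℝ) + 1) / ((2 * j + 3) * x) < r + 1 := Nat.lt_floor_add_one _
  have r5 : (r : ℝ) * ((2 * j + 3) * x) ≤ (m : ℝ) + 1 := (le_div_iff₀ hjx).1 r3
  have r6 : (r : ℝ) ≤ (m : ℝ) + 1 := by
    refine le_trans (le_mul_of_one_le_right (by linarith) ?_) r5
    exact one_le_mul_of_one_le_of_one_le (by linarith) (by linarith)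
  have r7 : 1 / (r : ℝ) ≤ 2 * ((2 * j + 3) * x) / ((m : ℝ) + 1) := by
    rw [div_lt_iff₀ hjx] at r4
    rw [div_le_div_iff₀ (by linarith) hK0]
    have h5 : ((r : ℝ) + 1) * ((2 * j + 3) * x) ≤ (r + r) * ((2 * j + 3) * x) :=
      mul_le_mul_of_nonneg_right (by linarith) hjx.le
    linarith
  have t3 := upa_three hx hx0.le r1 r5 r6 k1
  have t2 := upa_choose hj hx0 (by linarith) he ha l4 l2 k4 k5 k7
  clear_value l r
  generalize (m.choose j : ℝ) = y at *
  have hm0 : (0 : ℝ) ≤ m := Nat.cast_nonneg m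
  set K : ℝ := (m : ℝ) + 1 with hK
  have hP : 0 < K ^ j := by positivity
  have t1 : 1 / (l : ℝ) ≤ C1 * x / K ^ j := by
    rw [div_le_iff₀ (by linarith)] at l1
    rw [div_le_div_iff₀ (by linarith) hP]
    linarith
  have b1 : j * K ^ (j - 1) / l ≤ j * C1 * x / K := by
    calc j * K ^ (j - 1) / l = j * K ^ (j - 1) * (1 / l) := by ring
      _ ≤ j * K ^ (j - 1) * (C1 * x / K ^ j) := by gcongr
      _ = _ := by rw [hKj']; field_simp
  refine ⟨l, r, j * K ^ (j - 1) / l, l4, r1, le_of_eq (by field_simp), ?_, ?_⟩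
  · refine b1.trans ?_
    rw [div_le_iff₀ hK0]
    linarith
  · have b0 : 0 ≤ j * K ^ (j - 1) / l := by positivity
    generalize j * K ^ (j - 1) / l = β at *
    have b2 : 6 * m * β ^ 2 ≤ 1 := by
      calc 6 * m * β ^ 2 ≤ 6 * K * (j * C1 * x / K) ^ 2 := by gcongr
        _ = 6 * j ^ 2 * C1 ^ 2 * x ^ 2 / K := by field_simp
        _ ≤ 1 := (div_le_one hK0).2 g3
    have e1 : Real.exp (-(y / l) + 6 * m * β ^ 2)
        ≤ Real.exp 1 * Real.exp (-(e * x)) * (K / K ^ j / K ^ j) := by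
      have h5 : K / K ^ j / K ^ j = Real.exp (x - j * x - j * x) := by
        rw [Real.exp_sub, Real.exp_sub, Real.exp_nat_mul, hx]
      rw [h5, ← Real.exp_add, ← Real.exp_add, Real.exp_le_exp]
      linarith
    have l5 : (l : ℝ) ≤ K ^ j := by
      have h5 : K ^ j / (C1 * x) ≤ K ^ j / 2 := by gcongr
      linarith
    have e2 : (l : ℝ) / r * ((1 + K ^ j / l) * Real.exp (-(y / l) + 6 * m * β ^ 2))
        ≤ (C - C1) / 2 * x / K ^ j := by
      calc (l : ℝ) / r * ((1 + K ^ j / l) * Real.exp (-(y / l) + 6 * m * β ^ 2))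
          = (l + K ^ j) * (1 / r) * Real.exp (-(y / l) + 6 * m * β ^ 2) := by field_simp
        _ ≤ (K ^ j + K ^ j) * (2 * ((2 * j + 3) * x) / K)
            * (Real.exp 1 * Real.exp (-(e * x)) * (K / K ^ j / K ^ j)) := by gcongr
        _ = 4 * (2 * j + 3) * Real.exp 1 * Real.exp (-(e * x)) * x / K ^ j := by
            field_simp
            ring
        _ ≤ _ := by gcongr
    have e3 : 1 / K / K ^ j ≤ (C - C1) / 2 * x / K ^ j := by
      have h5 : 1 / K ≤ (C - C1) / 2 := by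
        rw [div_le_iff₀ (by linarith)] at k6
        rw [div_le_iff₀ hK0]
        linarith
      have h6 : (C - C1) / 2 ≤ (C - C1) / 2 * x := le_mul_of_one_le_right hd.le (by linarith)
      exact div_le_div_of_nonneg_right (h5.trans h6) hP.le
    have e4 : C * x / K ^ j = C1 * x / K ^ j + (C - C1) / 2 * x / K ^ j
        + (C - C1) / 2 * x / K ^ j := by ring
    rw [e4]
    exact add_le_add (add_le_add t1 e2) (t3.trans e3)

end Pool.Agent.P.MP_7badbe_co

end
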