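import Pool.Agent.P.MP_7badbe_co.Sp.A

set_option autoImplicit false
set_option linter.unusedSectionVars false

section


open Finset Filter Topology
open scoped BigOperators

namespace Pool.Agent.P.MP_7badbe_co

variable {V : Type} [Fintype V] [Nonempty V]

variable {A : Type} [AddCommGroup A] [Fintype A]

lemma miss_mem {s : ℕ} {T : Multiset A} {a : A} :
    a ∈ sums s T ↔ ∃ J ≤ T, J.card = s ∧ J.sum = a := by
  simp [sums]

lemma miss_mono {s : ℕ} {T T' : Multiset A} (h : T ≤ T') : sums s T ⊆ sums s T' := fun _ ha => by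
  obtain ⟨J, hJ, hc⟩ := miss_mem.1 ha
  exact miss_mem.2 ⟨J, hJ.trans h, hc⟩

lemma miss_add {s : ℕ} {T : Multiset A} {u x : A} (h : u - x ∈ sums s T) :
    u ∈ sums (s + 1) (x ::ₘ T) := by
  obtain ⟨J, hJ, hc, hs⟩ := miss_mem.1 h
  exact miss_mem.2 ⟨x ::ₘ J, Multiset.cons_le_cons _ hJ, by simp [hc], by simp [hs]⟩

lemma miss_card (s : ℕ) (T : Multiset A) : (sums s T).card ≤ T.card ^ s := by
  classical
  induction s with
  | zero =>
    refine (card_le_card (t := {0}) fun a ha => ?_).trans (by simp)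
    obtain ⟨J, -, hc, hs⟩ := miss_mem.1 ha
    rw [Multiset.card_eq_zero.1 hc] at hs
    simp [← hs]
  | succ s ih =>
    refine (card_le_card (t := T.toFinset.biUnion fun t =>
      (sums s T).map (Equiv.addRight t).toEmbedding) fun a ha => ?_).trans ?_
    · obtain ⟨J, hJ, hc, hs⟩ := miss_mem.1 ha
      obtain ⟨t, ht⟩ := Multiset.card_pos_iff_exists_mem.1 (show 0 < J.card by omega)
      obtain ⟨J', rfl⟩ := Multiset.exists_cons_of_mem ht
      refine mem_biUnion.2 ⟨t, Multiset.mem_toFinset.2 (Multiset.mem_of_le hJ ht),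
        mem_map.2 ⟨J'.sum, miss_mem.2 ⟨J', (Multiset.le_cons_self _ _).trans hJ,
          by simpa using hc, rfl⟩, ?_⟩⟩
      simp [← hs, add_comm]
    · refine (card_biUnion_le_card_mul _ _ (T.card ^ s) fun t _ => by rwa [card_map]).trans ?_
      rw [pow_succ']
      exact Nat.mul_le_mul_right _ (Multiset.toFinset_card_le _)

omit [Fintype A] in
lemma miss_coll (U B : Finset A) (x : A) :
    ∑ u ∈ U, ind (u - x ∈ B) ≤ B.card ∧ ∀ C : Finset A, U ⊆ C → (∀ u, u - x ∈ B → u ∈ C) →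
      (U.card : ℝ) + B.card - ∑ u ∈ U, ind (u - x ∈ B) ≤ C.card := by
  classical
  set tr := B.map (Equiv.addRight x).toEmbedding with htr
  have hmem : ∀ a, a ∈ tr ↔ a - x ∈ B := fun a => by
    simp [htr, mem_map_equiv, sub_eq_add_neg]
  have hcard : tr.card = B.card := card_map _
  have h3 : ∑ u ∈ U, ind (u - x ∈ B) = (U ∩ tr).card := by
    rw [← filter_mem_eq_inter, card_filter]
    push_cast
    exact sum_congr rfl (fun u _ => by simp [ind, hmem])
  rw [h3, ← hcard]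
  refine ⟨by exact_mod_cast card_le_card inter_subset_right, fun C h1 h2 => ?_⟩
  have h4 := card_union_add_card_inter U tr
  have h5 := card_le_card (union_subset h1 fun u hu => h2 u ((hmem u).1 hu))
  have h6 : U.card + tr.card ≤ C.card + (U ∩ tr).card := by omega
  have h7 : (U.card : ℝ) + tr.card ≤ C.card + (U ∩ tr).card := by exact_mod_cast h6
  linarith

/-- the potential -/
noncomputable def missP (r n : ℕ) (T : Multiset A) : ℝ :=
  ∑ s ∈ range (r + 1), ((sums s T).card : ℝ) * n.choose (r + 1 - s)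

/-- the collision term -/
noncomputable def missY (r n : ℕ) (T : Multiset A) (x : A) : ℝ :=
  ∑ s ∈ range r, (∑ u ∈ sums (s + 1) T, ind (u - x ∈ sums s T)) * n.choose (r - s)

lemma miss_step (r n : ℕ) (T : Multiset A) (x : A) :
    missP r (n + 1) T - (sums r T).card - missY r n T x ≤ missP r n (x ::ₘ T) := by
  have h1 : missP r (n + 1) T = ∑ s ∈ range (r + 1), ((sums s T).card : ℝ) * n.choose (r - s)
      + missP r n T := by
    rw [missP, missP, ← sum_add_distrib]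
    refine sum_congr rfl fun s hs => ?_
    have : r + 1 - s = r - s + 1 := by have := mem_range.1 hs; omega
    rw [this, Nat.choose_succ_succ']
    push_cast
    ring
  rw [h1, sum_range_succ, missP, missP, missY, sum_range_succ', sum_range_succ']
  simp only [Nat.add_sub_add_right, Nat.sub_self, Nat.choose_zero_right, Nat.cast_one, mul_one]
  have h2 : ((sums 0 T).card : ℝ) * n.choose (r + 1 - 0)
      ≤ (sums 0 (x ::ₘ T)).card * n.choose (r + 1 - 0) := by
    gcongr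
    exact miss_mono (Multiset.le_cons_self _ _)
  have h3 := sum_le_sum (s := range r) fun s _ => mul_le_mul_of_nonneg_right
    ((miss_coll (sums (s + 1) T) (sums s T) x).2 (sums (s + 1) (x ::ₘ T))
      (miss_mono (Multiset.le_cons_self _ _)) fun u => miss_add) (Nat.cast_nonneg (n.choose (r - s)))
  simp only [sub_mul, add_mul, sum_sub_distrib, sum_add_distrib] at h3
  linarith

lemma miss_bd {r m n : ℕ} {T : Multiset A} (h : T.card + n ≤ m) {c : ℝ}
    (hc : (r + 1 : ℕ) * ((m : ℝ) + 1) ^ r ≤ c) :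
    (∀ s ≤ r, ((sums s T).card : ℝ) ≤ c) ∧
      ∑ s ∈ range r, ((sums s T).card : ℝ) * n.choose (r - s) ≤ c := by
  have h0 : (1 : ℝ) ≤ (m : ℝ) + 1 := by simp
  have h1 : ∀ s, ((sums s T).card : ℝ) ≤ ((m : ℝ) + 1) ^ s := fun s => by
    exact_mod_cast (miss_card s T).trans (Nat.pow_le_pow_left (by omega) _)
  have h2 : (0 : ℝ) ≤ ((m : ℝ) + 1) ^ r := by positivity
  push_cast at hc
  refine ⟨fun s hs => (h1 s).trans ((pow_le_pow_right₀ h0 hs).trans ?_), ?_⟩
  · nlinarith [mul_nonneg (Nat.cast_nonneg (α := ℝ) r) h2]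
  · refine (sum_le_card_nsmul _ _ (((m : ℝ) + 1) ^ r) fun s hs => ?_).trans ?_
    · have h3 : (n.choose (r - s) : ℝ) ≤ ((m : ℝ) + 1) ^ (r - s) := by
        exact_mod_cast (Nat.choose_le_pow _ _).trans (Nat.pow_le_pow_left (by omega) _)
      rw [← Nat.add_sub_cancel' (mem_range.1 hs).le, pow_add, Nat.add_sub_cancel_left]
      exact mul_le_mul (h1 s) h3 (by positivity) (by positivity)
    · rw [card_range, nsmul_eq_mul]
      linarith

lemma miss_main {r m : ℕ} {β : ℝ}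
    (hβ : (r + 1 : ℕ) * ((m : ℝ) + 1) ^ r ≤ β * Fintype.card A) (hβ2 : β ≤ 1 / 2) (a : A)
    (n : ℕ) : ∀ T : Multiset A, T.card + n ≤ m →
    Ex n (fun W => ind (a ∉ sums (r + 1) (T + W)))
      ≤ Real.exp (-(missP r n T / Fintype.card A) + 6 * n * β ^ 2) := by
  have hN : (0 : ℝ) < Fintype.card A := by exact_mod_cast Fintype.card_pos
  set N : ℝ := ((Fintype.card A : ℕ) : ℝ) with hNN
  induction n with
  | zero =>
    intro T _
    have : missP r 0 T = 0 := sum_eq_zero fun s hs => by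
      rw [Nat.choose_eq_zero_of_lt (by have := mem_range.1 hs; omega)]
      simp
    simpa [this] using ind_le_one _
  | succ n ih =>
    intro T hT
    obtain ⟨b1, b2⟩ := miss_bd (n := n) (T := T) (by omega) hβ
    set K := Real.exp (-(missP r (n + 1) T / N) + 6 * n * β ^ 2 + (sums r T).card / N) with hK
    have hy0 : ∀ x, 0 ≤ missY r n T x := fun x => sum_nonneg fun s _ =>
      mul_nonneg (sum_nonneg fun _ _ => ind_nonneg _) (Nat.cast_nonneg _)
    have hy1 : ∀ x, missY r n T x / N ≤ 1 := fun x => by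
      have : missY r n T x ≤ β * N := (sum_le_sum fun s _ => mul_le_mul_of_nonneg_right
        (miss_coll _ _ x).1 (Nat.cast_nonneg _)).trans b2
      rw [div_le_one hN]
      nlinarith
    have h1 : Ex (n + 1) (fun W => ind (a ∉ sums (r + 1) (T + W)))
        ≤ 𝔼 x, K * (1 - ind (a - x ∈ sums r T) + 2 / N * missY r n T x) := by
      refine expect_le_expect fun x _ => ?_
      have hy : 0 ≤ 2 / N * missY r n T x := mul_nonneg (by positivity) (hy0 x)
      simp only [Multiset.add_cons, ← Multiset.cons_add]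
      by_cases hx : a - x ∈ sums r T
      · rw [ind_pos hx]
        refine Ex_le fun W _ => ?_
        rw [ind_neg (not_not.2 (miss_mono (Multiset.le_add_right _ _) (miss_add hx)))]
        exact mul_nonneg (Real.exp_pos _).le (by linarith)
      · rw [ind_neg hx]
        refine (ih (x ::ₘ T) (by simp only [Multiset.card_cons]; omega)).trans ?_
        have h2 := div_le_div_of_nonneg_right (miss_step r n T x) hN.le
        have h3 := Real.abs_exp_sub_one_le (x := missY r n T x / N)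
          (by rw [abs_of_nonneg (div_nonneg (hy0 x) hN.le)]; exact hy1 x)
        rw [abs_of_nonneg (div_nonneg (hy0 x) hN.le)] at h3
        have h4 : Real.exp (missY r n T x / N) ≤ 1 - 0 + 2 / N * missY r n T x := by
          have := (abs_le.1 h3).2
          rw [show 2 / N * missY r n T x = 2 * (missY r n T x / N) by ring]
          linarith
        refine le_trans ?_ (mul_le_mul_of_nonneg_left h4 (Real.exp_pos _).le)
        rw [← Real.exp_add, Real.exp_le_exp]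
        simp only [sub_div] at h2
        linarith
    refine h1.trans ?_
    have hβ0 : 0 ≤ β * N := (Nat.cast_nonneg _).trans (b1 0 (Nat.zero_le _))
    have h5 : 𝔼 x, missY r n T x ≤ β * (β * N) := by
      simp only [missY, expect_sum_comm, ← expect_mul, av_mem, sum_const, nsmul_eq_mul]
      refine le_trans (sum_le_sum fun s hs => ?_) ((mul_sum _ _ β).ge.trans
        (mul_le_mul_of_nonneg_left b2 (nonneg_of_mul_nonneg_left hβ0 hN)))
      rw [← hNN, ← mul_assoc, mul_div_left_comm, mul_comm _ (_ / N)]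
      gcongr
      rw [div_le_iff₀ hN]
      exact b1 _ (mem_range.1 hs)
    simp only [← mul_expect, expect_add_distrib, expect_sub_distrib, expect_const univ_nonempty,
      av_mem]
    rw [← hNN]
    set b := ((sums r T).card : ℝ) / N with hb
    have h6 : b ≤ 1 := by
      rw [hb, div_le_one hN, hNN]
      exact_mod_cast card_le_univ _
    have h7 : 2 / N * 𝔼 x, missY r n T x ≤ 2 * β ^ 2 :=
      (mul_le_mul_of_nonneg_left h5 (by positivity)).trans (le_of_eq (by field_simp))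
    have h8 : Real.exp b * (1 - b) ≤ 1 := by
      have := mul_le_mul_of_nonneg_left (Real.one_sub_le_exp_neg b) (Real.exp_pos b).le
      rwa [← Real.exp_add, add_neg_cancel, Real.exp_zero] at this
    have h9 : Real.exp b ≤ 3 := (Real.exp_le_exp.2 h6).trans (by linarith [Real.exp_one_lt_d9])
    have h10 : Real.exp b * (1 - b + 2 / N * 𝔼 x, missY r n T x) ≤ Real.exp (6 * β ^ 2) := by
      have := Real.add_one_le_exp (6 * β ^ 2)
      nlinarith [Real.exp_pos b, mul_le_mul_of_nonneg_left h7 (Real.exp_pos b).le, sq_nonneg β]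
    rw [hK, Real.exp_add, mul_assoc]
    refine (mul_le_mul_of_nonneg_left h10 (Real.exp_pos _).le).trans (le_of_eq ?_)
    rw [← Real.exp_add]
    push_cast
    ring_nf

/-- sharp bound for the probability that a residue is not a sum of `j` of `m` random points -/
theorem miss_sharp {j : ℕ} (hj : 1 ≤ j) (m : ℕ) {β : ℝ}
    (hβ : j * ((m : ℝ) + 1) ^ (j - 1) ≤ β * Fintype.card A) (hβ2 : β ≤ 1 / 2) (a : A) :
    Ex m (fun T : Multiset A => ind (a ∉ sums j T))
      ≤ Real.exp (-((m.choose j : ℝ) / Fintype.card A) + 6 * m * β ^ 2) := by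
  obtain ⟨r, rfl⟩ : ∃ r, j = r + 1 := ⟨j - 1, by omega⟩
  have h := miss_main hβ hβ2 a m 0 (by simp)
  simp only [zero_add] at h
  refine h.trans (Real.exp_le_exp.2 ?_)
  have h1 : (1 : ℝ) ≤ (sums 0 (0 : Multiset A)).card := by
    exact_mod_cast card_pos.2 ⟨0, miss_mem.2 ⟨0, le_rfl, rfl, rfl⟩⟩
  have h2 : (m.choose (r + 1) : ℝ) ≤ missP r m (0 : Multiset A) :=
    le_trans (le_mul_of_one_le_left (Nat.cast_nonneg _) h1) (single_le_sum
      (f := fun s => ((sums s (0 : Multiset A)).card : ℝ) * m.choose (r + 1 - s))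
      (fun _ _ => by positivity) (mem_range.2 (Nat.succ_pos r)))
  have := div_le_div_of_nonneg_right h2 (Nat.cast_nonneg (α := ℝ) (Fintype.card A))
  linarith

end Pool.Agent.P.MP_7badbe_co

end

section


open Finset Filter Topology
open scoped BigOperators

namespace Pool.Agent.P.MP_7badbe_co

variable {V : Type} [Fintype V] [Nonempty V]

variable {A B : Type} [AddCommGroup A] [Fintype A] [AddCommGroup B] [Fintype B]

omit [AddCommGroup A] [AddCommGroup B] in
lemma up_prod (m : ℕ) (F : Multiset A → ℝ) (G : Multiset B → ℝ) :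
    Ex m (fun M : Multiset (A × B) => F (M.map Prod.fst) * G (M.map Prod.snd))
      = Ex m F * Ex m G := by
  induction m generalizing F G with
  | zero => simp
  | succ m ih =>
    have h1 : ∀ v : A × B, Ex m (fun M : Multiset (A × B) =>
        F ((v ::ₘ M).map Prod.fst) * G ((v ::ₘ M).map Prod.snd))
        = Ex m (fun M => F (v.1 ::ₘ M)) * Ex m (fun M => G (v.2 ::ₘ M)) := by
      intro v
      simp only [Multiset.map_cons]
      exact ih (fun M => F (v.1 ::ₘ M)) (fun M => G (v.2 ::ₘ M))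
    rw [Ex_succ, Ex_succ, Ex_succ]
    simp only [h1]
    rw [← univ_product_univ, expect_product, expect_mul_expect]

lemma up_card (r : ℕ) (T : Multiset A) : (sums r T).card ≤ T.card ^ r := by
  classical
  have h1 : sums r T ⊆ ((T.powersetCard r).map Multiset.sum).toFinset := by
    intro a ha
    simp only [sums, mem_filter, mem_univ, true_and] at ha
    obtain ⟨J, hJ, hc, hs⟩ := ha
    exact Multiset.mem_toFinset.2
      (Multiset.mem_map.2 ⟨J, Multiset.mem_powersetCard.2 ⟨hJ, hc⟩, hs⟩)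
  refine (card_le_card h1).trans ((Multiset.toFinset_card_le _).trans ?_)
  rw [Multiset.card_map, Multiset.card_powersetCard]
  exact Nat.choose_le_pow _ _

lemma up_point (r : ℕ) (M : Multiset A) :
    ind (∃ s T, M = s ::ₘ T ∧ ∃ a, a ∉ sums (r + 1) T)
      ≤ ∑ a : A, (ind (a ∉ sums (r + 1) M)
        + splitSum 1 (fun I T => ind (a ∉ sums (r + 1) T) * ind (a - I.sum ∈ sums r T)) M) := by
  classical
  have h0 : ∀ (a : A) (I T : Multiset A),
      0 ≤ (fun I T => ind (a ∉ sums (r + 1) T) * ind (a - I.sum ∈ sums r T)) I T :=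
    fun a I T => mul_nonneg (ind_nonneg _) (ind_nonneg _)
  have h1 : ∀ a : A, 0 ≤ ind (a ∉ sums (r + 1) M)
      + splitSum 1 (fun I T => ind (a ∉ sums (r + 1) T) * ind (a - I.sum ∈ sums r T)) M :=
    fun a => add_nonneg (ind_nonneg _) (splitSum_nonneg (h0 a) M)
  by_cases hM : ∃ s T, M = s ::ₘ T ∧ ∃ a, a ∉ sums (r + 1) T
  · rw [ind_pos hM]
    obtain ⟨s, T, rfl, a, ha⟩ := hM
    refine le_trans ?_ (single_le_sum (fun a _ => h1 a) (mem_univ a))
    by_cases hb : a ∈ sums (r + 1) (s ::ₘ T)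
    · have h3 := le_splitSum (r := 1) (h0 a) {s} T rfl
      rw [Multiset.singleton_add] at h3
      have h4 : a - ({s} : Multiset A).sum ∈ sums r T := by
        simp only [sums, mem_filter, mem_univ, true_and] at ha hb ⊢
        obtain ⟨J, hJ, hc, hs⟩ := hb
        by_cases hsJ : s ∈ J
        · obtain ⟨J', rfl⟩ := Multiset.exists_cons_of_mem hsJ
          refine ⟨J', (Multiset.cons_le_cons_iff s).1 hJ, by simpa using hc, ?_⟩
          rw [← hs]; simp
        · exact absurd ⟨J, (Multiset.le_cons_of_notMem hsJ).1 hJ, hc, hs⟩ ha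
      simp only [ind_pos ha, ind_pos h4, mul_one] at h3
      linarith [ind_nonneg (a ∉ sums (r + 1) (s ::ₘ T))]
    · rw [ind_pos hb]
      linarith [splitSum_nonneg (r := 1) (h0 a) (s ::ₘ T)]
  · rw [ind_neg hM]
    exact sum_nonneg (fun a _ => h1 a)

lemma up_def (r m : ℕ) {η : ℝ}
    (h : ∀ a : A, Ex m (fun T : Multiset A => ind (a ∉ sums (r + 1) T)) ≤ η) :
    Ex (m + 1) (fun M : Multiset A => ind (∃ s T, M = s ::ₘ T ∧ ∃ a, a ∉ sums (r + 1) T))
      ≤ Fintype.card A * ((1 + ((m : ℝ) + 1) ^ (r + 1) / Fintype.card A) * η) := by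
  have hA : (0 : ℝ) < Fintype.card A := by exact_mod_cast Fintype.card_pos
  refine (Ex_mono (fun M _ => up_point r M)).trans ?_
  rw [Ex_sum]
  refine (sum_le_sum (g := fun _ => (1 + ((m : ℝ) + 1) ^ (r + 1) / Fintype.card A) * η)
    (fun a _ => ?_)).trans (by simp)
  rw [Ex_add, Ex_splitSum, Nat.choose_one_right, Nat.add_sub_cancel]
  have h1 : Ex (m + 1) (fun M : Multiset A => ind (a ∉ sums (r + 1) M)) ≤ η := by
    rw [Ex_succ]
    refine expect_le univ_nonempty (fun s _ => le_trans (Ex_mono (fun T _ => ?_)) (h a))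
    refine ind_mono (fun h1 h2 => h1 ?_)
    simp only [sums, mem_filter, mem_univ, true_and] at h2 ⊢
    obtain ⟨J, hJ, hc⟩ := h2
    exact ⟨J, hJ.trans (Multiset.le_cons_self _ _), hc⟩
  have h2 : Ex 1 (fun I : Multiset A => Ex m (fun T =>
      ind (a ∉ sums (r + 1) T) * ind (a - I.sum ∈ sums r T)))
      ≤ ((m : ℝ) + 1) ^ r / Fintype.card A * η := by
    rw [Ex_comm]
    refine le_trans (Ex_mono (G := fun T => ((m : ℝ) + 1) ^ r / Fintype.card A
      * ind (a ∉ sums (r + 1) T)) (fun T hT => ?_)) ?_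
    · rw [Ex_mul, mul_comm]
      refine mul_le_mul_of_nonneg_right ?_ (ind_nonneg _)
      have h3 : Ex 1 (fun I : Multiset A => ind (a - I.sum ∈ sums r T))
          = 𝔼 t, ind (a - t ∈ sums r T) := by
        rw [Ex_succ]; simp
      rw [h3, av_mem]
      refine div_le_div_of_nonneg_right ?_ hA.le
      have h4 : ((sums r T).card : ℝ) ≤ (m : ℝ) ^ r := by
        rw [← hT]; exact_mod_cast up_card r T
      exact h4.trans (pow_le_pow_left₀ (by positivity) (by linarith) _)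
    · rw [Ex_mul]
      exact mul_le_mul_of_nonneg_left (h a) (by positivity)
  have h3 := mul_le_mul_of_nonneg_left h2 (show (0 : ℝ) ≤ ((m + 1 : ℕ) : ℝ) by positivity)
  have h4 : ((m + 1 : ℕ) : ℝ) * (((m : ℝ) + 1) ^ r / Fintype.card A * η)
      = ((m : ℝ) + 1) ^ (r + 1) / Fintype.card A * η := by
    push_cast; ring
  rw [h4] at h3
  linarith

lemma up_third (i j m : ℕ) (him : i + j = m + 1) :
    Ex (m + 1) (fun M : Multiset (A × B) =>
        ind (∃ J R, M = J + R ∧ J.card = j ∧ ∃ c : B, ∀ t ∈ R, t.2 ≠ c))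
      ≤ Fintype.card B * (((m : ℝ) + 1) ^ j * (1 - 1 / (Fintype.card B : ℝ)) ^ i) := by
  have hB : (1 : ℝ) ≤ Fintype.card B := by exact_mod_cast Fintype.card_pos
  have h0 : ∀ (c : B) (J R : Multiset (A × B)),
      0 ≤ (fun _ R => ind (∀ t ∈ R, t.2 ≠ c)) J R := fun _ _ _ => ind_nonneg _
  have h1 : ∀ M : Multiset (A × B),
      ind (∃ J R, M = J + R ∧ J.card = j ∧ ∃ c : B, ∀ t ∈ R, t.2 ≠ c)
        ≤ ∑ c : B, splitSum j (fun _ R => ind (∀ t ∈ R, t.2 ≠ c)) M := by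
    intro M
    by_cases hM : ∃ J R, M = J + R ∧ J.card = j ∧ ∃ c : B, ∀ t ∈ R, t.2 ≠ c
    · rw [ind_pos hM]
      obtain ⟨J, R, rfl, hJ, c, hc⟩ := hM
      refine le_trans ?_ (single_le_sum (fun c _ => splitSum_nonneg (h0 c) _) (mem_univ c))
      have h3 := le_splitSum (h0 c) J R hJ
      rwa [ind_pos hc] at h3
    · rw [ind_neg hM]
      exact sum_nonneg (fun c _ => splitSum_nonneg (h0 c) _)
  refine (Ex_mono (fun M _ => h1 M)).trans ?_
  rw [Ex_sum]
  refine (sum_le_sum (g := fun _ => ((m : ℝ) + 1) ^ j * (1 - 1 / (Fintype.card B : ℝ)) ^ i)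
    (fun c _ => ?_)).trans (by simp)
  have h2 : 𝔼 v : A × B, ind (v.2 ≠ c) = 1 - 1 / (Fintype.card B : ℝ) := by
    have h3 := av_mem ({0} : Finset B) c
    simp only [card_singleton, Nat.cast_one] at h3
    rw [← univ_product_univ, expect_product, ← h3]
    simp only [expect_const univ_nonempty, ne_eq, ind_not, expect_sub_distrib]
    congr 1
    refine expect_congr rfl (fun v _ => ind_congr ?_)
    rw [mem_singleton, sub_eq_zero, eq_comm]
  rw [Ex_splitSum, Ex_const, Ex_all (m + 1 - j) (fun t : A × B => t.2 ≠ c), h2,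
    show m + 1 - j = i by omega]
  refine mul_le_mul_of_nonneg_right ?_ (pow_nonneg ?_ _)
  · exact_mod_cast Nat.choose_le_pow (m + 1) j
  · rw [sub_nonneg, div_le_one (by linarith)]; exact hB

/-- the two-hash construction -/
theorem two_hash {i j m : ℕ} (hj : 1 ≤ j) (hjm : j ≤ m) (him : i + j = m + 1) {η : ℝ}
    (h : ∀ a : A, Ex m (fun T : Multiset A => ind (a ∉ sums j T)) ≤ η) :
    ∃ γ : Multiset (A × B) → Prop, Hit i m γ ∧
      Ex (m + 1) (fun M => ind (γ M)) ≤ 1 / Fintype.card A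
        + (Fintype.card A : ℝ) / Fintype.card B
          * ((1 + ((m : ℝ) + 1) ^ j / Fintype.card A) * η)
        + Fintype.card B * (((m : ℝ) + 1) ^ j * (1 - 1 / (Fintype.card B : ℝ)) ^ i) := by
  obtain ⟨r, rfl⟩ : ∃ r, j = r + 1 := ⟨j - 1, by omega⟩
  refine ⟨fun M => (M.map Prod.fst).sum = 0 ∨
    ((∃ s T, M.map Prod.fst = s ::ₘ T ∧ ∃ a, a ∉ sums (r + 1) T) ∧ (M.map Prod.snd).sum = 0) ∨
    (∃ J R, M = J + R ∧ J.card = r + 1 ∧ ∃ c : B, ∀ t ∈ R, t.2 ≠ c), fun S T hS hT => ?_, ?_⟩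
  · by_cases hc : -(S.map Prod.fst).sum ∈ sums (r + 1) (T.map Prod.fst)
    · simp only [sums, mem_filter, mem_univ, true_and] at hc
      obtain ⟨J, hJ, hJc, hJs⟩ := hc
      obtain ⟨J', hJ', rfl⟩ := le_map_lift _ _ _ hJ
      rw [Multiset.card_map] at hJc
      exact Or.inl ⟨J', hJ', by omega, Or.inl (by simp [hJs])⟩
    · by_cases hd : ∃ s ∈ S, s.2 = -(T.map Prod.snd).sum
      · obtain ⟨s, hs, hs2⟩ := hd
        exact Or.inr ⟨s, hs, Or.inr (Or.inl ⟨⟨s.1, T.map Prod.fst, by simp, _, hc⟩,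
          by simp [hs2]⟩)⟩
      · push Not at hd
        have h1 : 0 < (T.powersetCard (r + 1)).card := by
          rw [Multiset.card_powersetCard]; exact Nat.choose_pos (by omega)
        obtain ⟨J, hJ⟩ := Multiset.card_pos_iff_exists_mem.1 h1
        obtain ⟨hJ1, hJ2⟩ := Multiset.mem_powersetCard.1 hJ
        exact Or.inl ⟨J, hJ1, by omega, Or.inr (Or.inr ⟨J, S, add_comm _ _, hJ2, _, hd⟩)⟩
  · have h1 := up_prod (B := B) (m + 1) (fun M : Multiset A => ind (M.sum = 0)) (fun _ => 1)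
    rw [Ex_const, Ex_sum_zero, mul_one] at h1
    have h2 := up_prod (m + 1)
      (fun M : Multiset A => ind (∃ s T, M = s ::ₘ T ∧ ∃ a, a ∉ sums (r + 1) T))
      (fun M : Multiset B => ind (M.sum = 0))
    rw [Ex_sum_zero] at h2
    have h3 := mul_le_mul_of_nonneg_right (up_def r m h)
      (show (0 : ℝ) ≤ 1 / Fintype.card B by positivity)
    have h4 := up_third (A := A) (B := B) i (r + 1) m him
    have h5 : ∀ P Q R W : Prop, ind (P ∨ (Q ∧ R) ∨ W) ≤ ind P * 1 + ind Q * ind R + ind W := by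
      intro P Q R W
      by_cases hP : P <;> by_cases hQ : Q <;> by_cases hR : R <;> by_cases hW : W <;>
        simp [ind, hP, hQ, hR, hW]
    refine (Ex_mono (fun M _ => h5 _ _ _ _)).trans ?_
    rw [Ex_add, Ex_add, h1, h2]
    have h6 : (Fintype.card A : ℝ) / Fintype.card B
        * ((1 + ((m : ℝ) + 1) ^ (r + 1) / Fintype.card A) * η)
        = Fintype.card A * ((1 + ((m : ℝ) + 1) ^ (r + 1) / Fintype.card A) * η)
          * (1 / Fintype.card B) := by ring
    linarith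

end Pool.Agent.P.MP_7badbe_co

end

section


open Finset Filter Topology
open scoped BigOperators

namespace Pool.Agent.P.MP_7badbe_co

variable {V : Type} [Fintype V] [Nonempty V]

variable {g : Multiset V → Prop} {z : ℕ} {d E κ σ : ℝ}

lemma av_nonneg {S : Multiset V} (hd : dd g S ≤ d) (hd1 : d < 1) (Z : Multiset V) :
    0 ≤ av g z S Z :=
  div_nonneg (ind_nonneg _) (pow_nonneg (by linarith) _)

lemma Ex_av {S : Multiset V} (hd : dd g S ≤ d) (hd1 : d < 1) : Ex z (av g z S) = 1 := by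
  have h : 0 < (1 - dd g S) ^ z := pow_pos (by linarith) _
  unfold av
  simp only [div_eq_mul_inv]
  rw [Ex_mul', Ex_all]
  simp only [ind_not, expect_sub_distrib, expect_const univ_nonempty]
  exact mul_inv_cancel₀ h.ne'

/-- common density of two links -/
noncomputable def oneA_c (g : Multiset V → Prop) (S S' : Multiset V) : ℝ :=
  𝔼 v, ind (g (v ::ₘ S)) * ind (g (v ::ₘ S'))

lemma oneA_c_nonneg (S S' : Multiset V) : 0 ≤ oneA_c g S S' :=
  expect_nonneg fun _ _ => mul_nonneg (ind_nonneg _) (ind_nonneg _)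

lemma oneA_c_le (S S' : Multiset V) : oneA_c g S S' ≤ dd g S :=
  expect_le_expect fun _ _ => mul_le_of_le_one_right (ind_nonneg _) (ind_le_one _)

lemma oneA_pair {S S' : Multiset V} (hd : dd g S ≤ d) (hd' : dd g S' ≤ d) (hd1 : d < 1) :
    Ex z (fun Z => av g z S Z * av g z S' Z) ≤ Real.exp (z * oneA_c g S S' / (1 - d) ^ 2) := by
  have h1 : 0 < 1 - dd g S := by linarith
  have h2 : 0 < 1 - dd g S' := by linarith
  have h3 : 0 < 1 - d := by linarith
  have h4 : 0 ≤ dd g S := expect_nonneg fun _ _ => ind_nonneg _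
  have h5 : 0 ≤ dd g S' := expect_nonneg fun _ _ => ind_nonneg _
  have hc := oneA_c_nonneg (g := g) S S'
  have e : (fun Z => av g z S Z * av g z S' Z) = fun Z : Multiset V =>
      ind (∀ v ∈ Z, ¬ g (v ::ₘ S) ∧ ¬ g (v ::ₘ S')) *
        (((1 - dd g S) * (1 - dd g S')) ^ z)⁻¹ := by
    funext Z
    unfold av
    rw [div_mul_div_comm, ← ind_and, ← mul_pow, div_eq_mul_inv]
    congr 1
    exact ind_congr ⟨fun h v hv => ⟨h.1 v hv, h.2 v hv⟩,
      fun h => ⟨fun v hv => (h v hv).1, fun v hv => (h v hv).2⟩⟩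
  have e2 : 𝔼 v, ind (¬ g (v ::ₘ S) ∧ ¬ g (v ::ₘ S')) =
      1 - dd g S - dd g S' + oneA_c g S S' := by
    unfold dd oneA_c
    rw [← expect_const (s := (univ : Finset V)) univ_nonempty (1 : ℝ), ← expect_sub_distrib,
      ← expect_sub_distrib, ← expect_add_distrib]
    refine expect_congr rfl fun v _ => ?_
    rw [ind_and, ind_not, ind_not]
    ring
  have h0 : 0 ≤ 1 - dd g S - dd g S' + oneA_c g S S' :=
    e2 ▸ expect_nonneg fun _ _ => ind_nonneg _
  rw [e, Ex_mul', Ex_all, e2, ← div_eq_mul_inv, ← div_pow, mul_div_assoc, Real.exp_nat_mul]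
  refine pow_le_pow_left₀ (div_nonneg h0 (by positivity)) (le_trans ?_ (Real.add_one_le_exp _)) _
  have h6 : oneA_c g S S' / ((1 - dd g S) * (1 - dd g S')) ≤ oneA_c g S S' / (1 - d) ^ 2 := by
    rw [sq]
    gcongr
  refine le_trans ?_ (add_le_add_left h6 1)
  rw [div_add_one (by positivity)]
  exact div_le_div_of_nonneg_right (by nlinarith [mul_nonneg h4 h5]) (by positivity)

lemma oneA_exp {c : ℝ} (hc : 0 ≤ c) (hcd : c ≤ d) (hd0 : 0 < d)
    (hE : Real.exp (z * d / (1 - d) ^ 2) ≤ E) :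
    Real.exp (z * c / (1 - d) ^ 2) ≤ 1 + E / d * c := by
  have ht : c / d ≤ 1 := (div_le_one hd0).2 hcd
  have ht0 : 0 ≤ c / d := by positivity
  have h := convexOn_exp.2 (Set.mem_univ 0) (Set.mem_univ (z * d / (1 - d) ^ 2))
    (sub_nonneg.2 ht) ht0 (by ring)
  simp only [smul_eq_mul, mul_zero, zero_add, Real.exp_zero, mul_one] at h
  rw [show c / d * (z * d / (1 - d) ^ 2) = z * c / (1 - d) ^ 2 by field_simp] at h
  have := mul_le_mul_of_nonneg_left hE ht0
  rw [show E / d * c = c / d * E by ring]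
  linarith

/-- double expectation -/
noncomputable def oneA_E (a b : ℕ) (F : Multiset V → Multiset V → ℝ) : ℝ :=
  Ex a (fun Y => Ex b (fun Y' => F Y Y'))

omit [Nonempty V] in
lemma oneA_mono (a b : ℕ) {F G : Multiset V → Multiset V → ℝ} (h : ∀ Y Y', F Y Y' ≤ G Y Y') :
    oneA_E a b F ≤ oneA_E a b G :=
  Ex_mono fun _ _ => Ex_mono fun _ _ => h _ _

omit [Nonempty V] in
lemma oneA_mul (a b : ℕ) (F G : Multiset V → Multiset V → ℝ) :
    oneA_E a b F * oneA_E a b G =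
      oneA_E a b fun Y Y' => oneA_E a b fun X X' => F Y Y' * G X X' := by
  simp only [oneA_E, Ex_mul, Ex_mul']

omit [Nonempty V] in
lemma oneA_Ex (a b : ℕ) (F : Multiset V → Multiset V → Multiset V → ℝ) :
    Ex z (fun Z => oneA_E a b (F Z)) = oneA_E a b fun Y Y' => Ex z fun Z => F Z Y Y' := by
  unfold oneA_E
  rw [Ex_comm]
  exact Ex_congr fun Y _ => Ex_comm _ _ _

omit [Nonempty V] in
lemma oneA_expect (a b : ℕ) (F : V → Multiset V → Multiset V → ℝ) :
    𝔼 v, oneA_E a b (F v) = oneA_E a b fun Y Y' => 𝔼 v, F v Y Y' := by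
  simp only [oneA_E, Ex_expect]

lemma oneA_mean (a b : ℕ) (W : Multiset V) (hW : fm g (a + b) W ≤ κ)
    (hσ : κ ^ 2 + κ / (a + b + 1) ≤ σ) :
    (oneA_E a b fun Y Y' => oneA_E a b fun X X' => oneA_c g (W + Y + Y') (W + X + X')) ≤ σ := by
  have h1 : Ex (a + b + 1) (fun M => ind (g (M + W))) ≤ κ := by
    rw [Ex_succ']
    refine le_trans (le_of_eq (Ex_congr fun R _ => ?_)) hW
    simp only [dd, Multiset.cons_add, add_comm W R]
  have h2 := hoeff_ind (a + b) (fun M => g (M + W)) h1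
  push_cast at h2
  refine le_trans (le_of_eq ?_) (h2.trans hσ)
  unfold oneA_c
  simp only [← oneA_expect, ← oneA_mul]
  refine expect_congr rfl fun v _ => ?_
  rw [sq, Ex_split]
  simp only [oneA_E, add_comm _ W, Multiset.add_cons, add_assoc]

/-- second moment of the averaged weight -/
theorem one_second (hd0 : 0 < d) (hd1 : d < 1) (hE : Real.exp (z * d / (1 - d) ^ 2) ≤ E)
    (a b : ℕ) (W : Multiset V) (hW : fm g (a + b) W ≤ κ) (hσ : κ ^ 2 + κ / (a + b + 1) ≤ σ)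
    (u : Multiset V → Multiset V → ℝ) (hu : ∀ Y Y', 0 ≤ u Y Y' ∧ u Y Y' ≤ 1)
    (hud : ∀ Y Y', u Y Y' ≠ 0 → dd g (W + Y + Y') ≤ d) :
    Ex z (fun Z => (Ex a (fun Y => Ex b (fun Y' => u Y Y' * av g z (W + Y + Y') Z))) ^ 2)
      ≤ (Ex a (fun Y => Ex b (fun Y' => u Y Y'))) ^ 2 + E / d * σ := by
  have hE0 : 0 ≤ E / d := div_nonneg ((Real.exp_pos _).le.trans hE) hd0.le
  change Ex z (fun Z => (oneA_E a b fun Y Y' => u Y Y' * av g z (W + Y + Y') Z) ^ 2) ≤
    (oneA_E a b u) ^ 2 + E / d * σ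
  simp only [sq, oneA_mul, oneA_Ex]
  calc _ ≤ oneA_E a b fun Y Y' => oneA_E a b fun X X' =>
        u Y Y' * u X X' + E / d * oneA_c g (W + Y + Y') (W + X + X') := by
        refine oneA_mono a b fun Y Y' => oneA_mono a b fun X X' => ?_
        have hc := oneA_c_nonneg (g := g) (W + Y + Y') (W + X + X')
        simp only [mul_mul_mul_comm (u Y Y') _ (u X X'), Ex_mul]
        by_cases h1 : u Y Y' = 0
        · rw [h1]; simp only [zero_mul, zero_add]; positivity
        by_cases h2 : u X X' = 0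
        · rw [h2]; simp only [mul_zero, zero_mul, zero_add]; positivity
        have h3 := (oneA_pair (z := z) (hud Y Y' h1) (hud X X' h2) hd1).trans
          (oneA_exp hc ((oneA_c_le _ _).trans (hud Y Y' h1)) hd0 hE)
        have h4 : 0 ≤ u Y Y' * u X X' := mul_nonneg (hu _ _).1 (hu _ _).1
        have h5 : u Y Y' * u X X' ≤ 1 := mul_le_one₀ (hu _ _).2 (hu _ _).1 (hu _ _).2
        nlinarith [mul_le_mul_of_nonneg_left h3 h4, mul_nonneg hE0 hc]
    _ = (oneA_E a b fun Y Y' => oneA_E a b fun X X' => u Y Y' * u X X') + E / d *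
        oneA_E a b fun Y Y' => oneA_E a b fun X X' => oneA_c g (W + Y + Y') (W + X + X') := by
        simp only [oneA_E, Ex_add, Ex_mul _ (E / d)]
    _ ≤ _ := by
        gcongr
        exact oneA_mean a b W hW hσ

/-- second moment of the planted probability that a point lies in the link -/
theorem one_point (hd0 : 0 < d) (hd1 : d < 1) (hE : Real.exp (z * d / (1 - d) ^ 2) ≤ E)
    (a b : ℕ) (W : Multiset V) (hW : fm g (a + b) W ≤ κ) (hσ : κ ^ 2 + κ / (a + b + 1) ≤ σ)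
    (u : Multiset V → Multiset V → ℝ) (hu : ∀ Y Y', 0 ≤ u Y Y' ∧ u Y Y' ≤ 1)
    (hud : ∀ Y Y', u Y Y' ≠ 0 → dd g (W + Y + Y') ≤ d) :
    Ex z (fun Z => 𝔼 v, (Ex a (fun Y => Ex b (fun Y' =>
        u Y Y' * av g z (W + Y + Y') Z * ind (g (v ::ₘ (W + Y + Y')))))) ^ 2) ≤ E * σ := by
  have hE0 : 0 ≤ E := (Real.exp_pos _).le.trans hE
  change Ex z (fun Z => 𝔼 v, (oneA_E a b fun Y Y' =>
    u Y Y' * av g z (W + Y + Y') Z * ind (g (v ::ₘ (W + Y + Y')))) ^ 2) ≤ E * σ
  simp only [sq, oneA_mul, oneA_expect, oneA_Ex]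
  calc _ ≤ oneA_E a b fun Y Y' => oneA_E a b fun X X' =>
        E * oneA_c g (W + Y + Y') (W + X + X') := by
        refine oneA_mono a b fun Y Y' => oneA_mono a b fun X X' => ?_
        have hc := oneA_c_nonneg (g := g) (W + Y + Y') (W + X + X')
        have e : ∀ Z, 𝔼 v, u Y Y' * av g z (W + Y + Y') Z * ind (g (v ::ₘ (W + Y + Y'))) *
            (u X X' * av g z (W + X + X') Z * ind (g (v ::ₘ (W + X + X')))) =
            u Y Y' * u X X' * oneA_c g (W + Y + Y') (W + X + X') *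
              (av g z (W + Y + Y') Z * av g z (W + X + X') Z) := by
          intro Z
          unfold oneA_c
          rw [mul_expect, expect_mul]
          exact expect_congr rfl fun v _ => by ring
        simp only [e, Ex_mul]
        by_cases h1 : u Y Y' = 0
        · rw [h1]; simp only [zero_mul]; positivity
        by_cases h2 : u X X' = 0
        · rw [h2]; simp only [mul_zero, zero_mul]; positivity
        have h3 : Ex z (fun Z => av g z (W + Y + Y') Z * av g z (W + X + X') Z) ≤ E := by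
          refine (oneA_pair (z := z) (hud Y Y' h1) (hud X X' h2) hd1).trans (le_trans ?_ hE)
          have := (oneA_c_le (g := g) _ (W + X + X')).trans (hud Y Y' h1)
          gcongr
        have h4 : 0 ≤ u Y Y' * u X X' := mul_nonneg (hu _ _).1 (hu _ _).1
        have h5 : u Y Y' * u X X' ≤ 1 := mul_le_one₀ (hu _ _).2 (hu _ _).1 (hu _ _).2
        nlinarith [mul_le_mul_of_nonneg_left h3 (mul_nonneg h4 hc), mul_nonneg hE0 hc]
    _ = E * oneA_E a b fun Y Y' => oneA_E a b fun X X' =>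
        oneA_c g (W + Y + Y') (W + X + X') := by
        simp only [oneA_E, Ex_mul]
    _ ≤ _ := by
        gcongr
        exact oneA_mean a b W hW hσ

end Pool.Agent.P.MP_7badbe_co

end

section


open Finset Filter Topology
open scoped BigOperators

namespace Pool.Agent.P.MP_7badbe_co

variable {V : Type} [Fintype V] [Nonempty V]

lemma ob_mapsum (r : ℕ) (F : Multiset V → ℝ) (h : V → ℝ) :
    Ex (r + 1) (fun Y => F Y * (Y.map h).sum)
      = (r + 1) * 𝔼 v, h v * Ex r (fun R => F (v ::ₘ R)) := by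
  classical
  have h1 : ∀ Y : Multiset V, F Y * (Y.map h).sum
      = splitSum 1 (fun I J => F (I + J) * (I.map h).sum) Y := by
    intro Y
    rw [splitSum_one, ← Multiset.sum_map_mul_left]
    refine congrArg _ (Multiset.map_congr rfl fun x hx => ?_)
    simp [Multiset.cons_erase hx]
  simp only [h1]
  rw [Ex_splitSum]
  simp only [Nat.choose_one_right, Nat.add_sub_cancel]
  push_cast
  congr 1
  rw [show (1 : ℕ) = 0 + 1 from rfl, Ex_succ]
  refine expect_congr rfl fun v _ => ?_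
  simp [Ex_mul']
  ring

/-- abstract part: two-sided second moment argument -/
lemma ob_abs {y z : ℕ} (w : Multiset V → Multiset V → Multiset V → Multiset V → ℝ)
    (N : Multiset V → Multiset V → Multiset V → V → ℝ)
    (hw0 : ∀ Z Y Y' Z', 0 ≤ w Z Y Y' Z') (hws : ∀ Z Y Y' Z', w Z Y Y' Z' = w Z Y' Y Z')
    (hhit : ∀ Z Z' Y₁ Y₂ X₁ X₂ : Multiset V, Z.card = z → Z'.card = z → Y₁.card = y → Y₂.card = y →
      X₁.card = y → X₂.card = y → w Z Y₁ Y₂ Z' * w Z' X₁ X₂ Z ≠ 0 →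
      1 ≤ (X₁.map (N Z Y₁ Y₂)).sum + (X₂.map (N Z Y₁ Y₂)).sum
        + (Y₁.map (N Z' X₁ X₂)).sum + (Y₂.map (N Z' X₁ X₂)).sum) :
    Ex z (fun Z => Ex z (fun Z' => Ex y (fun Y₁ => Ex y (fun Y₂ => w Z Y₁ Y₂ Z'))
        * Ex y (fun X₁ => Ex y (fun X₂ => w Z' X₁ X₂ Z))))
      ≤ 4 * Ex z (fun Z => Ex z (fun Z' => Ex y (fun X₁ => Ex y (fun X₂ => w Z' X₁ X₂ Z)
        * (X₁.map (fun v => Ex y (fun Y₁ => Ex y (fun Y₂ => w Z Y₁ Y₂ Z' * N Z Y₁ Y₂ v)))).sum))) := by
  set K : Multiset V → Multiset V → ℝ := fun Z Z' => Ex y (fun X₁ => Ex y (fun X₂ =>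
    Ex y (fun Y₁ => Ex y (fun Y₂ =>
      w Z Y₁ Y₂ Z' * w Z' X₁ X₂ Z * (X₁.map (N Z Y₁ Y₂)).sum)))) with hK
  have ms : ∀ (X : Multiset V) (f : Multiset V → Multiset V → V → ℝ),
      (X.map (fun v => Ex y (fun Y₁ => Ex y (fun Y₂ => f Y₁ Y₂ v)))).sum
        = Ex y (fun Y₁ => Ex y (fun Y₂ => (X.map (f Y₁ Y₂)).sum)) := by
    intro X f
    induction X using Multiset.induction_on with
    | empty => simp
    | cons a X ih => simp only [Multiset.map_cons, Multiset.sum_cons, ih, Ex_add]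
  have e1 : ∀ Z Z', Ex y (fun X₁ => Ex y (fun X₂ => w Z' X₁ X₂ Z)
      * (X₁.map (fun v => Ex y (fun Y₁ => Ex y (fun Y₂ => w Z Y₁ Y₂ Z' * N Z Y₁ Y₂ v)))).sum)
      = K Z Z' := by
    intro Z Z'
    refine Ex_congr fun X₁ _ => ?_
    rw [ms, ← Ex_mul']
    refine Ex_congr fun X₂ _ => ?_
    rw [← Ex_mul]
    refine Ex_congr fun Y₁ _ => ?_
    rw [← Ex_mul]
    refine Ex_congr fun Y₂ _ => ?_
    rw [Multiset.sum_map_mul_left]; ring
  have e2 : ∀ Z Z', Ex y (fun X₁ => Ex y (fun X₂ => Ex y (fun Y₁ => Ex y (fun Y₂ =>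
      w Z Y₁ Y₂ Z' * w Z' X₁ X₂ Z * (X₂.map (N Z Y₁ Y₂)).sum)))) = K Z Z' := by
    intro Z Z'
    rw [Ex_comm]
    simp only [hK, hws Z' _ _ Z]
  have sw : ∀ G : Multiset V → Multiset V → Multiset V → Multiset V → ℝ,
      Ex y (fun X₁ => Ex y (fun X₂ => Ex y (fun Y₁ => Ex y (fun Y₂ => G X₁ X₂ Y₁ Y₂))))
      = Ex y (fun Y₁ => Ex y (fun Y₂ => Ex y (fun X₁ => Ex y (fun X₂ => G X₁ X₂ Y₁ Y₂)))) := by
    intro G
    calc _ = Ex y (fun X₁ => Ex y (fun Y₁ => Ex y (fun X₂ => Ex y (fun Y₂ => G X₁ X₂ Y₁ Y₂)))) :=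
          Ex_congr fun X₁ _ => Ex_comm _ _ _
      _ = Ex y (fun Y₁ => Ex y (fun X₁ => Ex y (fun X₂ => Ex y (fun Y₂ => G X₁ X₂ Y₁ Y₂)))) :=
          Ex_comm _ _ _
      _ = Ex y (fun Y₁ => Ex y (fun X₁ => Ex y (fun Y₂ => Ex y (fun X₂ => G X₁ X₂ Y₁ Y₂)))) :=
          Ex_congr fun Y₁ _ => Ex_congr fun X₁ _ => Ex_comm _ _ _
      _ = _ := Ex_congr fun Y₁ _ => Ex_comm _ _ _
  have e3 : ∀ Z Z', Ex y (fun X₁ => Ex y (fun X₂ => Ex y (fun Y₁ => Ex y (fun Y₂ =>
      w Z Y₁ Y₂ Z' * w Z' X₁ X₂ Z * (Y₁.map (N Z' X₁ X₂)).sum)))) = K Z' Z := by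
    intro Z Z'
    rw [sw]
    simp only [hK, mul_comm (w Z _ _ Z')]
  have e4 : ∀ Z Z', Ex y (fun X₁ => Ex y (fun X₂ => Ex y (fun Y₁ => Ex y (fun Y₂ =>
      w Z Y₁ Y₂ Z' * w Z' X₁ X₂ Z * (Y₂.map (N Z' X₁ X₂)).sum)))) = K Z' Z := by
    intro Z Z'
    rw [sw, ← e2]
    simp only [mul_comm (w Z _ _ Z')]
  have e5 : Ex z (fun Z => Ex z (fun Z' => K Z' Z)) = Ex z (fun Z => Ex z (fun Z' => K Z Z')) :=
    Ex_comm _ _ _
  simp only [e1]
  have e6 : Ex z (fun Z => Ex z (fun Z' => Ex y (fun Y₁ => Ex y (fun Y₂ => w Z Y₁ Y₂ Z'))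
        * Ex y (fun X₁ => Ex y (fun X₂ => w Z' X₁ X₂ Z))))
      ≤ Ex z (fun Z => Ex z (fun Z' => K Z Z' + K Z Z' + K Z' Z + K Z' Z)) := by
    refine Ex_mono fun Z hZ => Ex_mono fun Z' hZ' => ?_
    nth_rw 2 [← e2 Z Z']
    nth_rw 1 [← e3 Z Z']
    rw [← e4 Z Z']
    simp only [hK, ← Ex_add]
    rw [← Ex_mul]
    refine Ex_mono fun X₁ h1 => ?_
    rw [← Ex_mul]
    refine Ex_mono fun X₂ h2 => ?_
    rw [← Ex_mul']
    refine Ex_mono fun Y₁ h3 => ?_
    rw [← Ex_mul']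
    refine Ex_mono fun Y₂ h4 => ?_
    have h5 : 0 ≤ w Z Y₁ Y₂ Z' * w Z' X₁ X₂ Z := mul_nonneg (hw0 _ _ _ _) (hw0 _ _ _ _)
    by_cases h6 : w Z Y₁ Y₂ Z' * w Z' X₁ X₂ Z = 0
    · rw [h6]; simp
    · have := mul_le_mul_of_nonneg_left (hhit Z Z' Y₁ Y₂ X₁ X₂ hZ hZ' h3 h4 h1 h2 h6) h5
      linarith
  simp only [Ex_add] at e6
  linarith

lemma ob_low {z : ℕ} (W : Multiset V → Multiset V → ℝ) (χ : Multiset V → Prop) {v s π : ℝ}
    (hv : 0 ≤ v) (hs : 0 < s) (hπ0 : 0 ≤ π) (h0 : ∀ Z Z', ¬ χ Z → W Z Z' = 0)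
    (h1 : ∀ Z, χ Z → Ex z (W Z) = 1) (h2 : ∀ Z, χ Z → Ex z (fun Z' => W Z Z' ^ 2) ≤ 1 + v)
    (hπ : π ≤ Ex z (fun Z => ind (χ Z))) :
    π ^ 2 - (v / s + s) - v ≤ Ex z (fun Z => Ex z (fun Z' => W Z Z' * W Z' Z)) := by
  have a1 : ∀ Z, Ex z (fun Z' => (W Z Z' - ind (χ Z)) ^ 2) ≤ v := by
    intro Z
    by_cases h : χ Z
    · rw [ind_pos h, Ex_var, h1 Z h]; linarith [h2 Z h]
    · simp only [ind_neg h, h0 Z _ h]; simpa using hv
  have a2 : Ex z (fun Z => Ex z (fun Z' => (W Z Z' - ind (χ Z)) ^ 2)) ≤ v := Ex_le fun Z _ => a1 Z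
  have a3 : Ex z (fun Z => Ex z (fun Z' => (W Z' Z - ind (χ Z')) ^ 2)) ≤ v := by
    rw [Ex_comm]; exact a2
  have a4 : Ex z (fun Z => Ex z (fun Z' => ind (χ Z) * ind (χ Z') - s
      - (1 / (2 * s) + 1 / 2) * (W Z Z' - ind (χ Z)) ^ 2
      - (1 / (2 * s) + 1 / 2) * (W Z' Z - ind (χ Z')) ^ 2))
      ≤ Ex z (fun Z => Ex z (fun Z' => W Z Z' * W Z' Z)) := by
    refine Ex_mono fun Z _ => Ex_mono fun Z' _ => ?_
    have hc : 0 < 1 / (2 * s) + 1 / 2 := by positivity
    by_cases h : χ Z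
    · by_cases h' : χ Z'
      · rw [ind_pos h, ind_pos h']
        have k : ∀ x : ℝ, -x ≤ 1 / (2 * s) * x ^ 2 + s / 2 := fun x => by
          have : 1 / (2 * s) * x ^ 2 + s / 2 + x = 1 / (2 * s) * (x + s) ^ 2 := by
            field_simp; ring
          have : 0 ≤ 1 / (2 * s) * (x + s) ^ 2 := by positivity
          linarith
        nlinarith [k (W Z Z' - 1), k (W Z' Z - 1), sq_nonneg (W Z Z' - 1 + (W Z' Z - 1))]
      · rw [ind_neg h', h0 Z' Z h']
        nlinarith [mul_nonneg hc.le (sq_nonneg (W Z Z' - ind (χ Z)))]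
    · rw [ind_neg h, h0 Z Z' h]
      nlinarith [mul_nonneg hc.le (sq_nonneg (W Z' Z - ind (χ Z')))]
  simp only [Ex_sub, Ex_mul, Ex_mul', Ex_const] at a4
  have hc : 0 ≤ 1 / (2 * s) + 1 / 2 := by positivity
  have a5 := mul_le_mul_of_nonneg_left a2 hc
  have a6 := mul_le_mul_of_nonneg_left a3 hc
  have a7 : (1 / (2 * s) + 1 / 2) * v = (v / s + v) / 2 := by field_simp
  nlinarith

lemma ob_sq {r : ℕ} (F : Multiset V → ℝ) :
    (r + 1) * 𝔼 v, (Ex r (fun R => F (v ::ₘ R)) - Ex (r + 1) F) ^ 2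
      ≤ Ex (r + 1) (fun Y => F Y ^ 2) := by
  have h1 := hoeff r F
  rw [av_var, ← Ex_succ]
  nlinarith [sq_nonneg (Ex (r + 1) F)]

theorem master1 {m : ℕ} {δ : ℝ} (hP : Par1 m δ) (g : Multiset V → Prop) (hg : Hit m m g) :
    δ < Ex (m + 1) (fun M => ind (g M)) := by
  obtain ⟨y, z, eps, E, σ, p1, p2, p3, p4, p5, p6, c1, c2, c3, c4, c5⟩ := hP
  by_contra hδ
  rw [not_lt] at hδ
  obtain ⟨r, rfl⟩ : ∃ r, y = r + 1 := ⟨y - 1, by omega⟩
  set y := r + 1 with hy
  set d := (1 + eps) * δ with hd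
  set κ := 24 / eps * δ with hκ
  have hd0 : 0 < d := by positivity
  have hκ0 : 0 < κ := by positivity
  have hE0 : 0 < E := (Real.exp_pos _).trans_le c1
  have hσ0 : 0 ≤ σ := le_trans (by positivity) c2
  have hdd : ∀ S, 0 ≤ dd g S := fun S => av_ind_nonneg _
  have hfm : ∀ a W, 0 ≤ fm g a W := fun a W => Ex_nonneg fun _ _ => hdd _
  set u : Multiset V → Multiset V → Multiset V → ℝ := fun Z Y Y' =>
    ind (dd g (Z + Y + Y') ≤ d ∧ fm g y (Z + Y) ≤ κ ∧ fm g y (Z + Y') ≤ κ) with hu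
  have hu01 : ∀ Z Y Y', 0 ≤ u Z Y Y' ∧ u Z Y Y' ≤ 1 := fun _ _ _ => ⟨ind_nonneg _, ind_le_one _⟩
  have hune : ∀ Z Y Y', u Z Y Y' ≠ 0 →
      dd g (Z + Y + Y') ≤ d ∧ fm g y (Z + Y) ≤ κ ∧ fm g y (Z + Y') ≤ κ := fun Z Y Y' h => by
    by_contra k; exact h (ind_neg k)
  set p : Multiset V → ℝ := fun Z => Ex y (fun Y => Ex y (fun Y' => u Z Y Y')) with hp
  set χ : Multiset V → Prop := fun Z => eps / 8 ≤ p Z ∧ fm g (y + y) Z ≤ κ with hχ
  set cc : Multiset V → ℝ := fun Z => ind (χ Z) / p Z with hcc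
  have hp0 : ∀ Z, 0 ≤ p Z := fun Z => Ex_nonneg fun _ _ => Ex_nonneg fun _ _ => ind_nonneg _
  have hp1 : ∀ Z, p Z ≤ 1 := fun Z => Ex_le fun _ _ => Ex_le fun _ _ => ind_le_one _
  have hc0 : ∀ Z, 0 ≤ cc Z := fun Z => div_nonneg (ind_nonneg _) (hp0 Z)
  have hc8 : ∀ Z, cc Z ≤ 8 / eps := fun Z => by
    by_cases k : χ Z
    · simp only [hcc, ind_pos k]
      rw [div_le_div_iff₀ (lt_of_lt_of_le (by positivity) k.1) p4]; linarith [k.1]
    · simp only [hcc, ind_neg k, zero_div]; positivity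
  have hc64 : ∀ Z, cc Z ^ 2 ≤ (8 / eps) ^ 2 := fun Z => pow_le_pow_left₀ (hc0 Z) (hc8 Z) 2
  have hcp : ∀ Z, χ Z → cc Z * p Z = 1 := fun Z k => by
    simp only [hcc, ind_pos k]
    exact div_mul_cancel₀ _ (lt_of_lt_of_le (by positivity) k.1).ne'
  have huav : ∀ Z Y Y' Z', 0 ≤ u Z Y Y' * av g z (Z + Y + Y') Z' := fun Z Y Y' Z' => by
    by_cases k : u Z Y Y' = 0
    · rw [k, zero_mul]
    · exact mul_nonneg (hu01 _ _ _).1 (av_nonneg (hune _ _ _ k).1 p6 _)
  set w : Multiset V → Multiset V → Multiset V → Multiset V → ℝ := fun Z Y Y' Z' =>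
    cc Z * (u Z Y Y' * av g z (Z + Y + Y') Z') with hw
  have hw0 : ∀ Z Y Y' Z', 0 ≤ w Z Y Y' Z' := fun _ _ _ _ => mul_nonneg (hc0 _) (huav _ _ _ _)
  set W : Multiset V → Multiset V → ℝ := fun Z Z' => Ex y (fun Y => Ex y (fun Y' => w Z Y Y' Z'))
    with hW
  have hW0 : ∀ Z Z', 0 ≤ W Z Z' := fun _ _ => Ex_nonneg fun _ _ => Ex_nonneg fun _ _ => hw0 _ _ _ _
  have hσ2 : κ ^ 2 + κ / ((y : ℝ) + y + 1) ≤ σ := by
    refine le_trans ?_ c2
    gcongr
    linarith [Nat.cast_nonneg (α := ℝ) y]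
  have hσ1 : κ ^ 2 + κ / (((0 : ℕ) : ℝ) + y + 1) ≤ σ := by simpa using c2
  have hEd : E / d * σ ≤ (eps / 100) ^ 6 := by
    refine le_trans ?_ c4
    rw [div_mul_eq_mul_div]
    gcongr
    nlinarith
  -- the good set has positive mass
  have mean : Ex z (fun Z => Ex y (fun Y => Ex y (fun Y' => dd g (Z + Y + Y')))) ≤ δ := by
    refine le_of_eq_of_le ?_ hδ
    rw [Ex_succ', ← p1, two_mul, ← add_assoc, Ex_split, Ex_split]
    rfl
  have m1 : Ex z (fun Z => Ex y (fun Y => fm g y (Z + Y))) ≤ δ := mean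
  have m2 : Ex z (fun Z => fm g (y + y) Z) ≤ δ := by
    refine le_of_eq_of_le (Ex_congr fun Z _ => ?_) mean
    unfold fm
    rw [Ex_split]
    simp only [add_assoc]
  have mk : ∀ {x c : ℝ}, 0 ≤ x → 0 < c → ind (¬ x ≤ c) ≤ c⁻¹ * x := fun {x c} hx hc => by
    by_cases k : x ≤ c
    · rw [ind_neg (not_not.2 k)]; positivity
    · rw [ind_pos k, ← div_eq_inv_mul, le_div_iff₀ hc]; linarith [not_le.1 k]
  have hπ : eps / 4 ≤ Ex z (fun Z => ind (χ Z)) := by
    have k1 : Ex z (fun Z => Ex y (fun Y => Ex y (fun Y' => 1 - d⁻¹ * dd g (Z + Y + Y')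
        - κ⁻¹ * fm g y (Z + Y) - κ⁻¹ * fm g y (Z + Y')))) ≤ Ex z p := by
      refine Ex_mono fun Z _ => Ex_mono fun Y _ => Ex_mono fun Y' _ => ?_
      have a1 := mk (hdd (Z + Y + Y')) hd0
      have a2 := mk (hfm y (Z + Y)) hκ0
      have a3 := mk (hfm y (Z + Y')) hκ0
      simp only [hu, ind_and, ind_not] at *
      have b1 := ind_nonneg (dd g (Z + Y + Y') ≤ d)
      have b2 := ind_nonneg (fm g y (Z + Y) ≤ κ)
      have b3 := ind_nonneg (fm g y (Z + Y') ≤ κ)
      have b4 := ind_le_one (dd g (Z + Y + Y') ≤ d)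
      have b5 := ind_le_one (fm g y (Z + Y) ≤ κ)
      have b6 := ind_le_one (fm g y (Z + Y') ≤ κ)
      nlinarith [mul_nonneg (sub_nonneg.2 b5) (sub_nonneg.2 b6),
        mul_nonneg (sub_nonneg.2 b4) (sub_nonneg.2 (mul_le_one₀ b5 b3 b6))]
    simp only [Ex_sub, Ex_mul, Ex_const] at k1
    have k2 : Ex z p ≤ Ex z (fun Z => ind (χ Z) + eps / 8 + κ⁻¹ * fm g (y + y) Z) := by
      refine Ex_mono fun Z _ => ?_
      have a1 := mk (hfm (y + y) Z) hκ0
      have a2 := ind_nonneg (¬ fm g (y + y) Z ≤ κ)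
      by_cases k : χ Z
      · rw [ind_pos k]; linarith [hp1 Z]
      · rw [ind_neg k]
        by_cases k' : fm g (y + y) Z ≤ κ
        · have : ¬ eps / 8 ≤ p Z := fun h => k ⟨h, k'⟩
          linarith [not_le.1 this]
        · rw [ind_pos k'] at a1; linarith [hp1 Z]
    simp only [Ex_add, Ex_mul, Ex_const] at k2
    have k3 : κ⁻¹ * δ = eps / 24 := by rw [hκ]; field_simp
    have k4 : d⁻¹ * δ ≤ 1 - eps / 2 := by
      rw [← div_eq_inv_mul, div_le_iff₀ hd0, hd]
      nlinarith [mul_nonneg (mul_nonneg p4.le (sub_nonneg.2 p5)) p3.le]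
    have k5 := mul_le_mul_of_nonneg_left mean (inv_pos.2 hd0).le
    have k6 := mul_le_mul_of_nonneg_left m1 (inv_pos.2 hκ0).le
    have k7 := mul_le_mul_of_nonneg_left m2 (inv_pos.2 hκ0).le
    linarith
  have low := ob_low (z := z) W χ (v := (8 / eps) ^ 2 * (eps / 100) ^ 6) (s := eps ^ 2 / 100)
    (π := eps / 4) (by positivity) (by positivity) (by positivity)
    (fun Z Z' k => by simp [hW, hw, hcc, ind_neg k])
    (fun Z k => by
      show Ex z (fun Z' => Ex y (fun Y => Ex y (fun Y' => w Z Y Y' Z'))) = 1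
      rw [Ex_comm, ← hcp Z k, ← Ex_mul]
      refine Ex_congr fun Y _ => ?_
      rw [Ex_comm, ← Ex_mul]
      refine Ex_congr fun Y' _ => ?_
      simp only [hw]
      rw [Ex_mul, Ex_mul]
      by_cases k' : u Z Y Y' = 0
      · simp [k']
      · rw [show Ex z (fun Z' => av g z (Z + Y + Y') Z') = 1 from Ex_av (hune _ _ _ k').1 p6,
          mul_one])
    (fun Z k => by
      have a1 := one_second hd0 p6 c1 y y Z k.2 hσ2 (u Z) (hu01 Z) (fun Y Y' h => (hune _ _ _ h).1)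
      simp only [hW, hw, Ex_mul, mul_pow]
      have a2 := mul_le_mul_of_nonneg_left a1 (sq_nonneg (cc Z))
      have a3 : cc Z ^ 2 * p Z ^ 2 = 1 := by rw [← mul_pow, hcp Z k, one_pow]
      have a4 : cc Z ^ 2 * (E / d * σ) ≤ (8 / eps) ^ 2 * (eps / 100) ^ 6 :=
        mul_le_mul (hc64 Z) hEd (by positivity) (by positivity)
      rw [mul_add] at a2
      exact a2.trans (add_le_add a3.le a4))
    hπ
  have up := ob_abs (y := y) (z := z) w (fun Z Y Y' v => ind (g (v ::ₘ (Z + Y + Y')))) hw0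
    (fun Z Y Y' Z' => by simp only [hw, hu, add_right_comm Z Y Y', and_comm (a := fm g y (Z + Y) ≤ κ)])
    (fun Z Z' Y₁ Y₂ X₁ X₂ h1 h2 h3 h4 h5 h6 h7 => by
      have n1 : ∀ (A : Multiset V) (S : Multiset V), 0 ≤ (A.map (fun v => ind (g (v ::ₘ S)))).sum :=
        fun A S => (ind_nonneg _).trans (ind_le_mapsum (fun v => g (v ::ₘ S)) A)
      have n2 : ∀ (A : Multiset V) (S : Multiset V) (v : V), v ∈ A → g (v ::ₘ S) →
          1 ≤ (A.map (fun v => ind (g (v ::ₘ S)))).sum := fun A S v hv h =>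
        (ind_pos (P := ∃ v ∈ A, g (v ::ₘ S)) ⟨v, hv, h⟩).ge.trans
          (ind_le_mapsum (fun v => g (v ::ₘ S)) A)
      have n3 : ∀ A B C D : Multiset V, w A B C D ≠ 0 → ∀ v ∈ D, ¬ g (v ::ₘ (A + B + C)) := by
        intro A B C D h
        by_contra k
        exact h (by simp only [hw, av, ind_neg k, zero_div, mul_zero])
      have q1 := n1 X₁ (Z + Y₁ + Y₂)
      have q2 := n1 X₂ (Z + Y₁ + Y₂)
      have q3 := n1 Y₁ (Z' + X₁ + X₂)
      have q4 := n1 Y₂ (Z' + X₁ + X₂)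
      rcases hg (Z + Y₁ + Y₂) (Z' + X₁ + X₂) (by simp; omega) (by simp; omega) with
        ⟨J, hJ, hc, h⟩ | ⟨s, hs, h⟩
      · obtain ⟨v, rfl⟩ := Multiset.card_eq_one.1 (show J.card = 1 by omega)
        rw [add_comm, Multiset.singleton_add] at h
        rcases Multiset.mem_add.1 (Multiset.singleton_le.1 hJ) with k | k
        · rcases Multiset.mem_add.1 k with k | k
          · exact absurd h (n3 _ _ _ _ (left_ne_zero_of_mul h7) v k)
          · linarith [n2 _ _ v k h]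
        · linarith [n2 _ _ v k h]
      · rcases Multiset.mem_add.1 hs with k | k
        · rcases Multiset.mem_add.1 k with k | k
          · exact absurd h (n3 _ _ _ _ (right_ne_zero_of_mul h7) s k)
          · linarith [n2 _ _ s k h]
        · linarith [n2 _ _ s k h])
  set t : ℝ := (100 / eps) ^ 4 with ht
  have ht0 : 0 < t := by positivity
  set P : Multiset V → Multiset V → V → ℝ := fun Z Z' v => Ex y (fun Y₁ => Ex y (fun Y₂ =>
    w Z Y₁ Y₂ Z' * ind (g (v ::ₘ (Z + Y₁ + Y₂))))) with hP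
  set F : Multiset V → Multiset V → Multiset V → ℝ := fun Z' Z X₁ => Ex y (fun X₂ => w Z' X₁ X₂ Z)
    with hF
  have hy0 : (0 : ℝ) < y := by exact_mod_cast p2
  have b1 : ∀ Z Z', Ex y (fun X₁ => F Z' Z X₁ * (X₁.map (P Z Z')).sum)
      ≤ y * d * (W Z Z' * W Z' Z) + y * t / 2 * (𝔼 v, P Z Z' v ^ 2)
        + 1 / (2 * t) * Ex y (fun X₁ => F Z' Z X₁ ^ 2) := by
    intro Z Z'
    have a1 : 𝔼 v, P Z Z' v ≤ d * W Z Z' := by
      simp only [hP, hW]
      rw [← Ex_expect, ← Ex_mul]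
      refine Ex_mono fun Y₁ _ => ?_
      rw [← Ex_expect, ← Ex_mul]
      refine Ex_mono fun Y₂ _ => ?_
      rw [← mul_expect, mul_comm d]
      by_cases k : u Z Y₁ Y₂ = 0
      · simp [hw, k]
      · exact mul_le_mul_of_nonneg_left (hune _ _ _ k).1 (hw0 _ _ _ _)
    have a2 := ob_sq (r := r) (F Z' Z)
    have a3 : 𝔼 v, P Z Z' v * Ex r (fun R => F Z' Z (v ::ₘ R))
        ≤ 𝔼 v, (W Z' Z * P Z Z' v + t / 2 * P Z Z' v ^ 2
          + 1 / (2 * t) * (Ex r (fun R => F Z' Z (v ::ₘ R)) - W Z' Z) ^ 2) := by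
      refine expect_le_expect fun v _ => ?_
      generalize Ex r (fun R => F Z' Z (v ::ₘ R)) = x
      have : t / 2 * P Z Z' v ^ 2 + 1 / (2 * t) * (x - W Z' Z) ^ 2 - P Z Z' v * (x - W Z' Z)
          = 1 / (2 * t) * (t * P Z Z' v - (x - W Z' Z)) ^ 2 := by field_simp; ring
      have : 0 ≤ 1 / (2 * t) * (t * P Z Z' v - (x - W Z' Z)) ^ 2 := by positivity
      linarith
    rw [expect_add_distrib, expect_add_distrib, ← mul_expect, ← mul_expect, ← mul_expect] at a3
    rw [ob_mapsum]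
    have a4 : ((r : ℝ) + 1) = y := by rw [hy]; push_cast; ring
    have a5 : Ex (r + 1) (F Z' Z) = W Z' Z := rfl
    rw [a4, a5] at a2
    rw [a4]
    have a6 := mul_le_mul_of_nonneg_left a3 hy0.le
    have a7 := mul_le_mul_of_nonneg_left a2 (show 0 ≤ 1 / (2 * t) by positivity)
    have a8 := mul_le_mul_of_nonneg_left a1 (mul_nonneg hy0.le (hW0 Z' Z))
    nlinarith
  have b2 : Ex z (fun Z => Ex z (fun Z' => 𝔼 v, P Z Z' v ^ 2)) ≤ (8 / eps) ^ 2 * (E * σ) := by
    refine Ex_le fun Z _ => ?_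
    by_cases k : χ Z
    · have a1 := one_point hd0 p6 c1 y y Z k.2 hσ2 (u Z) (hu01 Z) (fun Y Y' h => (hune _ _ _ h).1)
      simp only [hP, hw, mul_assoc (cc Z), Ex_mul, mul_pow, ← mul_expect]
      exact mul_le_mul (hc64 Z) a1 (Ex_nonneg fun _ _ => expect_nonneg fun _ _ => sq_nonneg _)
        (by positivity)
    · simp only [hP, hw, hcc, ind_neg k]; simp; positivity
  have b3 : Ex z (fun Z => Ex z (fun Z' => Ex y (fun X₁ => F Z' Z X₁ ^ 2)))
      ≤ (8 / eps) ^ 2 * 2 := by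
    rw [Ex_comm]
    refine Ex_le fun Z' _ => ?_
    rw [Ex_comm]
    refine Ex_le fun X₁ _ => ?_
    by_cases k : fm g y (Z' + X₁) ≤ κ
    · have a1 := one_second hd0 p6 c1 0 y (Z' + X₁) (by simpa using k) hσ1
        (fun Y Y' => ind (Y = 0) * u Z' X₁ Y')
        (fun _ _ => ⟨mul_nonneg (ind_nonneg _) (hu01 _ _ _).1,
          mul_le_one₀ (ind_le_one _) (hu01 _ _ _).1 (hu01 _ _ _).2⟩)
        (fun Y Y' h => by
          have h0 : Y = 0 := by
            by_contra k'; exact left_ne_zero_of_mul h (ind_neg k')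
          rw [h0, add_zero]
          exact (hune _ _ _ (right_ne_zero_of_mul h)).1)
      simp only [Ex_zero, add_zero, ind_pos trivial, one_mul] at a1
      simp only [hF, hw, Ex_mul, mul_pow]
      refine mul_le_mul (hc64 Z') (a1.trans ?_) (Ex_nonneg fun _ _ => sq_nonneg _) (by positivity)
      have a2 : Ex y (fun Y' => u Z' X₁ Y') ≤ 1 := Ex_le fun _ _ => (hu01 _ _ _).2
      have a3 : 0 ≤ Ex y (fun Y' => u Z' X₁ Y') := Ex_nonneg fun _ _ => (hu01 _ _ _).1
      have a4 : (eps / 100) ^ 6 ≤ 1 := pow_le_one₀ (by positivity) (by linarith)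
      nlinarith
    · have : ∀ X₂, u Z' X₁ X₂ = 0 := fun X₂ => ind_neg fun h => k h.2.1
      simp only [hF, hw, this]; simp; positivity
  set I := Ex z (fun Z => Ex z (fun Z' => W Z Z' * W Z' Z)) with hI
  have b4 : Ex z (fun Z => Ex z (fun Z' => Ex y (fun X₁ => F Z' Z X₁ * (X₁.map (P Z Z')).sum)))
      ≤ y * d * I + y * t / 2 * Ex z (fun Z => Ex z (fun Z' => 𝔼 v, P Z Z' v ^ 2))
        + 1 / (2 * t) * Ex z (fun Z => Ex z (fun Z' => Ex y (fun X₁ => F Z' Z X₁ ^ 2))) := by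
    simp only [hI, ← Ex_mul, ← Ex_add]
    refine Ex_mono fun Z _ => Ex_mono fun Z' _ => ?_
    simpa only [← Ex_mul, ← Ex_add] using b1 Z Z'
  have b5 : I ≤ 4 * Ex z (fun Z => Ex z (fun Z' =>
      Ex y (fun X₁ => F Z' Z X₁ * (X₁.map (P Z Z')).sum))) := up
  have hI0 : 0 ≤ I := Ex_nonneg fun _ _ => Ex_nonneg fun _ _ => mul_nonneg (hW0 _ _) (hW0 _ _)
  have b6 : y * t / 2 * Ex z (fun Z => Ex z (fun Z' => 𝔼 v, P Z Z' v ^ 2))
      ≤ 32 * eps ^ 2 / 100 ^ 4 := by
    refine (mul_le_mul_of_nonneg_left b2 (by positivity)).trans ?_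
    calc y * t / 2 * ((8 / eps) ^ 2 * (E * σ)) = t / 2 * (8 / eps) ^ 2 * (y * (E * σ)) := by ring
      _ ≤ t / 2 * (8 / eps) ^ 2 * (eps / 100) ^ 8 := by gcongr
      _ = _ := by rw [ht]; field_simp; ring
  have b7 : 1 / (2 * t) * Ex z (fun Z => Ex z (fun Z' => Ex y (fun X₁ => F Z' Z X₁ ^ 2)))
      ≤ 64 * eps ^ 2 / 100 ^ 4 := by
    refine (mul_le_mul_of_nonneg_left b3 (by positivity)).trans (le_of_eq ?_)
    rw [ht]; field_simp; ring
  have b8 : y * d * I ≤ 1 / 8 * I := mul_le_mul_of_nonneg_right (by linarith) hI0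
  have b9 : (8 / eps) ^ 2 * (eps / 100) ^ 6 = 64 * eps ^ 4 / 100 ^ 6 := by field_simp; ring
  have b10 : 64 * eps ^ 4 / 100 ^ 6 / (eps ^ 2 / 100) = 64 * eps ^ 2 / 100 ^ 5 := by field_simp
  rw [b9, b10] at low
  have b11 : eps ^ 4 ≤ eps ^ 2 := pow_le_pow_of_le_one p4.le p5 (by norm_num)
  have b12 : 0 < eps ^ 2 := by positivity
  nlinarith

end Pool.Agent.P.MP_7badbe_co

end
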