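import Pool.Agent.P.MP_7badbe_co.Sp.C
import Pool.Agent.P.MP_7badbe_co.Sp.D
import Pool.Agent.P.MP_7badbe_co.Sp.E

set_option autoImplicit false
set_option linter.unusedSectionVars false

section


open Finset Filter Topology
open scoped BigOperators

namespace Pool.Agent.P.MP_7badbe_co

variable {V : Type} [Fintype V] [Nonempty V]

theorem sharp_lower {j : ℕ} (hj : 1 ≤ j) {c : ℝ} (hc : c < (2 * j - 1) * j.factorial) :
    ∀ᶠ m : ℕ in atTop, ∀ p : ℝ,
      Tendsto (fun n : ℕ => (exF (m + 1) (m + 1 - j) n : ℝ) / n.choose (m + 1)) atTop (𝓝 p) →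
      c * Real.log (m + 1) / (m + 1) ^ j ≤ 1 - p := by
  rcases le_or_gt c 0 with hc0 | hc0
  · filter_upwards [eventually_ge_atTop j] with m hm p hp
    refine lower_transfer (by omega) (by omega) hp (fun n g _ => ?_)
    refine le_trans ?_ (Ex_nonneg fun _ _ => ind_nonneg _)
    have h1 : 0 ≤ Real.log ((m : ℝ) + 1) :=
      Real.log_nonneg (by linarith [Nat.cast_nonneg (α := ℝ) m])
    exact div_nonpos_of_nonpos_of_nonneg (mul_nonpos_of_nonpos_of_nonneg hc0 h1) (by positivity)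
  rcases hj.eq_or_lt with rfl | hj2
  · filter_upwards [par1_eventually hc0 (by norm_num at hc; linarith), eventually_ge_atTop 1]
      with m hP hm p hp
    refine lower_transfer (by omega) (by omega) hp (fun n g hg => ?_)
    rw [pow_one]
    exact (master1 hP g (by simpa using hg)).le
  · filter_upwards [par_eventually hj2 hc0 hc, eventually_ge_atTop j] with m hP hm p hp
    exact lower_transfer (by omega) (by omega) hp
      (fun n g hg => (master hj2 (by omega) hP g hg).le)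

theorem sharp_upper {j : ℕ} (hj : 1 ≤ j) {C : ℝ} (hC : (2 * j - 1) * j.factorial < C) :
    ∀ᶠ m : ℕ in atTop, ∀ p : ℝ,
      Tendsto (fun n : ℕ => (exF (m + 1) (m + 1 - j) n : ℝ) / n.choose (m + 1)) atTop (𝓝 p) →
      1 - p ≤ C * Real.log (m + 1) / (m + 1) ^ j := by
  filter_upwards [up_par hj hC, eventually_ge_atTop j] with m hP hm p hp
  obtain ⟨l, r, β, hl, hr, h1, h2, h3⟩ := hP
  haveI : NeZero l := ⟨by omega⟩
  haveI : NeZero r := ⟨by omega⟩
  obtain ⟨γ, hγ, hle⟩ := two_hash (A := ZMod l) (B := ZMod r) (i := m + 1 - j) hj hm (by omega)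
    (fun a => miss_sharp hj m (by rwa [ZMod.card]) h2 a)
  rw [ZMod.card, ZMod.card] at hle
  exact (label_transfer hp _ γ hγ).trans (hle.trans h3)

theorem sharp (j : ℕ) (hj : 1 ≤ j) (ε : ℝ) (hε : 0 < ε) : ∃ k₀ : ℕ, ∀ k ≥ k₀, ∃ p : ℝ,
    Tendsto (fun n : ℕ => (exF k (k - j) n : ℝ) / n.choose k) atTop (𝓝 p) ∧
    ((2 * j - 1) * j.factorial - ε) * Real.log k / (k : ℝ) ^ j ≤ 1 - p ∧
    1 - p ≤ ((2 * j - 1) * j.factorial + ε) * Real.log k / (k : ℝ) ^ j := by
  obtain ⟨m₀, hm₀⟩ := eventually_atTop.1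
    ((sharp_lower hj (c := (2 * j - 1) * j.factorial - ε) (by linarith)).and
      (sharp_upper hj (C := (2 * j - 1) * j.factorial + ε) (by linarith)))
  refine ⟨m₀ + j + 2, fun k hk => ?_⟩
  obtain ⟨m, rfl⟩ : ∃ m, k = m + 1 := ⟨k - 1, by omega⟩
  obtain ⟨p, hp⟩ := exists_limit (m := m) (i := m + 1 - j) (by omega)
  refine ⟨p, hp, ?_, ?_⟩
  · push_cast; exact (hm₀ m (by omega)).1 p hp
  · push_cast; exact (hm₀ m (by omega)).2 p hp

end Pool.Agent.P.MP_7badbe_co

end
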