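import Pool.Agent.P.MP_7badbe_co.Hash

set_option autoImplicit false
set_option linter.unusedSectionVars false

section


open Finset
open scoped BigOperators

namespace Pool.Agent.P.MP_7badbe_co

variable {V : Type} [Fintype V]

/-- sum of `F` over all sub-multisets of size `s` -/
noncomputable def SS (s : ℕ) (F : Multiset V → ℝ) (T : Multiset V) : ℝ :=
  splitSum s (fun I _ => F I) T

/-- sum over all splittings -/
noncomputable def conv (a F : Multiset V → ℝ) (T : Multiset V) : ℝ :=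
  (T.antidiagonal.map (fun p => a p.1 * F p.2)).sum

/-- expectation over paths: each step is a uniform point with probability `q`, else nothing -/
noncomputable def Pe (q : ℝ) : ℕ → (List (Option V) → ℝ) → ℝ
  | 0, F => F []
  | n + 1, F => (1 - q) * Pe q n (fun p => F (none :: p))
      + q * 𝔼 x, Pe q n (fun p => F (some x :: p))

/-- final state of a path -/
def fin : Multiset V → List (Option V) → Multiset V
  | T, [] => T
  | T, none :: p => fin T p
  | T, some x :: p => fin (x ::ₘ T) p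

/-- planted weight of a path -/
noncomputable def wt (q : ℝ) (ρ : ℕ → Multiset V → V → ℝ) :
    ℕ → Multiset V → List (Option V) → ℝ
  | n + 1, T, none :: p => (1 + q * (𝔼 x, (1 - ρ n T x)) / (1 - q)) * wt q ρ n T p
  | n + 1, T, some x :: p => ρ n T x * wt q ρ n (x ::ₘ T) p
  | _, _, _ => 1

/-- null expectation of a function of the final state -/
noncomputable def En (q : ℝ) (n : ℕ) (T : Multiset V) (F : Multiset V → ℝ) : ℝ :=
  Pe q n (fun p => F (fin T p))

/-- planted expectation -/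
noncomputable def nu1 (q : ℝ) (ρ : ℕ → Multiset V → V → ℝ) (n : ℕ) (T : Multiset V)
    (F : Multiset V → ℝ) : ℝ :=
  Pe q n (fun p => wt q ρ n T p * F (fin T p))

/-- doubly planted expectation -/
noncomputable def nu2 (q : ℝ) (ρ ρ' : ℕ → Multiset V → V → ℝ) (n : ℕ) (T : Multiset V)
    (F : Multiset V → ℝ) : ℝ :=
  Pe q n (fun p => wt q ρ n T p * wt q ρ' n T p * F (fin T p))

/-- mean weight of the edges through `ω` whose last point is new -/
noncomputable def GG (j : ℕ) (g : Multiset V → V → ℝ) (ω : Multiset V) : ℝ :=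
  Ex (j - 1 - ω.card) (fun R => 𝔼 x, g (ω + R) x)

noncomputable def Pot (j : ℕ) (q : ℝ) (e : ℕ) (g : Multiset V → V → ℝ) (n : ℕ)
    (T : Multiset V) : ℝ :=
  ∑ s ∈ range j, ((n + e).choose (j - s) : ℝ) * q ^ (j - s) * SS s (GG j g) T

noncomputable def PotW (j : ℕ) (q : ℝ) (e : ℕ) (g : Multiset V → V → ℝ) (n : ℕ)
    (T : Multiset V) : ℝ :=
  ∑ s ∈ range j, ((j - s : ℕ) : ℝ) * (((n + e).choose (j - s) : ℝ) * q ^ (j - s) * SS s (GG j g) T)

noncomputable def jump (j : ℕ) (q : ℝ) (e : ℕ) (g : Multiset V → V → ℝ) (n : ℕ)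
    (T : Multiset V) (x : V) : ℝ :=
  ∑ s ∈ range (j - 1), ((n + e).choose (j - 1 - s) : ℝ) * q ^ (j - 1 - s)
    * SS s (fun ω => GG j g (x ::ₘ ω)) T

noncomputable def rel (j : ℕ) (g : Multiset V → V → ℝ) (T : Multiset V) (x : V) : ℝ :=
  SS (j - 1) (fun ω => g ω x) T

noncomputable def gL (L : Multiset V → Prop) (ω : Multiset V) (x : V) : ℝ := ind (L (x ::ₘ ω))

noncomputable def rho0 (D : ℝ) : ℝ := max (max (1 - D / 3) ((5 - D) / 6)) 0

/-- acceptance probability of the planted process -/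
noncomputable def rhoL (j : ℕ) (q : ℝ) (e : ℕ) (L : Multiset V → Prop) (n : ℕ)
    (T : Multiset V) (x : V) : ℝ :=
  if 0 < rel j (gL L) T x then 0 else rho0 (jump j q e (gL L) n T x)

def IndT (j : ℕ) (L : Multiset V → Prop) (T : Multiset V) : Prop :=
  ∀ J ≤ T, J.card = j → ¬ L J

/-- normalised degree -/
noncomputable def dg (j : ℕ) (lam : ℝ) (L : Multiset V → Prop) (σ : Multiset V) : ℝ :=
  lam ^ (j - σ.card) * Ex (j - σ.card) (fun R => ind (L (σ + R)))

def NoForb (j : ℕ) (lam D : ℝ) (L : Multiset V → Prop) (J : Multiset V) : Prop :=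
  ∀ τ ≤ J, τ.card < j → dg j lam L τ < D

def Cov (j : ℕ) (lam η : ℝ) (L : Multiset V → Prop) (ω : Multiset V) (x : V) : Prop :=
  ∃ σ ≤ ω, η ≤ dg j lam L (x ::ₘ σ)

open Classical in
/-- number of points of `J` that lie in a heavy sub-multiset of `W` -/
noncomputable def cnt (j : ℕ) (lam η : ℝ) (L : Multiset V → Prop) (W J : Multiset V) : ℕ :=
  J.countP (fun x => Cov j lam η L (W.erase x) x)

noncomputable def gP (j : ℕ) (lam η D : ℝ) (L L' bad : Multiset V → Prop) (ω : Multiset V)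
    (x : V) : ℝ :=
  ind (L (x ::ₘ ω)) * (1 / 6 + 1 / 3 *
    ind (bad (x ::ₘ ω) ∨ (NoForb j lam D L' (x ::ₘ ω) ∧ Cov j lam η L' ω x)))

def Cr (j : ℕ) (lam η : ℝ) (L L' : Multiset V → Prop) (T : Multiset V) (x : V) : Prop :=
  ∃ σ α α' : Multiset V, σ + α + α' ≤ T ∧ (σ + α).card = j - 1 ∧ (σ + α').card = j - 1 ∧
    L (x ::ₘ (σ + α)) ∧ L' (x ::ₘ (σ + α')) ∧
    (dg j lam L' (x ::ₘ σ) < η ∨ dg j lam L (x ::ₘ σ) < η)

noncomputable def cr (j : ℕ) (lam η : ℝ) (L L' : Multiset V → Prop) (T : Multiset V) : ℝ :=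
  𝔼 x, ind (Cr j lam η L L' T x)

noncomputable def abar (j : ℕ) (lam η : ℝ) (L L' : Multiset V → Prop) (c : Multiset V) : ℝ :=
  lam * ∑ s ∈ range j, splitSum s (fun σ ρ => splitSum (j - 1 - s) (fun α α' =>
    ind (α'.card = j - 1 - s) * 𝔼 x, ind (L (x ::ₘ (σ + α))) * ind (L' (x ::ₘ (σ + α')))
      * (ind (dg j lam L' (x ::ₘ σ) < η) + ind (dg j lam L (x ::ₘ σ) < η))) ρ) c

noncomputable def Sr (a : Multiset V → ℝ) : ℕ → Multiset V → ℝ
  | 0 => fun _ => 1
  | r + 1 => conv a (Sr a r)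

noncomputable def FF (a : Multiset V → ℝ) (b : ℝ) (R : ℕ) (T : Multiset V) : ℝ :=
  Real.exp b * ∑ r ∈ range (R + 1), Real.exp (b * r) * Sr a r T

def Cap (j : ℕ) (lam : ℝ) (L : Multiset V → Prop) (B : ℝ) (T : Multiset V) : Prop :=
  ∀ u T', u ::ₘ T' ≤ T → lam * SS (j - 2) (fun ω => 𝔼 x, ind (L (x ::ₘ u ::ₘ ω))) T' ≤ B

noncomputable def Qf (j : ℕ) (q : ℝ) (e : ℕ) (L : Multiset V → Prop) (n : ℕ)
    (T : Multiset V) : ℝ :=
  splitSum 1 (fun I T' => (I.map (fun u => jump j q e (gL L) n T' u ^ 2)).sum) T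

/-- the numerical conditions of the lower bound for `j ≥ 2` -/
def Par (j m : ℕ) (δ : ℝ) : Prop :=
  ∃ (y z n e M t : ℕ) (q eps ξ η D B b ε₃ Λ : ℝ),
    z + y + j = m + 1 ∧ y ≤ z ∧ 1 ≤ e ∧ 1 ≤ M ∧ M * j ≤ y + j ∧
    0 < q ∧ Real.exp 5 * q ≤ 1 ∧ (m : ℝ) < n * q ∧ 1 ≤ n * q ∧
    0 < δ ∧ 0 < eps ∧ 2 ≤ ξ ∧ 0 < η ∧ η ≤ D ∧ 0 < B ∧ 1 ≤ b ∧ 0 < ε₃ ∧
    (∀ r, 1 ≤ r → r < j → 5 * (n * q) ^ r ≤ D * ((e.choose r : ℝ) * q ^ r)) ∧
    (n * q) ^ j * ((1 + eps) * δ) < D ∧
    8 * (√(n * q) + j * (((n + e).choose j : ℝ) * q ^ j * ((1 + eps) * δ))) ≤ n * q - m ∧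
    40 * j ^ 2 * (((n + e).choose j : ℝ) * q ^ j * ((1 + eps) * δ)) ≤ B ^ 2 ∧
    4 * j * (n / e * B) ≤ b ∧
    Real.exp b * (2 * j * Real.exp 5 ^ (2 * j) * η * (n * q) ^ j * ((1 + eps) * δ)) ≤ 1 / 2 ∧
    1 / ξ + (t / M + 2 ^ M / (ξ ^ t * M * δ)) / ε₃ ≤ eps / (1 + eps) / 8 ∧
    n * q ≤ Λ ∧
    Real.exp (2 * (((n + e).choose j : ℝ) * q ^ j * ((1 + eps) * δ)) / (3 * j)) ≤ Λ ∧
    z * δ * (2 * Real.exp b * Real.exp (n * q ^ 2 / (1 - q))
      * (Real.exp (((n + e).choose j : ℝ) * q ^ j * ((1 + eps) * δ) / 3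
          + 2 * (((n + e).choose j : ℝ) * q ^ j * (ε₃ * δ)) / 3)
        * (1 + ξ ^ 2 * (Λ / (n * q)) ^ j * (2 ^ (2 * j + 1) * D / η) ^ j)))
      < (eps / (1 + eps) / 4) ^ 2

/-! the case `j = 1` -/

noncomputable def dd (g : Multiset V → Prop) (S : Multiset V) : ℝ := 𝔼 v, ind (g (v ::ₘ S))

noncomputable def fm (g : Multiset V → Prop) (r : ℕ) (W : Multiset V) : ℝ :=
  Ex r (fun R => dd g (W + R))

noncomputable def av (g : Multiset V → Prop) (z : ℕ) (S Z : Multiset V) : ℝ :=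
  ind (∀ v ∈ Z, ¬ g (v ::ₘ S)) / (1 - dd g S) ^ z

/-- the numerical conditions of the lower bound for `j = 1` -/
def Par1 (m : ℕ) (δ : ℝ) : Prop :=
  ∃ (y z : ℕ) (eps E σ : ℝ), z + 2 * y = m ∧ 1 ≤ y ∧ 0 < δ ∧ 0 < eps ∧ eps ≤ 1 ∧
    (1 + eps) * δ < 1 ∧
    Real.exp (z * ((1 + eps) * δ) / (1 - (1 + eps) * δ) ^ 2) ≤ E ∧
    (24 / eps * δ) ^ 2 + 24 / eps * δ / (y + 1) ≤ σ ∧
    8 * y * ((1 + eps) * δ) ≤ 1 ∧
    E * σ / δ ≤ (eps / 100) ^ 6 ∧ y * (E * σ) ≤ (eps / 100) ^ 8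

end Pool.Agent.P.MP_7badbe_co

end

section


open Finset Filter Topology
open scoped BigOperators

namespace Pool.Agent.P.MP_7badbe_co

variable {V : Type} [Fintype V] [Nonempty V]

omit [Nonempty V] in
lemma sub_mapsum_expect {β : Type} (s : Multiset β) (f : V → β → ℝ) :
    (s.map (fun p => 𝔼 x, f x p)).sum = 𝔼 x, (s.map (f x)).sum := by
  induction s using Multiset.induction_on with
  | empty => simp
  | cons a s ih => simp only [Multiset.map_cons, Multiset.sum_cons, ih, expect_add_distrib]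

lemma splitSum_mono {r : ℕ} {Φ Ψ : Multiset V → Multiset V → ℝ} {M : Multiset V}
    (h : ∀ I J, I + J = M → I.card = r → Φ I J ≤ Ψ I J) : splitSum r Φ M ≤ splitSum r Ψ M := by
  unfold splitSum
  refine Multiset.sum_map_le_sum_map _ _ (fun p hp => ?_)
  split_ifs with h1
  · exact h _ _ (Multiset.mem_antidiagonal.1 hp) h1
  · exact le_rfl

lemma splitSum_add (r : ℕ) (Φ Ψ : Multiset V → Multiset V → ℝ) (M : Multiset V) :
    splitSum r (fun I J => Φ I J + Ψ I J) M = splitSum r Φ M + splitSum r Ψ M := by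
  unfold splitSum
  rw [← Multiset.sum_map_add]
  refine congrArg _ (Multiset.map_congr rfl (fun p _ => ?_))
  split_ifs <;> simp

lemma splitSum_mul (r : ℕ) (c : ℝ) (Φ : Multiset V → Multiset V → ℝ) (M : Multiset V) :
    splitSum r (fun I J => c * Φ I J) M = c * splitSum r Φ M := by
  unfold splitSum
  rw [← Multiset.sum_map_mul_left]
  refine congrArg _ (Multiset.map_congr rfl (fun p _ => ?_))
  split_ifs <;> simp

lemma splitSum_expect (r : ℕ) (Φ : V → Multiset V → Multiset V → ℝ) (M : Multiset V) :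
    splitSum r (fun I J => 𝔼 x, Φ x I J) M = 𝔼 x, splitSum r (Φ x) M := by
  unfold splitSum
  rw [← sub_mapsum_expect]
  refine congrArg _ (Multiset.map_congr rfl (fun p _ => ?_))
  split_ifs <;> simp

lemma splitSum_zero (Φ : Multiset V → Multiset V → ℝ) (M : Multiset V) :
    splitSum 0 Φ M = Φ 0 M := by
  induction M using Multiset.induction_on generalizing Φ with
  | empty => simp [splitSum]
  | cons a M ih => rw [splitSum_zero_cons, ih]

lemma splitSum_one [DecidableEq V] (Φ : Multiset V → Multiset V → ℝ) (M : Multiset V) :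
    splitSum 1 Φ M = (M.map (fun x => Φ {x} (M.erase x))).sum := by
  induction M using Multiset.induction_on generalizing Φ with
  | empty => simp [splitSum]
  | cons a M ih =>
    rw [splitSum_succ_cons 0, splitSum_zero, Nat.zero_add, ih, Multiset.map_cons,
      Multiset.sum_cons, Multiset.erase_cons_head, add_comm]
    refine congrArg₂ _ rfl (congrArg _ (Multiset.map_congr rfl (fun x hx => ?_)))
    by_cases hxa : a = x
    · subst hxa
      rw [Multiset.erase_cons_head, Multiset.cons_erase hx]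
    · rw [Multiset.erase_cons_tail _ hxa]

lemma SS_zero (F : Multiset V → ℝ) (T : Multiset V) : SS 0 F T = F 0 := by
  unfold SS
  rw [splitSum_zero]

lemma SS_nil (s : ℕ) (F : Multiset V → ℝ) : SS (s + 1) F 0 = 0 := by
  simp [SS, splitSum]

lemma SS_cons (s : ℕ) (F : Multiset V → ℝ) (x : V) (T : Multiset V) :
    SS (s + 1) F (x ::ₘ T) = SS (s + 1) F T + SS s (fun ω => F (x ::ₘ ω)) T := by
  unfold SS
  rw [splitSum_succ_cons]

lemma SS_mono {s : ℕ} {F G : Multiset V → ℝ} {T : Multiset V}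
    (h : ∀ ω ≤ T, ω.card = s → F ω ≤ G ω) : SS s F T ≤ SS s G T := by
  unfold SS
  exact splitSum_mono (fun I J hIJ hI => h I (hIJ ▸ Multiset.le_add_right I J) hI)

lemma SS_congr {s : ℕ} {F G : Multiset V → ℝ} {T : Multiset V}
    (h : ∀ ω ≤ T, ω.card = s → F ω = G ω) : SS s F T = SS s G T := by
  exact le_antisymm (SS_mono fun ω h1 h2 => (h ω h1 h2).le) (SS_mono fun ω h1 h2 => (h ω h1 h2).ge)

lemma SS_nonneg {s : ℕ} {F : Multiset V → ℝ} {T : Multiset V}
    (h : ∀ ω ≤ T, ω.card = s → 0 ≤ F ω) : 0 ≤ SS s F T := by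
  have h1 : SS s (fun _ : Multiset V => (0 : ℝ)) T = 0 := by simp [SS, splitSum]
  rw [← h1]
  exact SS_mono h

lemma SS_add (s : ℕ) (F G : Multiset V → ℝ) (T : Multiset V) :
    SS s (fun ω => F ω + G ω) T = SS s F T + SS s G T := by
  exact splitSum_add s (fun I _ => F I) (fun I _ => G I) T

lemma SS_mul (s : ℕ) (c : ℝ) (F : Multiset V → ℝ) (T : Multiset V) :
    SS s (fun ω => c * F ω) T = c * SS s F T := by
  exact splitSum_mul s c (fun I _ => F I) T

lemma SS_expect (s : ℕ) (F : V → Multiset V → ℝ) (T : Multiset V) :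
    SS s (fun ω => 𝔼 x, F x ω) T = 𝔼 x, SS s (F x) T := by
  exact splitSum_expect s (fun x I _ => F x I) T

lemma SS_le_of_le {s : ℕ} {F : Multiset V → ℝ} (h0 : ∀ ω, 0 ≤ F ω) {T T' : Multiset V}
    (h : T ≤ T') : SS s F T ≤ SS s F T' := by
  obtain ⟨W, rfl⟩ := Multiset.le_iff_exists_add.1 h
  clear h
  induction W using Multiset.induction_on with
  | empty => simp
  | cons a W ih =>
    rw [Multiset.add_cons]
    refine ih.trans ?_
    cases s with
    | zero => rw [SS_zero, SS_zero]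
    | succ s =>
      rw [SS_cons]
      have : 0 ≤ SS s (fun ω => F (a ::ₘ ω)) (T + W) := SS_nonneg (fun _ _ _ => h0 _)
      linarith

lemma le_SS {s : ℕ} {F : Multiset V → ℝ} (h0 : ∀ ω, 0 ≤ F ω) {ω T : Multiset V} (h : ω ≤ T)
    (hs : ω.card = s) : F ω ≤ SS s F T := by
  obtain ⟨W, rfl⟩ := Multiset.le_iff_exists_add.1 h
  exact le_splitSum (Φ := fun I _ => F I) (fun I _ => h0 I) ω W hs

lemma SS_const (s : ℕ) (c : ℝ) (T : Multiset V) :
    SS s (fun _ => c) T = (T.card.choose s : ℝ) * c := by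
  induction T using Multiset.induction_on generalizing s with
  | empty =>
    cases s with
    | zero => simp [SS_zero]
    | succ s => simp [SS_nil]
  | cons a T ih =>
    cases s with
    | zero => simp [SS_zero]
    | succ s =>
      rw [SS_cons, ih, ih, Multiset.card_cons, Nat.choose_succ_succ']
      push_cast
      ring

lemma SS_pos {s : ℕ} {F : Multiset V → ℝ} {T : Multiset V} (h : 0 < SS s F T) :
    ∃ ω ≤ T, ω.card = s ∧ 0 < F ω := by
  by_contra hc
  push Not at hc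
  have h1 : SS s F T ≤ SS s (fun _ : Multiset V => (0 : ℝ)) T := SS_mono hc
  rw [SS_const, mul_zero] at h1
  exact absurd h (not_lt.2 h1)

lemma Ex_SS (N s : ℕ) (F : Multiset V → ℝ) : Ex N (SS s F) = (N.choose s : ℝ) * Ex s F := by
  have h := Ex_splitSum N s (fun (I : Multiset V) (_ : Multiset V) => F I)
  simp only [Ex_const] at h
  exact h

lemma conv_nil (a F : Multiset V → ℝ) : conv a F 0 = a 0 * F 0 := by
  simp [Pool.Agent.P.MP_7badbe_co.conv]

lemma conv_cons (a F : Multiset V → ℝ) (x : V) (T : Multiset V) :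
    conv a F (x ::ₘ T) = conv a (fun W => F (x ::ₘ W)) T + conv (fun c => a (x ::ₘ c)) F T := by
  simp [Pool.Agent.P.MP_7badbe_co.conv, Multiset.antidiagonal_cons, Multiset.map_map]

lemma conv_mono {a a' F F' : Multiset V → ℝ} {T : Multiset V}
    (h : ∀ c W, c + W = T → a c * F W ≤ a' c * F' W) : conv a F T ≤ conv a' F' T := by
  unfold Pool.Agent.P.MP_7badbe_co.conv
  exact Multiset.sum_map_le_sum_map _ _ (fun p hp => h _ _ (Multiset.mem_antidiagonal.1 hp))

lemma le_conv {a F : Multiset V → ℝ} (ha : ∀ c, 0 ≤ a c) (hF : ∀ W, 0 ≤ F W)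
    (c W : Multiset V) : a c * F W ≤ conv a F (c + W) := by
  unfold Pool.Agent.P.MP_7badbe_co.conv
  have h1 : a c * F W = (fun p : Multiset V × Multiset V => a p.1 * F p.2) (c, W) := rfl
  rw [h1]
  refine Multiset.single_le_sum (fun x hx => ?_) _
    (Multiset.mem_map_of_mem _ (Multiset.mem_antidiagonal.2 rfl))
  obtain ⟨p, _, rfl⟩ := Multiset.mem_map.1 hx
  exact mul_nonneg (ha _) (hF _)

lemma conv_mul (a F : Multiset V → ℝ) (t : ℝ) (T : Multiset V) :
    conv a (fun W => t * F W) T = t * conv a F T := by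
  unfold Pool.Agent.P.MP_7badbe_co.conv
  rw [← Multiset.sum_map_mul_left]
  refine congrArg _ (Multiset.map_congr rfl (fun p _ => ?_))
  ring

lemma conv_expect (a : V → Multiset V → ℝ) (F : Multiset V → ℝ) (T : Multiset V) :
    conv (fun c => 𝔼 x, a x c) F T = 𝔼 x, conv (a x) F T := by
  unfold Pool.Agent.P.MP_7badbe_co.conv
  rw [← sub_mapsum_expect]
  refine congrArg _ (Multiset.map_congr rfl (fun p _ => ?_))
  rw [expect_mul]

omit [Fintype V] [Nonempty V] in
lemma sub_conv_nonneg {a F : Multiset V → ℝ} (ha : ∀ c, 0 ≤ a c) (hF : ∀ W, 0 ≤ F W)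
    (T : Multiset V) : 0 ≤ conv a F T := by
  unfold Pool.Agent.P.MP_7badbe_co.conv
  refine Multiset.sum_nonneg (fun x hx => ?_)
  obtain ⟨p, _, rfl⟩ := Multiset.mem_map.1 hx
  exact mul_nonneg (ha _) (hF _)

lemma Sr_nonneg {a : Multiset V → ℝ} (ha : ∀ c, 0 ≤ a c) (r : ℕ) (T : Multiset V) :
    0 ≤ Sr a r T := by
  induction r generalizing T with
  | zero => exact zero_le_one
  | succ r ih => exact sub_conv_nonneg ha ih T

lemma Sr_cons {a : Multiset V → ℝ} (ha : ∀ c, 0 ≤ a c) (r : ℕ) (x : V) (T : Multiset V) :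
    Sr a r T ≤ Sr a r (x ::ₘ T) := by
  induction r generalizing T with
  | zero => exact le_rfl
  | succ r ih =>
    show Pool.Agent.P.MP_7badbe_co.conv a (Sr a r) T
      ≤ Pool.Agent.P.MP_7badbe_co.conv a (Sr a r) (x ::ₘ T)
    rw [conv_cons]
    have h1 : Pool.Agent.P.MP_7badbe_co.conv a (Sr a r) T
        ≤ Pool.Agent.P.MP_7badbe_co.conv a (fun W => Sr a r (x ::ₘ W)) T :=
      conv_mono (fun c W _ => mul_le_mul_of_nonneg_left (ih W) (ha c))
    have h2 : 0 ≤ Pool.Agent.P.MP_7badbe_co.conv (fun c => a (x ::ₘ c)) (Sr a r) T :=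
      sub_conv_nonneg (fun c => ha _) (Sr_nonneg ha r) T
    linarith

lemma FF_nonneg {a : Multiset V → ℝ} (ha : ∀ c, 0 ≤ a c) (b : ℝ) (R : ℕ) (T : Multiset V) :
    0 ≤ FF a b R T := by
  unfold FF
  exact mul_nonneg (Real.exp_pos _).le
    (sum_nonneg fun r _ => mul_nonneg (Real.exp_pos _).le (Sr_nonneg ha r T))

lemma FF_cons {a : Multiset V → ℝ} (ha : ∀ c, 0 ≤ a c) (b : ℝ) (R : ℕ) (x : V)
    (T : Multiset V) : FF a b R T ≤ FF a b R (x ::ₘ T) := by
  unfold FF
  exact mul_le_mul_of_nonneg_left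
    (sum_le_sum fun r _ => mul_le_mul_of_nonneg_left (Sr_cons ha r x T) (Real.exp_pos _).le)
    (Real.exp_pos _).le

lemma abar_nonneg (j : ℕ) {lam : ℝ} (hlam : 0 ≤ lam) (η : ℝ) (L L' : Multiset V → Prop)
    (c : Multiset V) : 0 ≤ abar j lam η L L' c := by
  unfold abar
  refine mul_nonneg hlam (sum_nonneg fun s _ => splitSum_nonneg (fun σ ρ =>
    splitSum_nonneg (fun α α' => mul_nonneg (ind_nonneg _) (expect_nonneg fun x _ => ?_)) _) _)
  exact mul_nonneg (mul_nonneg (ind_nonneg _) (ind_nonneg _))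
    (add_nonneg (ind_nonneg _) (ind_nonneg _))

lemma cr_nonneg (j : ℕ) (lam η : ℝ) (L L' : Multiset V → Prop) (T : Multiset V) :
    0 ≤ cr j lam η L L' T := by
  exact expect_nonneg (fun _ _ => ind_nonneg _)

lemma cr_le_one (j : ℕ) (lam η : ℝ) (L L' : Multiset V → Prop) (T : Multiset V) :
    cr j lam η L L' T ≤ 1 := by
  exact expect_le univ_nonempty (fun _ _ => ind_le_one _)

lemma cr_mono (j : ℕ) (lam η : ℝ) (L L' : Multiset V → Prop) {T T' : Multiset V} (h : T ≤ T') :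
    cr j lam η L L' T ≤ cr j lam η L L' T' := by
  refine expect_le_expect (fun x _ => ind_mono ?_)
  rintro ⟨σ, α, α', h1, h2⟩
  exact ⟨σ, α, α', h1.trans h, h2⟩

/-- Markov -/
lemma Ex_markov {m : ℕ} {F : Multiset V → ℝ} (h0 : ∀ M, 0 ≤ F M) {c : ℝ} (hc : 0 < c) :
    Ex m (fun M => ind (c < F M)) ≤ Ex m F / c := by
  rw [div_eq_inv_mul, ← Ex_mul]
  refine Ex_mono (fun M _ => ?_)
  by_cases h : c < F M
  · rw [ind_pos h, ← div_eq_inv_mul, le_div_iff₀ hc]
    linarith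
  · rw [ind_neg h]
    exact mul_nonneg (inv_nonneg.2 hc.le) (h0 M)

end Pool.Agent.P.MP_7badbe_co

end

section


open Finset Filter Topology
open scoped BigOperators

namespace Pool.Agent.P.MP_7badbe_co

variable {V : Type} [Fintype V] [Nonempty V]

variable {q : ℝ} {ρ ρ' : ℕ → Multiset V → V → ℝ}

omit [Nonempty V] in
lemma Path_Pe_succ (n : ℕ) (F : List (Option V) → ℝ) :
    Pe q (n + 1) F = (1 - q) * Pe q n (fun p => F (none :: p))
      + q * 𝔼 x, Pe q n (fun p => F (some x :: p)) := rfl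

omit [Nonempty V] in
lemma Path_Pe_add (n : ℕ) (F G : List (Option V) → ℝ) :
    Pe q n (fun p => F p + G p) = Pe q n F + Pe q n G := by
  induction n generalizing F G with
  | zero => rfl
  | succ n ih => simp only [Path_Pe_succ, ih, expect_add_distrib]; ring

omit [Nonempty V] in
lemma Path_Pe_mul (n : ℕ) (c : ℝ) (F : List (Option V) → ℝ) :
    Pe q n (fun p => c * F p) = c * Pe q n F := by
  induction n generalizing F with
  | zero => rfl
  | succ n ih => simp only [Path_Pe_succ, ih, ← mul_expect]; ring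

lemma Path_Pe_const (n : ℕ) (c : ℝ) : Pe q n (fun _ : List (Option V) => c) = c := by
  induction n with
  | zero => rfl
  | succ n ih => simp only [Path_Pe_succ, ih, expect_const univ_nonempty]; ring

omit [Nonempty V] in
lemma Path_Pe_mono (h0 : 0 ≤ q) (h1 : q ≤ 1) (n : ℕ) {F G : List (Option V) → ℝ}
    (h : ∀ p, F p ≤ G p) : Pe q n F ≤ Pe q n G := by
  induction n generalizing F G with
  | zero => exact h _
  | succ n ih =>
    rw [Path_Pe_succ, Path_Pe_succ]
    refine add_le_add (mul_le_mul_of_nonneg_left (ih fun p => h _) (by linarith))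
      (mul_le_mul_of_nonneg_left (expect_le_expect fun x _ => ih fun p => h _) h0)

omit [Nonempty V] in
lemma Path_Pe_sum {ι : Type} (s : Finset ι) (n : ℕ) (F : ι → List (Option V) → ℝ) :
    Pe q n (fun p => ∑ i ∈ s, F i p) = ∑ i ∈ s, Pe q n (F i) := by
  induction n generalizing F with
  | zero => rfl
  | succ n ih =>
    simp only [Path_Pe_succ, ih, sum_add_distrib, ← mul_sum]
    rw [expect_sum_comm]

omit [Nonempty V] in
lemma Path_Pe_expect {ι : Type} (s : Finset ι) (n : ℕ) (F : ι → List (Option V) → ℝ) :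
    Pe q n (fun p => 𝔼 i ∈ s, F i p) = 𝔼 i ∈ s, Pe q n (F i) := by
  induction n generalizing F with
  | zero => rfl
  | succ n ih =>
    simp only [Path_Pe_succ, ih, expect_add_distrib, ← mul_expect]
    rw [expect_comm]

omit [Nonempty V] in
lemma Path_Pe_Ex (n z : ℕ) (F : Multiset V → List (Option V) → ℝ) :
    Ex z (fun Z => Pe q n (F Z)) = Pe q n (fun p => Ex z (fun Z => F Z p)) := by
  induction z generalizing F with
  | zero => rfl
  | succ z ih => simp only [Ex_succ, ih, Path_Pe_expect]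

omit [Fintype V] [Nonempty V] in
lemma Path_fin_cons (x : V) (T : Multiset V) (p : List (Option V)) :
    fin (x ::ₘ T) p = x ::ₘ fin T p := by
  induction p generalizing T with
  | nil => rfl
  | cons o p ih =>
    cases o with
    | none => exact ih T
    | some y =>
      show fin (y ::ₘ x ::ₘ T) p = x ::ₘ fin (y ::ₘ T) p
      rw [Multiset.cons_swap, ih]

lemma Path_a_nonneg (hρ : ∀ n T x, 0 ≤ ρ n T x ∧ ρ n T x ≤ 1) (n : ℕ) (T : Multiset V) :
    0 ≤ 𝔼 x, (1 - ρ n T x) :=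
  expect_nonneg fun x _ => sub_nonneg.2 (hρ n T x).2

lemma En_zero (T : Multiset V) (F : Multiset V → ℝ) : En q 0 T F = F T := by
  rfl

lemma En_succ (n : ℕ) (T : Multiset V) (F : Multiset V → ℝ) :
    En q (n + 1) T F = (1 - q) * En q n T F + q * 𝔼 x, En q n (x ::ₘ T) F := by
  rfl

lemma nu1_zero (T : Multiset V) (F : Multiset V → ℝ) : nu1 q ρ 0 T F = F T := by
  show (1 : ℝ) * F T = F T
  exact one_mul _

lemma nu1_succ (hq : q < 1) (n : ℕ) (T : Multiset V) (F : Multiset V → ℝ) :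
    nu1 q ρ (n + 1) T F = (1 - q + q * 𝔼 x, (1 - ρ n T x)) * nu1 q ρ n T F
      + q * 𝔼 x, ρ n T x * nu1 q ρ n (x ::ₘ T) F := by
  have h1 : (1 - q) ≠ 0 := by linarith [sub_pos.2 hq] |> ne_of_gt
  have e1 : Pe q n (fun p => wt q ρ (n + 1) T (none :: p) * F (fin T (none :: p)))
      = (1 + q * (𝔼 x, (1 - ρ n T x)) / (1 - q)) * nu1 q ρ n T F := by
    unfold nu1
    rw [← Path_Pe_mul]
    congr 1
    funext p
    simp only [wt, fin]
    ring
  have e2 : ∀ x, Pe q n (fun p => wt q ρ (n + 1) T (some x :: p) * F (fin T (some x :: p)))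
      = ρ n T x * nu1 q ρ n (x ::ₘ T) F := by
    intro x
    unfold nu1
    rw [← Path_Pe_mul]
    congr 1
    funext p
    simp only [wt, fin]
    ring
  have e0 : nu1 q ρ (n + 1) T F
      = (1 - q) * Pe q n (fun p => wt q ρ (n + 1) T (none :: p) * F (fin T (none :: p)))
      + q * 𝔼 x, Pe q n (fun p => wt q ρ (n + 1) T (some x :: p) * F (fin T (some x :: p))) := rfl
  rw [e0, e1]
  simp only [e2]
  congr 1
  field_simp

lemma nu2_zero (T : Multiset V) (F : Multiset V → ℝ) : nu2 q ρ ρ' 0 T F = F T := by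
  show (1 : ℝ) * 1 * F T = F T
  ring

lemma nu2_succ (n : ℕ) (T : Multiset V) (F : Multiset V → ℝ) :
    nu2 q ρ ρ' (n + 1) T F = (1 - q) * ((1 + q * (𝔼 x, (1 - ρ n T x)) / (1 - q))
      * (1 + q * (𝔼 x, (1 - ρ' n T x)) / (1 - q))) * nu2 q ρ ρ' n T F
      + q * 𝔼 x, ρ n T x * ρ' n T x * nu2 q ρ ρ' n (x ::ₘ T) F := by
  have e1 : Pe q n (fun p => wt q ρ (n + 1) T (none :: p) * wt q ρ' (n + 1) T (none :: p)
        * F (fin T (none :: p)))
      = ((1 + q * (𝔼 x, (1 - ρ n T x)) / (1 - q)) * (1 + q * (𝔼 x, (1 - ρ' n T x)) / (1 - q)))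
        * nu2 q ρ ρ' n T F := by
    unfold nu2
    rw [← Path_Pe_mul]
    congr 1
    funext p
    simp only [wt, fin]
    ring
  have e2 : ∀ x, Pe q n (fun p => wt q ρ (n + 1) T (some x :: p) * wt q ρ' (n + 1) T (some x :: p)
        * F (fin T (some x :: p)))
      = ρ n T x * ρ' n T x * nu2 q ρ ρ' n (x ::ₘ T) F := by
    intro x
    unfold nu2
    rw [← Path_Pe_mul]
    congr 1
    funext p
    simp only [wt, fin]
    ring
  have e0 : nu2 q ρ ρ' (n + 1) T F
      = (1 - q) * Pe q n (fun p => wt q ρ (n + 1) T (none :: p) * wt q ρ' (n + 1) T (none :: p)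
        * F (fin T (none :: p)))
      + q * 𝔼 x, Pe q n (fun p => wt q ρ (n + 1) T (some x :: p)
        * wt q ρ' (n + 1) T (some x :: p) * F (fin T (some x :: p))) := rfl
  rw [e0, e1]
  simp only [e2]
  ring

lemma En_add (n : ℕ) (T : Multiset V) (F G : Multiset V → ℝ) :
    En q n T (fun W => F W + G W) = En q n T F + En q n T G := by
  exact Path_Pe_add n _ _

lemma En_mul (n : ℕ) (T : Multiset V) (c : ℝ) (F : Multiset V → ℝ) :
    En q n T (fun W => c * F W) = c * En q n T F := by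
  exact Path_Pe_mul n _ _

lemma En_sum {ι : Type} (s : Finset ι) (n : ℕ) (T : Multiset V) (F : ι → Multiset V → ℝ) :
    En q n T (fun W => ∑ i ∈ s, F i W) = ∑ i ∈ s, En q n T (F i) := by
  exact Path_Pe_sum s n (fun i p => F i (fin T p))

lemma En_const (n : ℕ) (T : Multiset V) (c : ℝ) : En q n T (fun _ => c) = c := by
  exact Path_Pe_const n c

lemma En_mono (h0 : 0 ≤ q) (h1 : q ≤ 1) (n : ℕ) (T : Multiset V) {F G : Multiset V → ℝ}
    (h : ∀ W, F W ≤ G W) : En q n T F ≤ En q n T G := by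
  exact Path_Pe_mono h0 h1 n fun p => h _

lemma En_shift (n : ℕ) (x : V) (T : Multiset V) (F : Multiset V → ℝ) :
    En q n (x ::ₘ T) F = En q n T (fun W => F (x ::ₘ W)) := by
  unfold En
  simp only [Path_fin_cons]

lemma En_le (h0 : 0 ≤ q) (h1 : q ≤ 1) (n : ℕ) {F : Multiset V → ℝ} {c : ℝ}
    (h : ∀ N, Ex N F ≤ c) : En q n 0 F ≤ c := by
  induction n generalizing F with
  | zero => exact h 0
  | succ n ih =>
    rw [En_succ]
    have e : 𝔼 x, En q n (x ::ₘ 0) F = En q n 0 (fun W => 𝔼 x, F (x ::ₘ W)) := by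
      simp only [En_shift]
      exact (Path_Pe_expect univ n (fun x p => F (x ::ₘ fin 0 p))).symm
    have h2 : En q n 0 (fun W => 𝔼 x, F (x ::ₘ W)) ≤ c :=
      ih fun N => by rw [← Ex_succ']; exact h _
    have h3 := ih h
    rw [e]
    nlinarith [mul_le_mul_of_nonneg_left h2 h0,
      mul_le_mul_of_nonneg_left h3 (sub_nonneg.2 h1)]

lemma En_Ex (n : ℕ) (T : Multiset V) (z : ℕ) (F : Multiset V → Multiset V → ℝ) :
    Ex z (fun Z => En q n T (F Z)) = En q n T (fun W => Ex z (fun Z => F Z W)) := by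
  exact Path_Pe_Ex n z (fun Z p => F Z (fin T p))

lemma nu1_add (n : ℕ) (T : Multiset V) (F G : Multiset V → ℝ) :
    nu1 q ρ n T (fun W => F W + G W) = nu1 q ρ n T F + nu1 q ρ n T G := by
  unfold nu1
  simp only [mul_add]
  exact Path_Pe_add n _ _

lemma nu1_mul (n : ℕ) (T : Multiset V) (c : ℝ) (F : Multiset V → ℝ) :
    nu1 q ρ n T (fun W => c * F W) = c * nu1 q ρ n T F := by
  unfold nu1
  rw [← Path_Pe_mul]
  congr 1
  funext p
  ring

lemma nu1_const (hq : q < 1) (n : ℕ) (T : Multiset V) (c : ℝ) :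
    nu1 q ρ n T (fun _ => c) = c := by
  induction n generalizing T with
  | zero => exact nu1_zero T _
  | succ n ih =>
    rw [nu1_succ hq]
    simp only [ih]
    rw [← expect_mul, expect_sub_distrib, expect_const univ_nonempty]
    ring

lemma nu2_mul (n : ℕ) (T : Multiset V) (c : ℝ) (F : Multiset V → ℝ) :
    nu2 q ρ ρ' n T (fun W => c * F W) = c * nu2 q ρ ρ' n T F := by
  unfold nu2
  rw [← Path_Pe_mul]
  congr 1
  funext p
  ring

/-- monotonicity on an invariant set of states -/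
lemma nu1_mono (h0 : 0 ≤ q) (h1 : q < 1) (hρ : ∀ n T x, 0 ≤ ρ n T x ∧ ρ n T x ≤ 1)
    (Inv : Multiset V → Prop) (hI : ∀ n T x, Inv T → ρ n T x ≠ 0 → Inv (x ::ₘ T))
    (n : ℕ) {T : Multiset V} (hT : Inv T) {F G : Multiset V → ℝ} (h : ∀ W, Inv W → F W ≤ G W) :
    nu1 q ρ n T F ≤ nu1 q ρ n T G := by
  induction n generalizing T with
  | zero => rw [nu1_zero, nu1_zero]; exact h T hT
  | succ n ih =>
    rw [nu1_succ h1, nu1_succ h1]
    have ha := Path_a_nonneg hρ n T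
    refine add_le_add (mul_le_mul_of_nonneg_left (ih hT) ?_)
      (mul_le_mul_of_nonneg_left (expect_le_expect fun x _ => ?_) h0)
    · have := mul_nonneg h0 ha
      linarith
    · by_cases hx : ρ n T x = 0
      · simp [hx]
      · exact mul_le_mul_of_nonneg_left (ih (hI n T x hT hx)) (hρ n T x).1

lemma nu2_mono (h0 : 0 ≤ q) (h1 : q < 1) (hρ : ∀ n T x, 0 ≤ ρ n T x ∧ ρ n T x ≤ 1)
    (hρ' : ∀ n T x, 0 ≤ ρ' n T x ∧ ρ' n T x ≤ 1) (n : ℕ) {T : Multiset V}
    {F G : Multiset V → ℝ} (h : ∀ W, T ≤ W → F W ≤ G W) :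
    nu2 q ρ ρ' n T F ≤ nu2 q ρ ρ' n T G := by
  induction n generalizing T with
  | zero => rw [nu2_zero, nu2_zero]; exact h T le_rfl
  | succ n ih =>
    rw [nu2_succ, nu2_succ]
    have ha := Path_a_nonneg hρ n T
    have ha' := Path_a_nonneg hρ' n T
    have hq : 0 < 1 - q := sub_pos.2 h1
    refine add_le_add (mul_le_mul_of_nonneg_left (ih h) (by positivity))
      (mul_le_mul_of_nonneg_left (expect_le_expect fun x _ => ?_) h0)
    exact mul_le_mul_of_nonneg_left (ih fun W hW => h W ((Multiset.le_cons_self T x).trans hW))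
      (mul_nonneg (hρ n T x).1 (hρ' n T x).1)

/-- supermartingale principle -/
lemma nu1_le (h0 : 0 ≤ q) (h1 : q < 1) (hρ : ∀ n T x, 0 ≤ ρ n T x ∧ ρ n T x ≤ 1)
    (Φ : ℕ → Multiset V → ℝ)
    (hΦ : ∀ n T, (1 - q + q * 𝔼 x, (1 - ρ n T x)) * Φ n T + q * 𝔼 x, ρ n T x * Φ n (x ::ₘ T)
      ≤ Φ (n + 1) T) (n : ℕ) (T : Multiset V) : nu1 q ρ n T (Φ 0) ≤ Φ n T := by
  induction n generalizing T with
  | zero => rw [nu1_zero]
  | succ n ih =>
    rw [nu1_succ h1]
    refine le_trans ?_ (hΦ n T)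
    have ha := Path_a_nonneg hρ n T
    refine add_le_add (mul_le_mul_of_nonneg_left (ih T) ?_)
      (mul_le_mul_of_nonneg_left (expect_le_expect fun x _ => ?_) h0)
    · have := mul_nonneg h0 ha
      linarith
    · exact mul_le_mul_of_nonneg_left (ih _) (hρ n T x).1

/-- Cauchy-Schwarz in the form of the inequality of means -/
lemma amgm (h0 : 0 ≤ q) (h1 : q < 1) (r : Multiset V → ℕ → Multiset V → V → ℝ)
    (Φ : Multiset V → Multiset V → ℝ) (H : Multiset V → ℝ) (y n : ℕ) {t : ℝ} (ht : 0 < t) :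
    Ex y (fun Y => nu1 q (r Y) n 0 (fun W => Φ Y W * H W))
      ≤ t / 2 * Ex y (fun Y => Ex y (fun Y' =>
          nu2 q (r Y) (r Y') n 0 (fun W => Φ Y W * Φ Y' W)))
        + 1 / (2 * t) * En q n 0 (fun W => H W ^ 2) := by
  set W : List (Option V) → ℝ := fun p => Ex y (fun Y => wt q (r Y) n 0 p * Φ Y (fin 0 p))
    with hW
  have e1 : Ex y (fun Y => nu1 q (r Y) n 0 (fun W => Φ Y W * H W))
      = Pe q n (fun p => W p * H (fin 0 p)) := by
    unfold nu1
    rw [Path_Pe_Ex]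
    congr 1
    funext p
    rw [hW, ← Ex_mul']
    congr 1
    funext Y
    ring
  have e2 : Ex y (fun Y => Ex y (fun Y' => nu2 q (r Y) (r Y') n 0 (fun W => Φ Y W * Φ Y' W)))
      = Pe q n (fun p => W p ^ 2) := by
    unfold nu2
    simp only [Path_Pe_Ex]
    congr 1
    funext p
    rw [sq]
    conv_rhs => rw [hW]
    rw [← Ex_mul']
    congr 1
    funext Y
    rw [← Ex_mul]
    congr 1
    funext Y'
    ring
  rw [e1, e2]
  unfold En
  rw [← Path_Pe_mul, ← Path_Pe_mul, ← Path_Pe_add]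
  refine Path_Pe_mono h0 h1.le n fun p => ?_
  have key : t / 2 * W p ^ 2 + 1 / (2 * t) * H (fin 0 p) ^ 2 - W p * H (fin 0 p)
      = (t * W p - H (fin 0 p)) ^ 2 / (2 * t) := by
    field_simp
    ring
  have : 0 ≤ (t * W p - H (fin 0 p)) ^ 2 / (2 * t) := by positivity
  linarith

end Pool.Agent.P.MP_7badbe_co

end

section


open Finset Filter Topology
open scoped BigOperators

namespace Pool.Agent.P.MP_7badbe_co

variable {V : Type} [Fintype V] [Nonempty V]

variable {j e : ℕ} {q : ℝ} {g g' : Multiset V → V → ℝ}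

lemma GG_nonneg (hg : ∀ ω x, 0 ≤ g ω x) (ω : Multiset V) : 0 ≤ GG j g ω := by
  unfold GG
  exact Ex_nonneg fun R _ => expect_nonneg fun x _ => hg _ _

lemma GG_gL (L : Multiset V → Prop) {ω : Multiset V} (h : ω.card < j) :
    GG j (gL L) ω = Ex (j - ω.card) (fun R => ind (L (ω + R))) := by
  obtain ⟨k, hk⟩ : ∃ k, j - ω.card = k + 1 := ⟨j - ω.card - 1, by omega⟩
  have h1 : j - 1 - ω.card = k := by omega
  unfold GG gL
  rw [hk, h1, Ex_succ']
  simp only [Multiset.add_cons]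

lemma jump_nonneg (hq : 0 ≤ q) (hg : ∀ ω x, 0 ≤ g ω x) (n : ℕ) (T : Multiset V) (x : V) :
    0 ≤ jump j q e g n T x := by
  unfold jump
  exact sum_nonneg fun s _ => mul_nonneg (mul_nonneg (Nat.cast_nonneg _) (pow_nonneg hq _))
    (SS_nonneg fun ω _ _ => GG_nonneg hg _)

lemma rel_nonneg (hg : ∀ ω x, 0 ≤ g ω x) (T : Multiset V) (x : V) : 0 ≤ rel j g T x := by
  unfold rel
  exact SS_nonneg fun ω _ _ => hg _ _

lemma Pot_nonneg (hq : 0 ≤ q) (hg : ∀ ω x, 0 ≤ g ω x) (n : ℕ) (T : Multiset V) :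
    0 ≤ Pot j q e g n T := by
  unfold Pot
  exact sum_nonneg fun s _ => mul_nonneg (mul_nonneg (Nat.cast_nonneg _) (pow_nonneg hq _))
    (SS_nonneg fun ω _ _ => GG_nonneg hg _)

lemma PotW_nonneg (hq : 0 ≤ q) (hg : ∀ ω x, 0 ≤ g ω x) (n : ℕ) (T : Multiset V) :
    0 ≤ PotW j q e g n T := by
  unfold PotW
  exact sum_nonneg fun s _ => mul_nonneg (Nat.cast_nonneg _)
    (mul_nonneg (mul_nonneg (Nat.cast_nonneg _) (pow_nonneg hq _))
      (SS_nonneg fun ω _ _ => GG_nonneg hg _))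

omit [Nonempty V] in
lemma Pot_GG_le {c c' : ℝ} (h : ∀ ω x, c * g ω x ≤ c' * g' ω x) (ω : Multiset V) :
    c * GG j g ω ≤ c' * GG j g' ω := by
  unfold GG
  rw [← Ex_mul, ← Ex_mul]
  refine Ex_mono fun R _ => ?_
  rw [mul_expect, mul_expect]
  exact expect_le_expect fun x _ => h _ _

lemma jump_le (hq : 0 ≤ q) {c c' : ℝ} (h : ∀ ω x, c * g ω x ≤ c' * g' ω x) (n : ℕ)
    (T : Multiset V) (x : V) : c * jump j q e g n T x ≤ c' * jump j q e g' n T x := by
  unfold jump
  rw [mul_sum, mul_sum]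
  refine sum_le_sum fun s _ => ?_
  have h1 : c * SS s (fun ω => GG j g (x ::ₘ ω)) T ≤ c' * SS s (fun ω => GG j g' (x ::ₘ ω)) T := by
    rw [← SS_mul, ← SS_mul]
    exact SS_mono fun ω _ _ => Pot_GG_le h _
  have h2 : (0 : ℝ) ≤ ((n + e).choose (j - 1 - s) : ℝ) * q ^ (j - 1 - s) :=
    mul_nonneg (Nat.cast_nonneg _) (pow_nonneg hq _)
  have h3 := mul_le_mul_of_nonneg_left h1 h2
  linarith

lemma rel_le {c c' : ℝ} (h : ∀ ω x, c * g ω x ≤ c' * g' ω x) (T : Multiset V) (x : V) :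
    c * rel j g T x ≤ c' * rel j g' T x := by
  unfold rel
  rw [← SS_mul, ← SS_mul]
  exact SS_mono fun ω _ _ => h _ _

/-- potential with general weights -/
noncomputable def Pot_C (j : ℕ) (q : ℝ) (e : ℕ) (g : Multiset V → V → ℝ) (c : ℕ → ℝ) (n : ℕ)
    (T : Multiset V) : ℝ :=
  ∑ s ∈ range j, c s * (((n + e).choose (j - s) : ℝ) * q ^ (j - s) * SS s (GG j g) T)

/-- jump with general weights -/
noncomputable def Pot_jC (j : ℕ) (q : ℝ) (e : ℕ) (g : Multiset V → V → ℝ) (c : ℕ → ℝ) (n : ℕ)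
    (T : Multiset V) (x : V) : ℝ :=
  ∑ s ∈ range (j - 1), c s * (((n + e).choose (j - 1 - s) : ℝ) * q ^ (j - 1 - s)
    * SS s (fun ω => GG j g (x ::ₘ ω)) T)

omit [Nonempty V] in
lemma Pot_eq_C (n : ℕ) (T : Multiset V) :
    Pot j q e g n T = Pot_C j q e g (fun _ => 1) n T := by
  simp only [Pot, Pot_C, one_mul]

omit [Nonempty V] in
lemma PotW_eq_C (n : ℕ) (T : Multiset V) :
    PotW j q e g n T = Pot_C j q e g (fun s => ((j - s : ℕ) : ℝ)) n T := rfl

omit [Nonempty V] in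
lemma Pot_jump_eq_C (n : ℕ) (T : Multiset V) (x : V) :
    jump j q e g n T x = Pot_jC j q e g (fun _ => 1) n T x := by
  simp only [jump, Pot_jC, one_mul]

lemma Pot_C_cons (hj : 1 ≤ j) (c : ℕ → ℝ) (n : ℕ) (T : Multiset V) (x : V) :
    Pot_C j q e g c n (x ::ₘ T)
      = Pot_C j q e g c n T + Pot_jC j q e g (fun s => c (s + 1)) n T x := by
  obtain ⟨k, rfl⟩ : ∃ k, j = k + 1 := ⟨j - 1, by omega⟩
  unfold Pot_C Pot_jC
  rw [sum_range_succ', sum_range_succ', SS_zero, SS_zero, Nat.add_sub_cancel, add_right_comm,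
    ← sum_add_distrib]
  congr 1
  refine sum_congr rfl fun s _ => ?_
  rw [SS_cons, Nat.add_sub_add_right]
  ring

omit [Nonempty V] in
lemma Pot_GG_step {ω : Multiset V} (h : ω.card + 2 ≤ j) :
    GG j g ω = 𝔼 x, GG j g (x ::ₘ ω) := by
  unfold GG
  obtain ⟨k, hk⟩ : ∃ k, j - 1 - ω.card = k + 1 := ⟨j - 1 - ω.card - 1, by omega⟩
  rw [hk, Ex_succ]
  refine expect_congr rfl fun x _ => ?_
  have h1 : j - 1 - (x ::ₘ ω).card = k := by rw [Multiset.card_cons]; omega
  rw [h1]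
  simp only [Multiset.add_cons, Multiset.cons_add]

omit [Nonempty V] in
lemma Pot_GG_last {ω : Multiset V} (h : ω.card = j - 1) : GG j g ω = 𝔼 x, g ω x := by
  unfold GG
  rw [h, Nat.sub_self, Ex_zero, add_zero]

lemma Pot_C_succ (hj : 1 ≤ j) (c : ℕ → ℝ) (n : ℕ) (T : Multiset V) :
    Pot_C j q e g c (n + 1) T = Pot_C j q e g c n T
      + q * 𝔼 x, (Pot_jC j q e g c n T x + c (j - 1) * rel j g T x) := by
  obtain ⟨k, rfl⟩ : ∃ k, j = k + 1 := ⟨j - 1, by omega⟩
  have h1 : Pot_C (k + 1) q e g c (n + 1) T = Pot_C (k + 1) q e g c n T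
      + ∑ s ∈ range (k + 1), q * (c s * (((n + e).choose (k - s) : ℝ) * q ^ (k - s)
        * SS s (GG (k + 1) g) T)) := by
    unfold Pot_C
    rw [← sum_add_distrib]
    refine sum_congr rfl fun s hs => ?_
    have hs' := mem_range.1 hs
    have h2 : k + 1 - s = (k - s) + 1 := by omega
    have h3 : n + 1 + e = (n + e) + 1 := by omega
    rw [h2, h3, Nat.choose_succ_succ']
    push_cast
    ring
  rw [h1, ← mul_sum, sum_range_succ, expect_add_distrib, ← mul_expect]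
  congr 3
  · unfold Pot_jC
    rw [Nat.add_sub_cancel, expect_sum_comm]
    refine sum_congr rfl fun s hs => ?_
    have hs' := mem_range.1 hs
    rw [← mul_expect, ← mul_expect, ← SS_expect]
    congr 2
    exact SS_congr fun ω _ hω => Pot_GG_step (by omega)
  · unfold rel
    rw [Nat.sub_self, Nat.choose_zero_right, pow_zero, Nat.cast_one, one_mul, one_mul,
      ← SS_expect]
    congr 1
    exact SS_congr fun ω _ hω => Pot_GG_last hω

lemma Pot_C_nil (hj : 1 ≤ j) (c : ℕ → ℝ) (n : ℕ) :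
    Pot_C j q e g c n 0 = c 0 * (((n + e).choose j : ℝ) * q ^ j * GG j g 0) := by
  obtain ⟨k, rfl⟩ : ∃ k, j = k + 1 := ⟨j - 1, by omega⟩
  unfold Pot_C
  rw [sum_range_succ', SS_zero]
  simp only [SS_nil, mul_zero, sum_const_zero, zero_add, Nat.sub_zero]

lemma Pot_cons (hj : 1 ≤ j) (n : ℕ) (T : Multiset V) (x : V) :
    Pot j q e g n (x ::ₘ T) = Pot j q e g n T + jump j q e g n T x := by
  rw [Pot_eq_C, Pot_eq_C, Pot_jump_eq_C]
  exact Pot_C_cons hj _ n T x

lemma Pot_succ (hj : 1 ≤ j) (n : ℕ) (T : Multiset V) :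
    Pot j q e g (n + 1) T = Pot j q e g n T + q * 𝔼 x, (jump j q e g n T x + rel j g T x) := by
  rw [Pot_eq_C, Pot_eq_C, Pot_C_succ hj]
  simp only [Pot_jump_eq_C, one_mul]

lemma Pot_nil (hj : 1 ≤ j) (n : ℕ) :
    Pot j q e g n 0 = ((n + e).choose j : ℝ) * q ^ j * GG j g 0 := by
  rw [Pot_eq_C, Pot_C_nil hj, one_mul]

lemma PotW_nil (hj : 1 ≤ j) (n : ℕ) :
    PotW j q e g n 0 = j * (((n + e).choose j : ℝ) * q ^ j * GG j g 0) := by
  rw [PotW_eq_C, Pot_C_nil hj, Nat.sub_zero]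

/-- the weighted potential prepays all jumps and releases -/
lemma PotW_step (hj : 1 ≤ j) (hq : 0 ≤ q) (hg : ∀ ω x, 0 ≤ g ω x) (n : ℕ) (T : Multiset V)
    (r : V → ℝ) (hr : ∀ x, 0 ≤ r x ∧ r x ≤ 1) :
    (1 - q + q * 𝔼 x, (1 - r x)) * PotW j q e g n T + q * 𝔼 x, r x * PotW j q e g n (x ::ₘ T)
      + q * 𝔼 x, (jump j q e g n T x + rel j g T x) ≤ PotW j q e g (n + 1) T := by
  set JW : V → ℝ := fun x => Pot_jC j q e g (fun s => ((j - (s + 1) : ℕ) : ℝ)) n T x with hJW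
  have h0 : ∀ x, 0 ≤ JW x := fun x =>
    sum_nonneg fun s _ => mul_nonneg (Nat.cast_nonneg _)
      (mul_nonneg (mul_nonneg (Nat.cast_nonneg _) (pow_nonneg hq _))
        (SS_nonneg fun ω _ _ => GG_nonneg hg _))
  have h1 : ∀ x, PotW j q e g n (x ::ₘ T) = PotW j q e g n T + JW x := fun x => by
    rw [PotW_eq_C, PotW_eq_C]
    exact Pot_C_cons hj _ n T x
  have h2 : ∀ x, Pot_jC j q e g (fun s => ((j - s : ℕ) : ℝ)) n T x
      = JW x + jump j q e g n T x := fun x => by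
    simp only [hJW, Pot_jC, jump, ← sum_add_distrib]
    refine sum_congr rfl fun s hs => ?_
    have hs' := mem_range.1 hs
    have : j - s = j - (s + 1) + 1 := by omega
    rw [this]
    push_cast
    ring
  have h3 : PotW j q e g (n + 1) T = PotW j q e g n T
      + q * ((𝔼 x, JW x) + 𝔼 x, (jump j q e g n T x + rel j g T x)) := by
    rw [PotW_eq_C, PotW_eq_C, Pot_C_succ hj, ← expect_add_distrib]
    have h4 : j - (j - 1) = 1 := by omega
    simp only [h2, h4, Nat.cast_one, one_mul, add_assoc]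
  have h5 : 𝔼 x, (1 - r x) = 1 - 𝔼 x, r x := by
    rw [expect_sub_distrib, expect_const univ_nonempty]
  have h6 : 𝔼 x, r x * PotW j q e g n (x ::ₘ T)
      ≤ (𝔼 x, r x) * PotW j q e g n T + 𝔼 x, JW x := by
    rw [expect_mul, ← expect_add_distrib]
    refine expect_le_expect fun x _ => ?_
    rw [h1 x]
    nlinarith [h0 x, (hr x).2]
  rw [h3, h5]
  have h7 := mul_le_mul_of_nonneg_left h6 hq
  nlinarith [h7]

lemma le_jump (hq : 0 ≤ q) (hg : ∀ ω x, 0 ≤ g ω x) (n : ℕ) {τ T : Multiset V} (h : τ ≤ T)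
    (hc : τ.card + 1 < j) (x : V) :
    (e.choose (j - 1 - τ.card) : ℝ) * q ^ (j - 1 - τ.card) * GG j g (x ::ₘ τ)
      ≤ jump j q e g n T x := by
  have hm : τ.card ∈ range (j - 1) := mem_range.2 (by omega)
  refine le_trans ?_ (single_le_sum (f := fun s => ((n + e).choose (j - 1 - s) : ℝ)
    * q ^ (j - 1 - s) * SS s (fun ω => GG j g (x ::ₘ ω)) T) (fun s _ =>
      mul_nonneg (mul_nonneg (Nat.cast_nonneg _) (pow_nonneg hq _))
        (SS_nonneg fun ω _ _ => GG_nonneg hg _)) hm)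
  refine mul_le_mul (mul_le_mul_of_nonneg_right ?_ (pow_nonneg hq _))
    (le_SS (F := fun ω => GG j g (x ::ₘ ω)) (fun ω => GG_nonneg hg _) h rfl) (GG_nonneg hg _)
    (mul_nonneg (Nat.cast_nonneg _) (pow_nonneg hq _))
  exact_mod_cast Nat.choose_le_choose _ (Nat.le_add_left e n)

/-- the jump function is the potential of the link -/
lemma jump_eq_Pot (n : ℕ) (T : Multiset V) (u : V) :
    jump j q e g n T u = Pot (j - 1) q e (fun ω x => g (u ::ₘ ω) x) n T := by
  unfold jump Pot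
  refine sum_congr rfl fun s _ => ?_
  congr 2
  funext ω
  unfold GG
  have h1 : j - 1 - (u ::ₘ ω).card = j - 1 - 1 - ω.card := by
    rw [Multiset.card_cons]; omega
  rw [h1]
  simp only [Multiset.cons_add]

lemma rel_gL_pos {L : Multiset V → Prop} {T : Multiset V} {x : V} (h : 0 < rel j (gL L) T x) :
    1 ≤ rel j (gL L) T x ∧ ∃ ω ≤ T, ω.card = j - 1 ∧ L (x ::ₘ ω) := by
  obtain ⟨ω, h1, h2, h3⟩ := SS_pos h
  have h4 : L (x ::ₘ ω) := of_ind_pos h3
  refine ⟨?_, ω, h1, h2, h4⟩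
  have h5 := le_SS (F := fun ω => gL L ω x) (fun ω => ind_nonneg _) h1 h2
  have h6 : gL L ω x = 1 := ind_pos h4
  unfold rel
  simpa only [h6] using h5

end Pool.Agent.P.MP_7badbe_co

end

section


open Finset Filter Topology
open scoped BigOperators

namespace Pool.Agent.P.MP_7badbe_co

variable {V : Type} [Fintype V] [Nonempty V]

lemma rho0_nonneg (D : ℝ) : 0 ≤ rho0 D := by
  exact le_max_right _ _

lemma rho0_le_one {D : ℝ} (hD : 0 ≤ D) : rho0 D ≤ 1 := by
  refine max_le (max_le ?_ ?_) zero_le_one <;> linarith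

lemma rho0_a (D : ℝ) : 1 - rho0 D ≤ D / 3 := by
  have h : 1 - D / 3 ≤ rho0 D := (le_max_left _ _).trans (le_max_left _ _)
  linarith

lemma rho0_b (D : ℝ) : 1 - rho0 D ≤ (1 + D) / 6 := by
  have h : (5 - D) / 6 ≤ rho0 D := (le_max_right _ _).trans (le_max_left _ _)
  linarith

lemma rho0_lt {D : ℝ} (h : rho0 D ≠ 0) : D < 5 := by
  by_contra h5
  rw [not_lt] at h5
  apply h
  refine max_eq_right (max_le ?_ ?_) <;> linarith

/-- the exponential lies below a line on an interval if it does so at both ends -/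
lemma Rho_chord {a b x c u v : ℝ} (hax : a ≤ x) (hxb : x ≤ b) (hc : 0 ≤ c)
    (ha : c * Real.exp a ≤ u + v * a) (hb : c * Real.exp b ≤ u + v * b) :
    c * Real.exp x ≤ u + v * x := by
  rcases eq_or_lt_of_le (hax.trans hxb) with h | h
  · have hx : x = a := le_antisymm (h ▸ hxb) hax
    rw [hx]
    exact ha
  · have hba : 0 < b - a := sub_pos.2 h
    obtain ⟨t, ht⟩ : ∃ t, t = (x - a) / (b - a) := ⟨_, rfl⟩
    have t0 : 0 ≤ t := ht ▸ div_nonneg (sub_nonneg.2 hax) hba.le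
    have t1 : 0 ≤ 1 - t := by
      rw [ht, sub_nonneg, div_le_one hba]
      linarith
    have hx : x = (1 - t) * a + t * b := by
      rw [ht]
      field_simp
      ring
    have h1 := convexOn_exp.2 (Set.mem_univ a) (Set.mem_univ b) t1 t0 (by ring)
    simp only [smul_eq_mul] at h1
    rw [← hx] at h1
    have h2 := mul_le_mul_of_nonneg_left h1 hc
    have h3 := mul_le_mul_of_nonneg_left ha t1
    have h4 := mul_le_mul_of_nonneg_left hb t0
    have h5 : v * x = v * ((1 - t) * a + t * b) := by rw [← hx]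
    nlinarith

lemma Rho_one_sub (t : ℝ) : (1 - t) * Real.exp t ≤ 1 := by
  have h1 : 1 - t ≤ Real.exp (-t) := by linarith [Real.add_one_le_exp (-t)]
  have h2 := mul_le_mul_of_nonneg_right h1 (Real.exp_pos t).le
  rwa [← Real.exp_add, neg_add_cancel, Real.exp_zero] at h2

/-- squared form of the tangent line bound -/
lemma Rho_sq {t s : ℝ} (ht : t ≤ 1) : (1 - t) ^ 2 * Real.exp (2 * t + s) ≤ Real.exp s := by
  have h1 := Rho_one_sub t
  have h0 : 0 ≤ (1 - t) * Real.exp t := mul_nonneg (sub_nonneg.2 ht) (Real.exp_pos t).le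
  have h2 : ((1 - t) * Real.exp t) ^ 2 ≤ 1 := pow_le_one₀ h0 h1
  have h3 : (1 - t) ^ 2 * Real.exp (2 * t + s) = ((1 - t) * Real.exp t) ^ 2 * Real.exp s := by
    rw [Real.exp_add, two_mul, Real.exp_add]
    ring
  rw [h3]
  exact mul_le_of_le_one_left (Real.exp_pos s).le h2

lemma Rho_exp_div {n : ℕ} {c : ℝ} (hc : 0 ≤ c) (h : (2.7182818286 : ℝ) ^ n ≤ c ^ 3) :
    Real.exp ((n : ℝ) / 3) ≤ c := by
  refine le_of_pow_le_pow_left₀ (n := 3) (by norm_num) hc ?_
  have h1 : Real.exp ((n : ℝ) / 3) ^ 3 = Real.exp 1 ^ n := by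
    rw [← Real.exp_nat_mul, ← Real.exp_nat_mul]
    congr 1
    push_cast
    ring
  rw [h1]
  exact (pow_le_pow_left₀ (Real.exp_pos 1).le Real.exp_one_lt_d9.le n).trans h

lemma Rho_big {D : ℝ} (h1 : 1 ≤ D) (h5 : D ≤ 5) : (5 - D) ^ 2 * Real.exp D ≤ 24 * (1 + D) := by
  rcases le_total D 3 with h3 | h3
  · have a1 := Rho_sq (t := (D - 2) / 3) (s := D / 3 + 4 / 3) (by linarith)
    have e1 : 2 * ((D - 2) / 3) + (D / 3 + 4 / 3) = D := by ring
    rw [e1] at a1
    have b1 : Real.exp (((5 : ℕ) : ℝ) / 3) ≤ 16 / 3 := Rho_exp_div (by norm_num) (by norm_num)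
    have b2 : Real.exp (((7 : ℕ) : ℝ) / 3) ≤ 32 / 3 := Rho_exp_div (by norm_num) (by norm_num)
    have a2 := Rho_chord (a := ((5 : ℕ) : ℝ) / 3) (b := ((7 : ℕ) : ℝ) / 3) (x := D / 3 + 4 / 3)
      (c := 1) (u := -8) (v := 8) (by push_cast; linarith) (by push_cast; linarith) zero_le_one
      (by rw [one_mul]; push_cast at b1 ⊢; linarith) (by rw [one_mul]; push_cast at b2 ⊢; linarith)
    have e2 : (5 - D) ^ 2 * Real.exp D = 9 * ((1 - (D - 2) / 3) ^ 2 * Real.exp D) := by ring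
    rw [e2]
    linarith
  · have a1 := Rho_sq (t := (D - 3) / 2) (s := 3) (by linarith)
    have e1 : 2 * ((D - 3) / 2) + 3 = D := by ring
    rw [e1] at a1
    have b1 : Real.exp (((9 : ℕ) : ℝ) / 3) ≤ 24 := Rho_exp_div (by norm_num) (by norm_num)
    have e3 : ((9 : ℕ) : ℝ) / 3 = 3 := by norm_num
    rw [e3] at b1
    have e2 : (5 - D) ^ 2 * Real.exp D = 4 * ((1 - (D - 3) / 2) ^ 2 * Real.exp D) := by ring
    rw [e2]
    linarith

lemma rho0_main {D x : ℝ} (hD : 0 ≤ D) (h1 : D / 6 ≤ x) (h2 : x ≤ D / 2) :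
    rho0 D ^ 2 * Real.exp (2 * x) + 1 ≤ 2 * rho0 D + 2 * x := by
  suffices h : rho0 D ^ 2 * Real.exp (D / 3) ≤ 2 * rho0 D - 1 + 1 * (D / 3) ∧
      rho0 D ^ 2 * Real.exp D ≤ 2 * rho0 D - 1 + 1 * D by
    have := Rho_chord (x := 2 * x) (by linarith) (by linarith) (sq_nonneg _) h.1 h.2
    linarith
  rcases le_total D 1 with hD1 | hD1
  · have e : rho0 D = 1 - D / 3 := by
      rw [rho0, max_eq_left (a := 1 - D / 3) (by linarith), max_eq_left (by linarith)]
    rw [e]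
    constructor
    · have a1 := Rho_one_sub (D / 3)
      have a2 := mul_le_mul_of_nonneg_left a1 (show 0 ≤ 1 - D / 3 by linarith)
      nlinarith
    · have a1 := Real.exp_bound' hD hD1 (n := 3) (by norm_num)
      simp only [Finset.sum_range_succ, Finset.sum_range_zero, Nat.factorial] at a1
      norm_num at a1
      have a2 := mul_le_mul_of_nonneg_left a1 (sq_nonneg (1 - D / 3))
      have p2 : 0 ≤ D ^ 2 := sq_nonneg D
      have p4 : 0 ≤ D ^ 4 := by positivity
      have p5 : D ^ 5 ≤ D ^ 4 := pow_le_pow_of_le_one hD hD1 (by norm_num)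
      nlinarith
  · rcases le_total D 5 with hD5 | hD5
    · have e : rho0 D = (5 - D) / 6 := by
        rw [rho0, max_eq_right (b := (5 - D) / 6) (by linarith), max_eq_left (by linarith)]
      rw [e]
      constructor
      · have a1 := Rho_sq (t := (D - 1) / 4) (s := 1 / 2 - D / 6) (by linarith)
        have e1 : 2 * ((D - 1) / 4) + (1 / 2 - D / 6) = D / 3 := by ring
        rw [e1] at a1
        have a2 : Real.exp (1 / 2 - D / 6) ≤ Real.exp (1 / 3) := Real.exp_le_exp.2 (by linarith)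
        have a3 := Rho_one_sub (1 / 3)
        have e2 : ((5 - D) / 6) ^ 2 * Real.exp (D / 3) =
            4 / 9 * ((1 - (D - 1) / 4) ^ 2 * Real.exp (D / 3)) := by ring
        rw [e2]
        linarith
      · have a1 := Rho_big hD1 hD5
        have e2 : ((5 - D) / 6) ^ 2 * Real.exp D = 1 / 36 * ((5 - D) ^ 2 * Real.exp D) := by ring
        rw [e2]
        linarith
    · have e : rho0 D = 0 := by
        by_contra h
        rcases eq_or_lt_of_le hD5 with h5 | h5
        · apply h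
          rw [rho0, ← h5]
          norm_num
        · linarith [rho0_lt h]
      rw [e]
      constructor <;> nlinarith

end Pool.Agent.P.MP_7badbe_co

end
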