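import Pool.Agent.P.MP_7badbe_co.Sp.A

set_option autoImplicit false
set_option linter.unusedSectionVars false

section


open Finset Filter Topology
open scoped BigOperators

namespace Pool.Agent.P.MP_7badbe_co

variable {V : Type} [Fintype V] [Nonempty V]

variable {j e : ℕ} {q lam D : ℝ} {L : Multiset V → Prop}

omit [Fintype V] [Nonempty V] in
lemma Nu_gL_nonneg (L : Multiset V → Prop) (ω : Multiset V) (x : V) : 0 ≤ gL L ω x :=
  ind_nonneg _

omit [Fintype V] [Nonempty V] in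
lemma Nu_le_cons {J T : Multiset V} {x : V} (h : J ≤ x ::ₘ T) :
    J ≤ T ∨ ∃ w ≤ T, J = x ::ₘ w := by
  classical
  by_cases hx : x ∈ J
  · exact Or.inr ⟨J.erase x, Multiset.erase_le_iff_le_cons.2 h, (Multiset.cons_erase hx).symm⟩
  · exact Or.inl ((Multiset.le_cons_of_notMem hx).1 h)

lemma rhoL_mem (hq : 0 ≤ q) (n : ℕ) (T : Multiset V) (x : V) :
    0 ≤ rhoL j q e L n T x ∧ rhoL j q e L n T x ≤ 1 := by
  unfold rhoL
  split_ifs
  · exact ⟨le_rfl, zero_le_one⟩
  · exact ⟨rho0_nonneg _, rho0_le_one (jump_nonneg hq (Nu_gL_nonneg L) n T x)⟩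

lemma rhoL_ne {n : ℕ} {T : Multiset V} {x : V} (h : rhoL j q e L n T x ≠ 0) :
    rel j (gL L) T x = 0 ∧ jump j q e (gL L) n T x < 5 := by
  unfold rhoL at h
  split_ifs at h with h1
  · exact absurd rfl h
  · exact ⟨le_antisymm (not_lt.1 h1) (rel_nonneg (Nu_gL_nonneg L) T x), rho0_lt h⟩

lemma one_sub_rhoL (hq : 0 ≤ q) (n : ℕ) (T : Multiset V) (x : V) :
    1 - rhoL j q e L n T x ≤ jump j q e (gL L) n T x + rel j (gL L) T x := by
  have h1 := jump_nonneg (j := j) (e := e) hq (Nu_gL_nonneg L) n T x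
  have h2 := rel_nonneg (j := j) (Nu_gL_nonneg L) T x
  unfold rhoL
  split_ifs with h
  · have := (rel_gL_pos h).1
    linarith
  · have := rho0_a (jump j q e (gL L) n T x)
    linarith

lemma indT_step (hj : 1 ≤ j) {n : ℕ} {T : Multiset V} {x : V} (hT : IndT j L T)
    (h : rhoL j q e L n T x ≠ 0) : IndT j L (x ::ₘ T) := by
  intro J hJ hc hL
  rcases Nu_le_cons hJ with h1 | ⟨w, hw, rfl⟩
  · exact hT J h1 hc hL
  · have h2 : w.card = j - 1 := by
      rw [Multiset.card_cons] at hc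
      omega
    have h3 : gL L w x ≤ rel j (gL L) T x :=
      le_SS (F := fun ω => gL L ω x) (fun ω => Nu_gL_nonneg L ω x) hw h2
    rw [(rhoL_ne h).1, gL, ind_pos hL] at h3
    linarith

lemma noforb_step (hq : 0 ≤ q) (hlam : 0 < lam)
    (hD : ∀ r, 1 ≤ r → r < j → 5 * lam ^ r ≤ D * ((e.choose r : ℝ) * q ^ r))
    {n : ℕ} {T : Multiset V} {x : V} (hT : NoForb j lam D L T)
    (h : jump j q e (gL L) n T x < 5) : NoForb j lam D L (x ::ₘ T) := by
  intro τ hτ hc
  rcases Nu_le_cons hτ with h1 | ⟨w, hw, rfl⟩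
  · exact hT τ h1 hc
  · have hc' : w.card + 1 < j := by rwa [Multiset.card_cons] at hc
    have h2 := le_jump (e := e) hq (Nu_gL_nonneg L) n hw hc' x
    have h3 : j - (x ::ₘ w).card = j - 1 - w.card := by
      rw [Multiset.card_cons]
      omega
    have h4 := hD (j - 1 - w.card) (by omega) (by omega)
    have h5 := GG_nonneg (j := j) (Nu_gL_nonneg L) (x ::ₘ w)
    unfold dg
    rw [← GG_gL L hc, h3]
    set G := GG j (gL L) (x ::ₘ w)
    set c := (e.choose (j - 1 - w.card) : ℝ) * q ^ (j - 1 - w.card) with hcdef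
    have h6 : 0 ≤ c := by positivity
    have h7 : 0 < lam ^ (j - 1 - w.card) := pow_pos hlam _
    have h8 : 0 < D := by
      by_contra h9
      have := mul_nonpos_of_nonpos_of_nonneg (not_lt.1 h9) h6
      linarith
    have h9 := mul_le_mul_of_nonneg_right h4 h5
    have h10 := mul_lt_mul_of_pos_left (lt_of_le_of_lt h2 h) h8
    nlinarith

lemma noforb_nil {d : ℝ} (hlam : 0 ≤ lam) (hd : Ex j (fun J => ind (L J)) ≤ d)
    (h : lam ^ j * d < D) : NoForb j lam D L 0 := by
  intro τ hτ _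
  obtain rfl := Multiset.le_zero.1 hτ
  unfold dg
  simp only [Multiset.card_zero, Nat.sub_zero, zero_add]
  exact lt_of_le_of_lt (mul_le_mul_of_nonneg_left hd (pow_nonneg hlam _)) h

lemma Nu_real {q a c D : ℝ} (h0 : 0 ≤ q) (h1 : q ≤ 1) (ha : 0 ≤ a) (hc : 0 ≤ c) :
    (1 - q + q * a) * √((D + q) ^ 2 + c) + q * ((1 - a) * √((D + q - 1) ^ 2 + c))
      ≤ √(D ^ 2 + (c + q)) + q * a := by
  set A := √((D + q) ^ 2 + c) with hA
  set B := √((D + q - 1) ^ 2 + c) with hB
  have hA2 : A ^ 2 = (D + q) ^ 2 + c := Real.sq_sqrt (by positivity)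
  have hB2 : B ^ 2 = (D + q - 1) ^ 2 + c := Real.sq_sqrt (by positivity)
  have hB0 : 0 ≤ B := Real.sqrt_nonneg _
  have hB1 : D + q - 1 ≤ B := Real.le_sqrt_of_sq_le (by linarith)
  have hAB : A ≤ B + 1 := by
    rw [hA]
    exact Real.sqrt_le_iff.2 ⟨by linarith, by nlinarith⟩
  have h2 : (1 - q) * A + q * B ≤ √(D ^ 2 + (c + q)) := by
    refine Real.le_sqrt_of_sq_le ?_
    have h3 : ((1 - q) * A + q * B) ^ 2
        = (1 - q) * A ^ 2 + q * B ^ 2 - q * (1 - q) * (A - B) ^ 2 := by ring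
    have h4 : 0 ≤ q * (1 - q) * (A - B) ^ 2 :=
      mul_nonneg (mul_nonneg h0 (by linarith)) (sq_nonneg _)
    rw [h3, hA2, hB2]
    nlinarith [sq_nonneg q]
  have h3 : q * a * (A - B) ≤ q * a * 1 :=
    mul_le_mul_of_nonneg_left (by linarith) (mul_nonneg h0 ha)
  nlinarith

/-- the number of accepted points is close to its null mean -/
theorem count_dev (hj : 1 ≤ j) (h0 : 0 ≤ q) (h1 : q < 1) (n : ℕ) :
    nu1 q (rhoL j q e L) n 0 (fun T => |n * q - T.card|)
      ≤ √(n * q) + j * (((n + e).choose j : ℝ) * q ^ j * Ex j (fun J => ind (L J))) := by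
  have hρ := rhoL_mem (j := j) (e := e) (L := L) h0
  have key := nu1_le h0 h1 hρ
    (fun m T => √((n * q - m * q - T.card) ^ 2 + m * q) + PotW j q e (gL L) m T) (by
      intro m T
      have h2 := PotW_step (e := e) hj h0 (Nu_gL_nonneg L) m T (rhoL j q e L m T) (hρ m T)
      set a := 𝔼 x, (1 - rhoL j q e L m T x) with ha
      have ha0 : 0 ≤ a := expect_nonneg fun x _ => by linarith [(hρ m T x).2]
      have ha1 : a ≤ 𝔼 x, (jump j q e (gL L) m T x + rel j (gL L) T x) :=
        expect_le_expect fun x _ => one_sub_rhoL h0 m T x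
      have ha2 : 𝔼 x, rhoL j q e L m T x = 1 - a := by
        rw [ha, expect_sub_distrib, expect_const univ_nonempty]
        ring
      have h3 := Nu_real (D := n * q - (m + 1) * q - T.card) (c := m * q) h0 h1.le ha0
        (by positivity)
      have e1 : (n * q - (m + 1) * q - T.card + q : ℝ) - 1
          = n * q - m * q - (T.card + 1) := by ring
      have e2 : (n * q - (m + 1) * q - T.card + q : ℝ) = n * q - m * q - T.card := by ring
      have e3 : (m * q + q : ℝ) = (m + 1) * q := by ring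
      rw [e1, e2, e3] at h3
      simp only [Multiset.card_cons, Nat.cast_add, Nat.cast_one, mul_add _ (√_),
        expect_add_distrib, ← expect_mul, ha2]
      have h4 := mul_le_mul_of_nonneg_left ha1 h0
      linarith) n 0
  refine le_trans (nu1_mono h0 h1 hρ (fun _ => True) (fun _ _ _ _ _ => trivial) n trivial
    fun W _ => ?_) (key.trans (le_of_eq ?_))
  · have := PotW_nonneg (j := j) (e := e) h0 (Nu_gL_nonneg L) 0 W
    simp only [Nat.cast_zero, zero_mul, sub_zero, add_zero, Real.sqrt_sq_eq_abs]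
    linarith
  · rw [PotW_nil hj, GG_gL L (show (0 : Multiset V).card < j from hj)]
    simp

end Pool.Agent.P.MP_7badbe_co

end

section


open Finset Filter Topology
open scoped BigOperators

namespace Pool.Agent.P.MP_7badbe_co

variable {V : Type} [Fintype V] [Nonempty V]

variable {j e : ℕ} {q : ℝ} {L : Multiset V → Prop}

/-- sum over the choices of one point -/
noncomputable def Qm_S1 (Φ : V → Multiset V → ℝ) (T : Multiset V) : ℝ :=
  splitSum 1 (fun I T' => (I.map (fun u => Φ u T')).sum) T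

omit [Fintype V] [Nonempty V] in
lemma Qm_S1_nil (Φ : V → Multiset V → ℝ) : Qm_S1 Φ 0 = 0 := by
  simp [Qm_S1, splitSum]

lemma Qm_S1_cons (Φ : V → Multiset V → ℝ) (x : V) (T : Multiset V) :
    Qm_S1 Φ (x ::ₘ T) = Qm_S1 (fun u T' => Φ u (x ::ₘ T')) T + Φ x T := by
  unfold Qm_S1
  rw [splitSum_succ_cons, splitSum_zero]
  simp

lemma Qm_S1_mono {Φ Ψ : V → Multiset V → ℝ} {T : Multiset V}
    (h : ∀ u T', u ::ₘ T' = T → Φ u T' ≤ Ψ u T') : Qm_S1 Φ T ≤ Qm_S1 Ψ T := by
  unfold Qm_S1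
  refine splitSum_mono (fun I J hIJ hI => ?_)
  obtain ⟨u, rfl⟩ := Multiset.card_eq_one.1 hI
  simp only [Multiset.map_singleton, Multiset.sum_singleton]
  exact h u J (by rw [← hIJ, Multiset.singleton_add])

lemma Qm_S1_add (Φ Ψ : V → Multiset V → ℝ) (T : Multiset V) :
    Qm_S1 (fun u T' => Φ u T' + Ψ u T') T = Qm_S1 Φ T + Qm_S1 Ψ T := by
  induction T using Multiset.induction_on generalizing Φ Ψ with
  | empty => simp [Qm_S1_nil]
  | cons x T ih => rw [Qm_S1_cons, Qm_S1_cons, Qm_S1_cons, ih]; ring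

lemma Qm_S1_mul (c : ℝ) (Φ : V → Multiset V → ℝ) (T : Multiset V) :
    Qm_S1 (fun u T' => c * Φ u T') T = c * Qm_S1 Φ T := by
  induction T using Multiset.induction_on generalizing Φ with
  | empty => simp [Qm_S1_nil]
  | cons x T ih => rw [Qm_S1_cons, Qm_S1_cons, ih]; ring

lemma Qm_S1_expect (Φ : V → V → Multiset V → ℝ) (T : Multiset V) :
    Qm_S1 (fun u T' => 𝔼 x, Φ x u T') T = 𝔼 x, Qm_S1 (Φ x) T := by
  induction T using Multiset.induction_on generalizing Φ with
  | empty => simp [Qm_S1_nil]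
  | cons y T ih =>
    simp only [Qm_S1_cons]
    rw [ih (fun x u T' => Φ x u (y ::ₘ T')), expect_add_distrib]

lemma Qm_S1_sum {ι : Type} (s : Finset ι) (Φ : ι → V → Multiset V → ℝ) (T : Multiset V) :
    Qm_S1 (fun u T' => ∑ i ∈ s, Φ i u T') T = ∑ i ∈ s, Qm_S1 (Φ i) T := by
  induction T using Multiset.induction_on generalizing Φ with
  | empty => simp [Qm_S1_nil]
  | cons y T ih =>
    simp only [Qm_S1_cons]
    rw [ih (fun i u T' => Φ i u (y ::ₘ T')), sum_add_distrib]

lemma Qm_S1_SS (s : ℕ) (F : Multiset V → ℝ) (T : Multiset V) :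
    Qm_S1 (fun u T' => SS s (fun ω => F (u ::ₘ ω)) T') T = (s + 1) * SS (s + 1) F T := by
  induction T using Multiset.induction_on generalizing s F with
  | empty => simp [Qm_S1_nil, SS_nil]
  | cons y T ih =>
    rw [Qm_S1_cons, SS_cons]
    cases s with
    | zero =>
      have h := ih 0 F
      simp only [SS_zero] at h ⊢
      rw [h]; push_cast; ring
    | succ s =>
      simp only [SS_cons]
      rw [Qm_S1_add, ih (s + 1) F]
      have h := ih s (fun ω => F (y ::ₘ ω))
      have h2 : (fun (u : V) (T' : Multiset V) => SS s (fun ω => F (u ::ₘ y ::ₘ ω)) T')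
          = fun u T' => SS s (fun ω => F (y ::ₘ u ::ₘ ω)) T' := by
        funext u T'
        congr 1
        funext ω
        rw [Multiset.cons_swap]
      rw [h2, h]
      push_cast; ring

/-- the jump of the link -/
noncomputable def Qm_J (j : ℕ) (q : ℝ) (e : ℕ) (g : Multiset V → V → ℝ) (n : ℕ) (u x : V)
    (T : Multiset V) : ℝ :=
  ∑ s ∈ range (j - 1 - 1), ((n + e).choose (j - 1 - 1 - s) : ℝ) * q ^ (j - 1 - 1 - s)
    * SS s (fun ω => GG j g (x ::ₘ u ::ₘ ω)) T

omit [Nonempty V] in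
lemma Qm_J_eq (g : Multiset V → V → ℝ) (n : ℕ) (u x : V) (T : Multiset V) :
    jump (j - 1) q e (fun ω y => g (u ::ₘ ω) y) n T x = Qm_J j q e g n u x T := by
  unfold jump Qm_J
  refine sum_congr rfl (fun s _ => ?_)
  congr 2
  funext ω
  unfold GG
  simp only [Multiset.card_cons]
  have h : j - 1 - 1 - (ω.card + 1) = j - 1 - (ω.card + 1 + 1) := by omega
  rw [h]
  congr 1
  funext R
  simp only [Multiset.cons_add]
  rw [Multiset.cons_swap]

omit [Nonempty V] in
lemma Qm_J_symm (g : Multiset V → V → ℝ) (n : ℕ) (u x : V) (T : Multiset V) :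
    Qm_J j q e g n u x T = Qm_J j q e g n x u T := by
  unfold Qm_J
  refine sum_congr rfl (fun s _ => ?_)
  congr 2
  funext ω
  rw [Multiset.cons_swap]

lemma Qm_J_nonneg {g : Multiset V → V → ℝ} (hq : 0 ≤ q) (hg : ∀ ω x, 0 ≤ g ω x) (n : ℕ)
    (u x : V) (T : Multiset V) : 0 ≤ Qm_J j q e g n u x T := by
  rw [← Qm_J_eq]
  exact jump_nonneg hq (fun ω y => hg _ _) n T x

lemma Qm_jump_cons (hj : 2 ≤ j) (g : Multiset V → V → ℝ) (n : ℕ) (u x : V) (T : Multiset V) :
    jump j q e g n (x ::ₘ T) u = jump j q e g n T u + Qm_J j q e g n u x T := by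
  rw [jump_eq_Pot, jump_eq_Pot, Pot_cons (by omega), Qm_J_eq]

lemma Qm_jump_succ (hj : 2 ≤ j) (hq : 0 ≤ q) {g : Multiset V → V → ℝ} (hg : ∀ ω x, 0 ≤ g ω x)
    (n : ℕ) (u : V) (T : Multiset V) :
    jump j q e g n T u + q * 𝔼 x, Qm_J j q e g n u x T ≤ jump j q e g (n + 1) T u := by
  rw [jump_eq_Pot, jump_eq_Pot, Pot_succ (by omega)]
  refine add_le_add le_rfl (mul_le_mul_of_nonneg_left (expect_le_expect (fun x _ => ?_)) hq)
  rw [Qm_J_eq]
  have := rel_nonneg (j := j - 1) (g := fun ω y => g (u ::ₘ ω) y) (fun ω y => hg _ _) T x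
  linarith

lemma Qm_S1_J (hj : 2 ≤ j) (hq : 0 ≤ q) {g : Multiset V → V → ℝ} (hg : ∀ ω x, 0 ≤ g ω x)
    (n : ℕ) (x : V) (T : Multiset V) :
    Qm_S1 (fun u T' => Qm_J j q e g n u x T') T ≤ ((j : ℝ) - 1) * jump j q e g n T x := by
  unfold Qm_J jump
  rw [Qm_S1_sum]
  obtain ⟨k, rfl⟩ : ∃ k, j = k + 2 := ⟨j - 2, by omega⟩
  have h1 : k + 2 - 1 - 1 = k := by omega
  have h2 : k + 2 - 1 = k + 1 := by omega
  rw [h1, h2, sum_range_succ', mul_add, mul_sum]
  have hS : ∀ s, 0 ≤ SS s (fun ω => GG (k + 2) g (x ::ₘ ω)) T :=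
    fun s => SS_nonneg (fun ω _ _ => GG_nonneg hg _)
  have hk : (0 : ℝ) ≤ ((k + 2 : ℕ) : ℝ) - 1 := by push_cast; linarith [Nat.cast_nonneg (α := ℝ) k]
  refine le_add_of_le_of_nonneg (sum_le_sum (fun s hs => ?_))
    (mul_nonneg hk (mul_nonneg (by positivity) (hS 0)))
  rw [Qm_S1_mul, Qm_S1_SS s (fun ω => GG (k + 2) g (x ::ₘ ω))]
  have h3 : k + 1 - (s + 1) = k - s := by omega
  rw [h3]
  have h4 : ((s : ℝ) + 1) ≤ ((k + 2 : ℕ) : ℝ) - 1 := by
    have : (s : ℝ) ≤ k := by exact_mod_cast (mem_range.1 hs).le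
    push_cast; linarith
  have h5 : 0 ≤ ((n + e).choose (k - s) : ℝ) * q ^ (k - s)
      * SS (s + 1) (fun ω => GG (k + 2) g (x ::ₘ ω)) T := mul_nonneg (by positivity) (hS _)
  nlinarith

lemma Qm_gL_nonneg (ω : Multiset V) (x : V) : 0 ≤ gL L ω x := ind_nonneg _

lemma Qm_Qf_eq (n : ℕ) (T : Multiset V) :
    Qf j q e L n T = Qm_S1 (fun u T' => jump j q e (gL L) n T' u ^ 2) T := rfl

lemma Qm_cons_le (hj : 2 ≤ j) (hq : 0 ≤ q) (n : ℕ) (x : V) (T : Multiset V) :
    Qf j q e L n (x ::ₘ T) ≤ Qf j q e L n T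
      + Qm_S1 (fun u T' => 2 * jump j q e (gL L) n T' u * Qm_J j q e (gL L) n u x T') T
      + j * jump j q e (gL L) n T x ^ 2 := by
  rw [Qm_Qf_eq, Qm_Qf_eq, Qm_S1_cons, ← Qm_S1_add]
  have ha := jump_nonneg (j := j) (e := e) hq (Qm_gL_nonneg (L := L)) n T x
  have h1 : Qm_S1 (fun u T' => jump j q e (gL L) n (x ::ₘ T') u ^ 2) T
      ≤ Qm_S1 (fun u T' => (jump j q e (gL L) n T' u ^ 2
        + 2 * jump j q e (gL L) n T' u * Qm_J j q e (gL L) n u x T')
        + jump j q e (gL L) n T x * Qm_J j q e (gL L) n u x T') T := by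
    refine Qm_S1_mono (fun u T' hT => ?_)
    rw [Qm_jump_cons hj]
    have h2 : Qm_J j q e (gL L) n u x T' ≤ jump j q e (gL L) n T x := by
      rw [← hT, Qm_jump_cons hj, Qm_J_symm _ _ x u]
      have := jump_nonneg (j := j) (e := e) hq (Qm_gL_nonneg (L := L)) n T' x
      linarith
    have h3 := Qm_J_nonneg (j := j) (e := e) hq (Qm_gL_nonneg (L := L)) n u x T'
    nlinarith
  rw [Qm_S1_add, Qm_S1_mul] at h1
  have h4 := mul_le_mul_of_nonneg_left
    (Qm_S1_J (e := e) hj hq (Qm_gL_nonneg (L := L)) n x T) ha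
  nlinarith

lemma Qm_succ_ge (hj : 2 ≤ j) (hq : 0 ≤ q) (n : ℕ) (T : Multiset V) :
    Qf j q e L n T + q * 𝔼 x,
      Qm_S1 (fun u T' => 2 * jump j q e (gL L) n T' u * Qm_J j q e (gL L) n u x T') T
      ≤ Qf j q e L (n + 1) T := by
  rw [Qm_Qf_eq, Qm_Qf_eq, ← Qm_S1_expect, ← Qm_S1_mul, ← Qm_S1_add]
  refine Qm_S1_mono (fun u T' _ => ?_)
  rw [← mul_expect]
  have h1 := Qm_jump_succ (e := e) hj hq (Qm_gL_nonneg (L := L)) n u T'
  have h2 := jump_nonneg (j := j) (e := e) hq (Qm_gL_nonneg (L := L)) n T' u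
  have h3 : 0 ≤ q * 𝔼 x, Qm_J j q e (gL L) n u x T' :=
    mul_nonneg hq (expect_nonneg (fun x _ => Qm_J_nonneg hq Qm_gL_nonneg n u x T'))
  have h4 := pow_le_pow_left₀ (add_nonneg h2 h3) h1 2
  nlinarith

lemma Qm_step (hj : 2 ≤ j) (h0 : 0 ≤ q) (n : ℕ) (T : Multiset V) :
    (1 - q + q * 𝔼 x, (1 - rhoL j q e L n T x)) * Qf j q e L n T
      + q * 𝔼 x, rhoL j q e L n T x * Qf j q e L n (x ::ₘ T)
      ≤ Qf j q e L (n + 1) T
        + 5 * j * (q * 𝔼 x, (jump j q e (gL L) n T x + rel j (gL L) T x)) := by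
  have h1 := Qm_succ_ge (e := e) (L := L) hj h0 n T
  have h2 : 𝔼 x, rhoL j q e L n T x * Qf j q e L n (x ::ₘ T)
      ≤ 𝔼 x, ((Qf j q e L n T - Qf j q e L n T * (1 - rhoL j q e L n T x))
        + (Qm_S1 (fun u T' => 2 * jump j q e (gL L) n T' u * Qm_J j q e (gL L) n u x T') T
          + 5 * j * (jump j q e (gL L) n T x + rel j (gL L) T x))) := by
    refine expect_le_expect (fun x _ => ?_)
    have hρ := rhoL_mem (j := j) (e := e) (L := L) h0 n T x
    have hc := Qm_cons_le (e := e) (L := L) hj h0 n x T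
    have ha := jump_nonneg (j := j) (e := e) h0 (Qm_gL_nonneg (L := L)) n T x
    have hr := rel_nonneg (j := j) (Qm_gL_nonneg (L := L)) T x
    have hj0 : (0 : ℝ) ≤ j := Nat.cast_nonneg _
    have hS : 0 ≤ Qm_S1
        (fun u T' => 2 * jump j q e (gL L) n T' u * Qm_J j q e (gL L) n u x T') T := by
      have := Qm_S1_mono (Φ := fun u T' => 0 * jump j q e (gL L) n T' u)
        (Ψ := fun u T' => 2 * jump j q e (gL L) n T' u * Qm_J j q e (gL L) n u x T') (T := T)
        (fun u T' _ => by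
          have h5 := jump_nonneg (j := j) (e := e) h0 (Qm_gL_nonneg (L := L)) n T' u
          have h6 := Qm_J_nonneg (j := j) (e := e) h0 (Qm_gL_nonneg (L := L)) n u x T'
          rw [zero_mul]; positivity)
      rwa [Qm_S1_mul, zero_mul] at this
    have hk : rhoL j q e L n T x * (j * jump j q e (gL L) n T x ^ 2)
        ≤ 5 * j * (jump j q e (gL L) n T x + rel j (gL L) T x) := by
      by_cases hz : rhoL j q e L n T x = 0
      · rw [hz, zero_mul]; positivity
      · have h5 := (rhoL_ne hz).2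
        have h6 : jump j q e (gL L) n T x ^ 2 ≤ 5 * jump j q e (gL L) n T x := by nlinarith
        have h7 : rhoL j q e L n T x * (j * jump j q e (gL L) n T x ^ 2)
            ≤ 1 * (j * jump j q e (gL L) n T x ^ 2) :=
          mul_le_mul_of_nonneg_right hρ.2 (by positivity)
        have h8 := mul_le_mul_of_nonneg_left h6 hj0
        have h9 := mul_nonneg hj0 hr
        nlinarith
    have h3 := mul_le_mul_of_nonneg_left hc hρ.1
    have h4 := mul_le_mul_of_nonneg_right hρ.2 hS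
    nlinarith
  rw [expect_add_distrib, expect_add_distrib, expect_sub_distrib, ← mul_expect, ← mul_expect,
    Fintype.expect_const] at h2
  have h3 := mul_le_mul_of_nonneg_left h2 h0
  nlinarith

theorem Q_moment (hj : 2 ≤ j) (h0 : 0 ≤ q) (h1 : q < 1) (n : ℕ) :
    nu1 q (rhoL j q e L) n 0 (Qf j q e L 0)
      ≤ 5 * j ^ 2 * (((n + e).choose j : ℝ) * q ^ j * Ex j (fun J => ind (L J))) := by
  have hj0 : (0 : ℝ) ≤ 5 * j := by positivity
  have hρ := rhoL_mem (j := j) (e := e) (L := L) h0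
  have hA := nu1_le h0 h1 hρ (fun n T => Qf j q e L n T + 5 * j * PotW j q e (gL L) n T)
    (fun n T => by
      have h2 := Qm_step (e := e) (L := L) hj h0 n T
      have h3 := mul_le_mul_of_nonneg_left (PotW_step (e := e) (by omega : 1 ≤ j) h0
        (Qm_gL_nonneg (L := L)) n T (rhoL j q e L n T) (hρ n T)) hj0
      have h4 : 𝔼 x, rhoL j q e L n T x
            * (Qf j q e L n (x ::ₘ T) + 5 * j * PotW j q e (gL L) n (x ::ₘ T))
          = 𝔼 x, rhoL j q e L n T x * Qf j q e L n (x ::ₘ T)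
            + 5 * j * 𝔼 x, rhoL j q e L n T x * PotW j q e (gL L) n (x ::ₘ T) := by
        rw [mul_expect, ← expect_add_distrib]
        exact expect_congr rfl (fun x _ => by ring)
      rw [h4]
      nlinarith) n 0
  have hB : nu1 q (rhoL j q e L) n 0 (Qf j q e L 0)
      ≤ nu1 q (rhoL j q e L) n 0 (fun T => Qf j q e L 0 T + 5 * j * PotW j q e (gL L) 0 T) :=
    nu1_mono h0 h1 hρ (fun _ => True) (fun _ _ _ _ _ => trivial) n trivial (fun W _ => by
      have := mul_nonneg hj0 (PotW_nonneg (j := j) (e := e) h0 (Qm_gL_nonneg (L := L)) 0 W)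
      linarith)
  refine hB.trans (hA.trans (le_of_eq ?_))
  rw [Qm_Qf_eq, Qm_S1_nil, PotW_nil (by omega), GG_gL L (by simp; omega)]
  simp only [Multiset.card_zero, Nat.sub_zero, zero_add]
  ring

lemma Qf_nonneg (n : ℕ) (T : Multiset V) : 0 ≤ Qf j q e L n T := by
  unfold Qf
  refine splitSum_nonneg (fun I J => Multiset.sum_nonneg (fun x hx => ?_)) T
  obtain ⟨u, _, rfl⟩ := Multiset.mem_map.1 hx
  positivity

theorem cap_of_Q (hj : 2 ≤ j) (h0 : 0 < q) (he : 1 ≤ e) (n : ℕ) {B : ℝ} (hB : 0 ≤ B)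
    {T : Multiset V} (h : Qf j q e L 0 T ≤ B ^ 2) : Cap j (n * q) L (n / e * B) T := by
  intro u T' hT
  obtain ⟨W, rfl⟩ := Multiset.le_iff_exists_add.1 hT
  have h1 : jump j q e (gL L) 0 (T' + W) u ^ 2 ≤ B ^ 2 := by
    refine le_trans ?_ h
    rw [Multiset.cons_add, Qm_Qf_eq, Qm_S1_cons]
    have := Qm_S1_mono (Φ := fun v S => 0 * jump j q e (gL L) 0 S v)
      (Ψ := fun v S => jump j q e (gL L) 0 (u ::ₘ S) v ^ 2) (T := T' + W)
      (fun v S _ => by rw [zero_mul]; positivity)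
    rw [Qm_S1_mul, zero_mul] at this
    linarith
  have h2 : jump j q e (gL L) 0 (T' + W) u ≤ B := (abs_le_of_sq_le_sq' h1 hB).2
  obtain ⟨k, rfl⟩ : ∃ k, j = k + 2 := ⟨j - 2, by omega⟩
  have h3 : (e : ℝ) * q * SS k (fun ω => 𝔼 x, ind (L (x ::ₘ u ::ₘ ω))) (T' + W)
      ≤ jump (k + 2) q e (gL L) 0 (T' + W) u := by
    unfold jump
    have h4 : k + 2 - 1 = k + 1 := by omega
    rw [h4, sum_range_succ]
    have h5 : k + 1 - k = 1 := by omega
    rw [h5, zero_add, Nat.choose_one_right, pow_one]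
    have h6 : SS k (fun ω => GG (k + 2) (gL L) (u ::ₘ ω)) (T' + W)
        = SS k (fun ω => 𝔼 x, ind (L (x ::ₘ u ::ₘ ω))) (T' + W) := by
      refine SS_congr (fun ω _ hω => ?_)
      unfold GG
      have h7 : k + 2 - 1 - (u ::ₘ ω).card = 0 := by rw [Multiset.card_cons, hω]; omega
      rw [h7, Ex_zero, add_zero]
      rfl
    rw [h6]
    refine le_add_of_nonneg_left (sum_nonneg (fun s _ => ?_))
    exact mul_nonneg (by positivity) (SS_nonneg (fun ω _ _ => GG_nonneg Qm_gL_nonneg _))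
  have h8 : SS k (fun ω => 𝔼 x, ind (L (x ::ₘ u ::ₘ ω))) T'
      ≤ SS k (fun ω => 𝔼 x, ind (L (x ::ₘ u ::ₘ ω))) (T' + W) :=
    SS_le_of_le (fun ω => expect_nonneg (fun x _ => ind_nonneg _)) (Multiset.le_add_right _ _)
  have he0 : (0 : ℝ) < e := by exact_mod_cast he
  have h9 : (n : ℝ) * q * SS k (fun ω => 𝔼 x, ind (L (x ::ₘ u ::ₘ ω))) (T' + W)
      = n / e * ((e : ℝ) * q * SS k (fun ω => 𝔼 x, ind (L (x ::ₘ u ::ₘ ω))) (T' + W)) := by
    field_simp
  have h10 : k + 2 - 2 = k := by omega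
  rw [h10]
  calc (n : ℝ) * q * SS k (fun ω => 𝔼 x, ind (L (x ::ₘ u ::ₘ ω))) T'
      ≤ (n : ℝ) * q * SS k (fun ω => 𝔼 x, ind (L (x ::ₘ u ::ₘ ω))) (T' + W) :=
        mul_le_mul_of_nonneg_left h8 (by positivity)
    _ = _ := h9
    _ ≤ n / e * B := mul_le_mul_of_nonneg_left (h3.trans h2) (by positivity)

end Pool.Agent.P.MP_7badbe_co

end

section


open Finset Filter Topology
open scoped BigOperators

namespace Pool.Agent.P.MP_7badbe_co

variable {V : Type} [Fintype V] [Nonempty V]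

variable {j e : ℕ} {q lam η D : ℝ} {L L' bad : Multiset V → Prop}

lemma gP_nonneg (ω : Multiset V) (x : V) : 0 ≤ gP j lam η D L L' bad ω x := by
  unfold gP
  have h1 := ind_nonneg (L (x ::ₘ ω))
  have h2 := ind_nonneg (bad (x ::ₘ ω) ∨ (NoForb j lam D L' (x ::ₘ ω) ∧ Cov j lam η L' ω x))
  positivity

omit [Nonempty V] in
lemma Pt_lower (ω : Multiset V) (x : V) :
    (1 / 6 : ℝ) * gL L ω x ≤ 1 * gP j lam η D L L' bad ω x := by
  unfold gP gL
  have h1 := ind_nonneg (L (x ::ₘ ω))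
  have h2 := ind_nonneg (bad (x ::ₘ ω) ∨ (NoForb j lam D L' (x ::ₘ ω) ∧ Cov j lam η L' ω x))
  nlinarith [mul_nonneg h1 h2]

omit [Nonempty V] in
lemma Pt_upper (ω : Multiset V) (x : V) :
    (1 : ℝ) * gP j lam η D L L' bad ω x ≤ 1 / 2 * gL L ω x := by
  unfold gP gL
  have h1 := ind_nonneg (L (x ::ₘ ω))
  have h2 := ind_le_one (bad (x ::ₘ ω) ∨ (NoForb j lam D L' (x ::ₘ ω) ∧ Cov j lam η L' ω x))
  nlinarith [mul_nonneg h1 (sub_nonneg.2 h2)]

omit [Fintype V] [Nonempty V] in
lemma Pt_gL_nonneg (ω : Multiset V) (x : V) : 0 ≤ gL L ω x := ind_nonneg _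

/-- a covered edge releases one half -/
lemma Pt_half {T ω σ : Multiset V} {x : V} (hω : ω ≤ T) (hc : ω.card = j - 1)
    (hL : L (x ::ₘ ω)) (hN : NoForb j lam D L' (x ::ₘ T)) (hσ : σ ≤ ω)
    (hη : η ≤ dg j lam L' (x ::ₘ σ)) : 1 / 2 ≤ rel j (gP j lam η D L L' bad) T x := by
  have h1 : gP j lam η D L L' bad ω x ≤ rel j (gP j lam η D L L' bad) T x :=
    le_SS (F := fun ω => gP j lam η D L L' bad ω x) (fun ω => gP_nonneg ω x) hω hc
  have hN' : NoForb j lam D L' (x ::ₘ ω) := fun τ hτ hτc =>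
    hN τ (hτ.trans (Multiset.cons_le_cons x hω)) hτc
  have h2 : gP j lam η D L L' bad ω x = 1 / 2 := by
    unfold gP
    rw [ind_pos hL, ind_pos (Or.inr ⟨hN', σ, hσ, hη⟩)]
    norm_num
  linarith

lemma Pt_both {T ω ω' : Multiset V} {x : V} (hω : ω ≤ T) (hc : ω.card = j - 1)
    (hL : L (x ::ₘ ω)) (hω' : ω' ≤ T) (hc' : ω'.card = j - 1) (hL' : L' (x ::ₘ ω'))
    (hN : NoForb j lam D L (x ::ₘ T)) (hN' : NoForb j lam D L' (x ::ₘ T))
    (hCr : ¬ Cr j lam η L L' T x) :
    1 / 2 ≤ rel j (gP j lam η D L L' bad) T x ∧ 1 / 2 ≤ rel j (gP j lam η D L' L bad) T x := by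
  classical
  have e1 : ω ∩ ω' + (ω - ω ∩ ω') = ω := add_tsub_cancel_of_le (Multiset.inter_le_left)
  have e2 : ω ∩ ω' + (ω' - ω ∩ ω') = ω' := add_tsub_cancel_of_le (Multiset.inter_le_right)
  have e3 : ω ∩ ω' + (ω - ω ∩ ω') + (ω' - ω ∩ ω') ≤ T := by
    rw [e1, Multiset.le_iff_count]
    intro a
    have h1 := Multiset.le_iff_count.1 hω a
    have h2 := Multiset.le_iff_count.1 hω' a
    rw [Multiset.count_add, Multiset.count_sub, Multiset.count_inter]
    omega
  have key : ¬ (dg j lam L' (x ::ₘ (ω ∩ ω')) < η ∨ dg j lam L (x ::ₘ (ω ∩ ω')) < η) := by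
    intro h
    refine hCr ⟨ω ∩ ω', ω - ω ∩ ω', ω' - ω ∩ ω', e3, ?_, ?_, ?_, ?_, h⟩
    · rw [e1]; exact hc
    · rw [e2]; exact hc'
    · rw [e1]; exact hL
    · rw [e2]; exact hL'
  rw [not_or, not_lt, not_lt] at key
  exact ⟨Pt_half hω hc hL hN' Multiset.inter_le_left key.1,
    Pt_half hω' hc' hL' hN Multiset.inter_le_right key.2⟩

/-- the pointwise drift inequality -/
theorem pointwise (hj : 1 ≤ j) (hq : 0 ≤ q) (hlam : 0 < lam)
    (hD : ∀ r, 1 ≤ r → r < j → 5 * lam ^ r ≤ D * ((e.choose r : ℝ) * q ^ r))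
    (n : ℕ) {T : Multiset V} (hT : NoForb j lam D L T) (hT' : NoForb j lam D L' T) (x : V) :
    rhoL j q e L n T x * rhoL j q e L' n T x
        * Real.exp (jump j q e (gP j lam η D L L' bad) n T x
          + jump j q e (gP j lam η D L' L bad) n T x)
      + (1 - rhoL j q e L n T x) + (1 - rhoL j q e L' n T x) - 1
    ≤ (jump j q e (gP j lam η D L L' bad) n T x + rel j (gP j lam η D L L' bad) T x)
      + (jump j q e (gP j lam η D L' L bad) n T x + rel j (gP j lam η D L' L bad) T x)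
      + ind (Cr j lam η L L' T x) := by
  have a1 := jump_le (j := j) (e := e) hq (Pt_lower (j := j) (lam := lam) (η := η) (D := D)
    (L := L) (L' := L') (bad := bad)) n T x
  have a2 := jump_le (j := j) (e := e) hq (Pt_upper (j := j) (lam := lam) (η := η) (D := D)
    (L := L) (L' := L') (bad := bad)) n T x
  have b1 := jump_le (j := j) (e := e) hq (Pt_lower (j := j) (lam := lam) (η := η) (D := D)
    (L := L') (L' := L) (bad := bad)) n T x
  have b2 := jump_le (j := j) (e := e) hq (Pt_upper (j := j) (lam := lam) (η := η) (D := D)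
    (L := L') (L' := L) (bad := bad)) n T x
  have c1 := rel_le (j := j) (Pt_lower (j := j) (lam := lam) (η := η) (D := D)
    (L := L) (L' := L') (bad := bad)) T x
  have c2 := rel_le (j := j) (Pt_lower (j := j) (lam := lam) (η := η) (D := D)
    (L := L') (L' := L) (bad := bad)) T x
  have d1 := jump_nonneg (j := j) (e := e) hq (Pt_gL_nonneg (L := L)) n T x
  have d2 := jump_nonneg (j := j) (e := e) hq (Pt_gL_nonneg (L := L')) n T x
  have r1 := rel_nonneg (j := j) (Pt_gL_nonneg (L := L)) T x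
  have r2 := rel_nonneg (j := j) (Pt_gL_nonneg (L := L')) T x
  have i0 := ind_nonneg (Cr j lam η L L' T x)
  unfold rhoL
  by_cases h1 : 0 < rel j (gL L) T x
  · obtain ⟨g1, ω, hω, hc, hL⟩ := rel_gL_pos h1
    rw [if_pos h1]
    by_cases h2 : 0 < rel j (gL L') T x
    · obtain ⟨g2, ω', hω', hc', hL'⟩ := rel_gL_pos h2
      rw [if_pos h2]
      by_cases k1 : jump j q e (gL L) n T x < 5
      · by_cases k2 : jump j q e (gL L') n T x < 5
        · have n1 := noforb_step hq hlam hD hT k1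
          have n2 := noforb_step hq hlam hD hT' k2
          by_cases hCr : Cr j lam η L L' T x
          · rw [ind_pos hCr]
            linarith
          · obtain ⟨u1, u2⟩ := Pt_both (bad := bad) hω hc hL hω' hc' hL' n1 n2 hCr
            linarith
        · rw [not_lt] at k2
          linarith
      · rw [not_lt] at k1
        linarith
    · rw [if_neg h2]
      have := rho0_b (jump j q e (gL L') n T x)
      linarith
  · rw [if_neg h1]
    by_cases h2 : 0 < rel j (gL L') T x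
    · obtain ⟨g2, -⟩ := rel_gL_pos h2
      rw [if_pos h2]
      have := rho0_b (jump j q e (gL L) n T x)
      linarith
    · rw [if_neg h2]
      have m1 := rho0_main (x := jump j q e (gP j lam η D L L' bad) n T x) d1
        (by linarith) (by linarith)
      have m2 := rho0_main (x := jump j q e (gP j lam η D L' L bad) n T x) d2
        (by linarith) (by linarith)
      rw [two_mul (jump j q e (gP j lam η D L L' bad) n T x), Real.exp_add] at m1
      rw [two_mul (jump j q e (gP j lam η D L' L bad) n T x), Real.exp_add] at m2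
      rw [Real.exp_add]
      nlinarith [sq_nonneg (rho0 (jump j q e (gL L) n T x)
        * Real.exp (jump j q e (gP j lam η D L L' bad) n T x)
        - rho0 (jump j q e (gL L') n T x)
        * Real.exp (jump j q e (gP j lam η D L' L bad) n T x))]

theorem pointwise_le (hq : 0 ≤ q) (n : ℕ) (T : Multiset V) (x : V) :
    rhoL j q e L n T x * rhoL j q e L' n T x
        * Real.exp (jump j q e (gP j lam η D L L' bad) n T x
          + jump j q e (gP j lam η D L' L bad) n T x) ≤ Real.exp 5 := by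
  have a2 := jump_le (j := j) (e := e) hq (Pt_upper (j := j) (lam := lam) (η := η) (D := D)
    (L := L) (L' := L') (bad := bad)) n T x
  have b2 := jump_le (j := j) (e := e) hq (Pt_upper (j := j) (lam := lam) (η := η) (D := D)
    (L := L') (L' := L) (bad := bad)) n T x
  by_cases h1 : rhoL j q e L n T x = 0
  · rw [h1, zero_mul, zero_mul]
    exact (Real.exp_pos _).le
  by_cases h2 : rhoL j q e L' n T x = 0
  · rw [h2, mul_zero, zero_mul]
    exact (Real.exp_pos _).le
  have k1 := (rhoL_ne h1).2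
  have k2 := (rhoL_ne h2).2
  obtain ⟨m1, m2⟩ := rhoL_mem (j := j) (e := e) (L := L) hq n T x
  obtain ⟨m3, m4⟩ := rhoL_mem (j := j) (e := e) (L := L') hq n T x
  have p1 : rhoL j q e L n T x * rhoL j q e L' n T x ≤ 1 := mul_le_one₀ m2 m3 m4
  calc _ ≤ 1 * Real.exp (jump j q e (gP j lam η D L L' bad) n T x
          + jump j q e (gP j lam η D L' L bad) n T x) :=
        mul_le_mul_of_nonneg_right p1 (Real.exp_pos _).le
    _ ≤ Real.exp 5 := by
        rw [one_mul]
        exact Real.exp_le_exp.2 (by linarith)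

end Pool.Agent.P.MP_7badbe_co

end

section


open Finset Filter Topology
open scoped BigOperators

namespace Pool.Agent.P.MP_7badbe_co

variable {V : Type} [Fintype V] [Nonempty V]

variable {j e : ℕ} {q lam η D : ℝ} {L L' bad : Multiset V → Prop}

lemma Pair_q_lt (hq5 : Real.exp 5 * q ≤ 1) : q < 1 := by
  have h5 : (2 : ℝ) ≤ Real.exp 5 := by
    have := Real.add_one_le_exp (5 : ℝ)
    linarith
  by_contra h
  push Not at h
  nlinarith

/-- the one-step inequality in abstract form -/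
lemma Pair_step {q M s a a' : ℝ} {k Mx t : V → ℝ} (hq : 0 ≤ q) (hq1 : q < 1) (hM : 0 ≤ M)
    (hMx : ∀ x, M ≤ Mx x) (hk0 : ∀ x, 0 ≤ k x) (hk : ∀ x, k x ≤ Real.exp 5)
    (ha0 : 0 ≤ a) (ha1 : a ≤ 1) (ha0' : 0 ≤ a') (ha1' : a' ≤ 1)
    (ht : (𝔼 x, k x) + a + a' - 1 ≤ 𝔼 x, t x) (ht0 : 0 ≤ 𝔼 x, t x)
    (hs : s = q * (𝔼 x, t x) + q ^ 2 / (1 - q)) :
    (1 - q) * ((1 + q * a / (1 - q)) * (1 + q * a' / (1 - q))) * M + q * 𝔼 x, k x * Mx x
      ≤ Real.exp s * ((1 - Real.exp 5 * q) * M + Real.exp 5 * q * 𝔼 x, Mx x) := by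
  have h1q : 0 < 1 - q := by linarith
  have hA : (1 - q) * ((1 + q * a / (1 - q)) * (1 + q * a' / (1 - q)))
      = 1 - q + q * a + q * a' + q ^ 2 / (1 - q) * (a * a') := by
    field_simp
    ring
  have hq2 : 0 ≤ q ^ 2 / (1 - q) := div_nonneg (sq_nonneg _) h1q.le
  have haa : a * a' ≤ 1 := by nlinarith
  have hs0 : 0 ≤ s := by rw [hs]; positivity
  have hTh : 1 + s ≤ Real.exp s := by linarith [Real.add_one_le_exp s]
  have hTh1 : 1 ≤ Real.exp s := by linarith
  have hE : 𝔼 x, k x * Mx x ≤ (𝔼 x, k x) * M + Real.exp 5 * ((𝔼 x, Mx x) - M) := by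
    have h1 : 𝔼 x, k x * Mx x ≤ 𝔼 x, (k x * M + Real.exp 5 * (Mx x - M)) := by
      refine expect_le_expect (fun x _ => ?_)
      nlinarith [mul_nonneg (sub_nonneg.2 (hk x)) (sub_nonneg.2 (hMx x))]
    rw [expect_add_distrib, ← expect_mul, ← mul_expect, expect_sub_distrib,
      expect_const univ_nonempty] at h1
    exact h1
  have hD0 : 0 ≤ (𝔼 x, Mx x) - M := by
    have h1 : 𝔼 _x : V, M ≤ 𝔼 x, Mx x := expect_le_expect (fun x _ => hMx x)
    rw [expect_const univ_nonempty] at h1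
    linarith
  have hAk : 1 - q + q * a + q * a' + q ^ 2 / (1 - q) * (a * a') + q * (𝔼 x, k x)
      ≤ Real.exp s := by
    have h1 : q ^ 2 / (1 - q) * (a * a') ≤ q ^ 2 / (1 - q) := by nlinarith
    have h2 : q * ((𝔼 x, k x) + a + a' - 1) ≤ q * 𝔼 x, t x := mul_le_mul_of_nonneg_left ht hq
    nlinarith
  have h5 : 0 ≤ Real.exp 5 * q * ((𝔼 x, Mx x) - M) := by positivity
  rw [hA]
  have h3 : q * 𝔼 x, k x * Mx x ≤ q * ((𝔼 x, k x) * M + Real.exp 5 * ((𝔼 x, Mx x) - M)) :=
    mul_le_mul_of_nonneg_left hE hq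
  have h4 := mul_le_mul_of_nonneg_right hAk hM
  have h6 := mul_le_mul_of_nonneg_right hTh1 h5
  nlinarith

/-- the pair supermartingale -/
theorem pair_bound (hj : 1 ≤ j) (hq : 0 ≤ q) (hq5 : Real.exp 5 * q ≤ 1) (hlam : 0 < lam)
    (hD : ∀ r, 1 ≤ r → r < j → 5 * lam ^ r ≤ D * ((e.choose r : ℝ) * q ^ r))
    {F : Multiset V → ℝ} (hF0 : ∀ W, 0 ≤ F W) (hF : ∀ x W, F W ≤ F (x ::ₘ W))
    (n : ℕ) {T : Multiset V} (hT : NoForb j lam D L T) (hT' : NoForb j lam D L' T) :
    nu2 q (rhoL j q e L) (rhoL j q e L') n T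
        (fun W => Real.exp (-(n * q * cr j lam η L L' W)) * F W)
      ≤ Real.exp (Pot j q e (gP j lam η D L L' bad) n T + Pot j q e (gP j lam η D L' L bad) n T
          + n * q ^ 2 / (1 - q)) * En (Real.exp 5 * q) n T F := by
  have hq1 : q < 1 := Pair_q_lt hq5
  have h1q : 0 < 1 - q := by linarith
  have hq' : 0 ≤ Real.exp 5 * q := by positivity
  have hρ : ∀ n T x, 0 ≤ rhoL j q e L n T x ∧ rhoL j q e L n T x ≤ 1 :=
    fun n T x => rhoL_mem hq n T x
  have hρ' : ∀ n T x, 0 ≤ rhoL j q e L' n T x ∧ rhoL j q e L' n T x ≤ 1 :=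
    fun n T x => rhoL_mem hq n T x
  have hg : ∀ ω x, 0 ≤ gP j lam η D L L' bad ω x := gP_nonneg
  have hg' : ∀ ω x, 0 ≤ gP j lam η D L' L bad ω x := gP_nonneg
  induction n generalizing T with
  | zero =>
    rw [nu2_zero, En_zero]
    have h1 : 0 ≤ Pot j q e (gP j lam η D L L' bad) 0 T := Pot_nonneg hq hg 0 T
    have h2 : 0 ≤ Pot j q e (gP j lam η D L' L bad) 0 T := Pot_nonneg hq hg' 0 T
    refine mul_le_mul_of_nonneg_right (Real.exp_le_exp.2 ?_) (hF0 T)
    simp only [Nat.cast_zero, zero_mul, neg_zero, zero_div, add_zero]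
    linarith
  | succ n ih =>
    set G : Multiset V → ℝ := fun W => Real.exp (-(n * q * cr j lam η L L' W)) * F W with hG
    set c : ℝ := cr j lam η L L' T with hc
    set U : ℝ := Pot j q e (gP j lam η D L L' bad) n T + Pot j q e (gP j lam η D L' L bad) n T
          + n * q ^ 2 / (1 - q) with hU
    set X : V → ℝ := fun x => jump j q e (gP j lam η D L L' bad) n T x with hX
    set X' : V → ℝ := fun x => jump j q e (gP j lam η D L' L bad) n T x with hX'
    set r : V → ℝ := fun x => rel j (gP j lam η D L L' bad) T x with hr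
    set r' : V → ℝ := fun x => rel j (gP j lam η D L' L bad) T x with hr'
    set k : V → ℝ := fun x => rhoL j q e L n T x * rhoL j q e L' n T x * Real.exp (X x + X' x)
      with hk
    set M : ℝ := En (Real.exp 5 * q) n T F with hM
    set Mx : V → ℝ := fun x => En (Real.exp 5 * q) n (x ::ₘ T) F with hMx
    set a : ℝ := 𝔼 x, (1 - rhoL j q e L n T x) with ha
    set a' : ℝ := 𝔼 x, (1 - rhoL j q e L' n T x) with ha'
    set t : V → ℝ := fun x => (X x + r x) + (X' x + r' x) + ind (Cr j lam η L L' T x) with ht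
    have step1 : nu2 q (rhoL j q e L) (rhoL j q e L') (n + 1) T
        (fun W => Real.exp (-(((n + 1 : ℕ) : ℝ) * q * cr j lam η L L' W)) * F W)
        ≤ Real.exp (-(q * c)) * nu2 q (rhoL j q e L) (rhoL j q e L') (n + 1) T G := by
      rw [← nu2_mul]
      refine nu2_mono hq hq1 hρ hρ' (n + 1) (fun W hW => ?_)
      have h1 : c ≤ cr j lam η L L' W := cr_mono j lam η L L' hW
      simp only [hG]
      rw [← mul_assoc, ← Real.exp_add]
      refine mul_le_mul_of_nonneg_right (Real.exp_le_exp.2 ?_) (hF0 W)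
      push_cast
      nlinarith [mul_le_mul_of_nonneg_left h1 hq]
    have hM0 : 0 ≤ M := by
      have := En_mono hq' hq5 n T (F := fun _ => (0 : ℝ)) (G := F) hF0
      rwa [En_const] at this
    have hMle : ∀ x, M ≤ Mx x := by
      intro x
      simp only [hMx, hM]
      rw [En_shift]
      exact En_mono hq' hq5 n T (fun W => hF x W)
    have ha0 : 0 ≤ a := expect_nonneg (fun x _ => by linarith [(hρ n T x).2])
    have ha0' : 0 ≤ a' := expect_nonneg (fun x _ => by linarith [(hρ' n T x).2])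
    have ha1 : a ≤ 1 := by
      have h1 : a ≤ 𝔼 _x : V, (1 : ℝ) :=
        expect_le_expect (fun x _ => by linarith [(hρ n T x).1])
      rwa [expect_const univ_nonempty] at h1
    have ha1' : a' ≤ 1 := by
      have h1 : a' ≤ 𝔼 _x : V, (1 : ℝ) :=
        expect_le_expect (fun x _ => by linarith [(hρ' n T x).1])
      rwa [expect_const univ_nonempty] at h1
    have hk0 : ∀ x, 0 ≤ k x := fun x =>
      mul_nonneg (mul_nonneg (hρ n T x).1 (hρ' n T x).1) (Real.exp_pos _).le
    have hk5 : ∀ x, k x ≤ Real.exp 5 := fun x => pointwise_le hq n T x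
    have ht0 : 0 ≤ 𝔼 x, t x := by
      refine expect_nonneg (fun x _ => ?_)
      have h1 : 0 ≤ X x := jump_nonneg hq hg n T x
      have h2 : 0 ≤ X' x := jump_nonneg hq hg' n T x
      have h3 : 0 ≤ r x := rel_nonneg hg T x
      have h4 : 0 ≤ r' x := rel_nonneg hg' T x
      have h5 := ind_nonneg (Cr j lam η L L' T x)
      simp only [ht]
      linarith
    have htk : (𝔼 x, k x) + a + a' - 1 ≤ 𝔼 x, t x := by
      have h1 : 𝔼 x, (k x + (1 - rhoL j q e L n T x) + (1 - rhoL j q e L' n T x) - 1)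
          ≤ 𝔼 x, t x :=
        expect_le_expect (fun x _ => pointwise hj hq hlam hD n hT hT' x)
      rwa [expect_sub_distrib, expect_add_distrib, expect_add_distrib,
        expect_const univ_nonempty] at h1
    have hA0 : 0 ≤ (1 - q) * ((1 + q * a / (1 - q)) * (1 + q * a' / (1 - q))) := by positivity
    have step2 : nu2 q (rhoL j q e L) (rhoL j q e L') (n + 1) T G
        ≤ Real.exp U * ((1 - q) * ((1 + q * a / (1 - q)) * (1 + q * a' / (1 - q))) * M
          + q * 𝔼 x, k x * Mx x) := by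
      rw [nu2_succ]
      have h1 : nu2 q (rhoL j q e L) (rhoL j q e L') n T G ≤ Real.exp U * M := ih hT hT'
      have h2 : 𝔼 x, rhoL j q e L n T x * rhoL j q e L' n T x
            * nu2 q (rhoL j q e L) (rhoL j q e L') n (x ::ₘ T) G
          ≤ 𝔼 x, Real.exp U * (k x * Mx x) := by
        refine expect_le_expect (fun x _ => ?_)
        by_cases h0 : rhoL j q e L n T x = 0
        · simp only [hk, h0, zero_mul, mul_zero, le_refl]
        by_cases h0' : rhoL j q e L' n T x = 0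
        · simp only [hk, h0', zero_mul, mul_zero, le_refl]
        have h3 := ih (noforb_step hq hlam hD hT (rhoL_ne h0).2)
          (noforb_step hq hlam hD hT' (rhoL_ne h0').2)
        rw [Pot_cons hj, Pot_cons hj] at h3
        have h4 := mul_le_mul_of_nonneg_left h3 (mul_nonneg (hρ n T x).1 (hρ' n T x).1)
        refine h4.trans (le_of_eq ?_)
        have h5 : Pot j q e (gP j lam η D L L' bad) n T + jump j q e (gP j lam η D L L' bad) n T x
            + (Pot j q e (gP j lam η D L' L bad) n T + jump j q e (gP j lam η D L' L bad) n T x)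
            + n * q ^ 2 / (1 - q) = U + (X x + X' x) := by
          simp only [hU, hX, hX']; ring
        rw [h5, Real.exp_add]
        simp only [hk, hMx]
        ring
      rw [← mul_expect] at h2
      have h3 := mul_le_mul_of_nonneg_left h1 hA0
      have h4 := mul_le_mul_of_nonneg_left h2 hq
      nlinarith
    have step3 := Pair_step (V := V) hq hq1 hM0 hMle hk0 hk5 ha0 ha1 ha0' ha1' htk ht0 rfl
    have hEt : 𝔼 x, t x = (𝔼 x, (X x + r x)) + (𝔼 x, (X' x + r' x)) + c := by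
      simp only [ht]
      rw [expect_add_distrib, expect_add_distrib (f := fun x => X x + r x)]
      rfl
    have hfin : Pot j q e (gP j lam η D L L' bad) (n + 1) T
          + Pot j q e (gP j lam η D L' L bad) (n + 1) T + ((n + 1 : ℕ) : ℝ) * q ^ 2 / (1 - q)
        = -(q * c) + U + (q * (𝔼 x, t x) + q ^ 2 / (1 - q)) := by
      rw [Pot_succ hj, Pot_succ hj, hEt]
      simp only [hU, hX, hX', hr, hr']
      push_cast
      ring
    rw [hfin, En_succ, Real.exp_add, Real.exp_add]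
    refine step1.trans ?_
    rw [mul_assoc, mul_assoc]
    refine mul_le_mul_of_nonneg_left (step2.trans ?_) (Real.exp_pos _).le
    exact mul_le_mul_of_nonneg_left step3 (Real.exp_pos _).le

end Pool.Agent.P.MP_7badbe_co

end

section


open Finset Filter Topology
open scoped BigOperators

namespace Pool.Agent.P.MP_7badbe_co

variable {V : Type} [Fintype V] [Nonempty V]

variable {j : ℕ} {lam η : ℝ} {L L' : Multiset V → Prop}

lemma Del_edge (hj : 2 ≤ j) (K : Multiset V → Prop) {u x : V} {W J : Multiset V}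
    (hJ : J ≤ u ::ₘ W) (hu : u ∈ J) (hc : J.card = j - 1) (hK : K (x ::ₘ J)) :
    1 ≤ SS (j - 2) (fun ω => ind (K (x ::ₘ u ::ₘ ω))) W := by
  classical
  have h1 : J.erase u ≤ W := Multiset.erase_le_iff_le_cons.2 hJ
  have h2 : (J.erase u).card = j - 2 := by
    rw [Multiset.card_erase_of_mem hu, hc, Nat.pred_eq_sub_one]; omega
  have h3 := le_SS (F := fun ω => ind (K (x ::ₘ u ::ₘ ω))) (fun _ => ind_nonneg _) h1 h2
  rwa [Multiset.cons_erase hu, ind_pos hK] at h3

lemma Del_point (hj : 2 ≤ j) (u x : V) (W : Multiset V) :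
    ind (Cr j lam η L L' (u ::ₘ W) x) ≤ ind (Cr j lam η L L' W x)
      + SS (j - 2) (fun ω => ind (L (x ::ₘ u ::ₘ ω))) W
      + SS (j - 2) (fun ω => ind (L' (x ::ₘ u ::ₘ ω))) W := by
  have h0 := ind_nonneg (Cr j lam η L L' W x)
  have h1 : 0 ≤ SS (j - 2) (fun ω => ind (L (x ::ₘ u ::ₘ ω))) W :=
    SS_nonneg fun _ _ _ => ind_nonneg _
  have h2 : 0 ≤ SS (j - 2) (fun ω => ind (L' (x ::ₘ u ::ₘ ω))) W :=
    SS_nonneg fun _ _ _ => ind_nonneg _
  by_cases hC : Cr j lam η L L' (u ::ₘ W) x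
  · rw [ind_pos hC]
    obtain ⟨σ, α, α', hle, hc, hc', hL, hL', hd⟩ := hC
    by_cases hu : u ∈ σ + α + α'
    · have hle1 : σ + α ≤ u ::ₘ W := (Multiset.le_add_right _ _).trans hle
      have hle2 : σ + α' ≤ u ::ₘ W := by
        refine le_trans ?_ hle
        rw [add_right_comm]
        exact Multiset.le_add_right _ _
      rcases Multiset.mem_add.1 hu with hu | hu
      · have := Del_edge hj L hle1 hu hc hL
        linarith
      · have := Del_edge hj L' hle2 (Multiset.mem_add.2 (Or.inr hu)) hc' hL'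
        linarith
    · have h3 : Cr j lam η L L' W x :=
        ⟨σ, α, α', (Multiset.le_cons_of_notMem hu).1 hle, hc, hc', hL, hL', hd⟩
      rw [ind_pos h3]
      linarith
  · rw [ind_neg hC]
    linarith

lemma Del_one (hj : 2 ≤ j) (hlam : 0 ≤ lam) {B : ℝ} {T : Multiset V}
    (h : Cap j lam L B T) (h' : Cap j lam L' B T) {u : V} {W : Multiset V} (hu : u ::ₘ W ≤ T) :
    lam * cr j lam η L L' (u ::ₘ W) ≤ lam * cr j lam η L L' W + 2 * B := by
  have h1 := h u W hu
  have h2 := h' u W hu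
  rw [SS_expect] at h1 h2
  have h3 : cr j lam η L L' (u ::ₘ W) ≤ cr j lam η L L' W
      + 𝔼 x, SS (j - 2) (fun ω => ind (L (x ::ₘ u ::ₘ ω))) W
      + 𝔼 x, SS (j - 2) (fun ω => ind (L' (x ::ₘ u ::ₘ ω))) W := by
    unfold cr
    rw [← expect_add_distrib, ← expect_add_distrib]
    exact expect_le_expect fun x _ => Del_point hj u x W
  nlinarith [mul_le_mul_of_nonneg_left h3 hlam]

lemma Del_many (hj : 2 ≤ j) (hlam : 0 ≤ lam) {B : ℝ} {T : Multiset V}
    (h : Cap j lam L B T) (h' : Cap j lam L' B T) (W c : Multiset V) (hc : c + W ≤ T) :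
    lam * cr j lam η L L' (c + W) ≤ lam * cr j lam η L L' W + 2 * B * c.card := by
  induction c using Multiset.induction_on with
  | empty => simp
  | cons u c ih =>
    rw [Multiset.cons_add] at hc ⊢
    have h1 := Del_one (η := η) hj hlam h h' hc
    have h2 := ih ((Multiset.le_cons_self _ _).trans hc)
    rw [Multiset.card_cons]
    push_cast
    linarith

lemma Del_card (hlam : 0 ≤ lam) {c : Multiset V} (hc : 2 * j < c.card) :
    abar j lam η L L' c = 0 := by
  refine le_antisymm ?_ (abar_nonneg j hlam η L L' c)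
  have hz : ∀ (r : ℕ) (M : Multiset V), splitSum r (fun _ _ => (0 : ℝ)) M = 0 := by
    intro r M
    simp [splitSum]
  unfold abar
  refine mul_nonpos_of_nonneg_of_nonpos hlam (sum_nonpos fun s hs => ?_)
  rw [mem_range] at hs
  refine le_trans (splitSum_mono fun σ ρ h1 h2 => ?_) (hz s c).le
  refine le_trans (splitSum_mono fun α α' h3 h4 => ?_) (hz (j - 1 - s) ρ).le
  have h5 : ¬ α'.card = j - 1 - s := by
    intro h5
    rw [← h1, ← h3, Multiset.card_add, Multiset.card_add] at hc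
    omega
  rw [ind_neg h5, zero_mul]

lemma Del_conv (hj : 2 ≤ j) (hlam : 0 ≤ lam) (T : Multiset V) :
    lam * cr j lam η L L' T ≤ conv (abar j lam η L L') (fun _ => 1) T := by
  set φ : ℕ → V → Multiset V → Multiset V → Multiset V → ℝ := fun s x σ α α' =>
    ind (α'.card = j - 1 - s) * (ind (L (x ::ₘ (σ + α))) * ind (L' (x ::ₘ (σ + α')))
      * (ind (dg j lam L' (x ::ₘ σ) < η) + ind (dg j lam L (x ::ₘ σ) < η))) with hφ
  have hφ0 : ∀ s x σ α α', 0 ≤ φ s x σ α α' := fun s x σ α α' =>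
    mul_nonneg (ind_nonneg _) (mul_nonneg (mul_nonneg (ind_nonneg _) (ind_nonneg _))
      (add_nonneg (ind_nonneg _) (ind_nonneg _)))
  set a : V → Multiset V → ℝ := fun x c => lam * ∑ s ∈ range j,
    splitSum s (fun σ ρ => splitSum (j - 1 - s) (φ s x σ) ρ) c with ha
  have hs0 : ∀ x s c, 0 ≤ splitSum s (fun σ ρ => splitSum (j - 1 - s) (φ s x σ) ρ) c :=
    fun x s c => splitSum_nonneg (fun σ ρ => splitSum_nonneg (hφ0 s x σ) ρ) c
  have ha0 : ∀ x c, 0 ≤ a x c := fun x c => mul_nonneg hlam (sum_nonneg fun s _ => hs0 x s c)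
  have hab : abar j lam η L L' = fun c => 𝔼 x, a x c := by
    funext c
    simp only [ha, abar]
    rw [← mul_expect, expect_sum_comm]
    congr 1
    refine sum_congr rfl fun s _ => ?_
    rw [← splitSum_expect]
    congr 1
    funext σ ρ
    rw [← splitSum_expect]
    congr 1
    funext α α'
    simp only [hφ]
    rw [← mul_expect]
  rw [hab, conv_expect]
  unfold cr
  rw [mul_expect]
  refine expect_le_expect fun x _ => ?_
  by_cases hC : Cr j lam η L L' T x
  · rw [ind_pos hC]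
    obtain ⟨σ, α, α', hle, hc, hc', hL, hL', hd⟩ := hC
    obtain ⟨W, rfl⟩ := Multiset.le_iff_exists_add.1 hle
    refine le_trans ?_ (le_conv (ha0 x) (fun _ => zero_le_one) (σ + α + α') W)
    rw [mul_one, mul_one]
    rw [Multiset.card_add] at hc hc'
    have h1 : 1 ≤ φ σ.card x σ α α' := by
      simp only [hφ]
      rw [ind_pos (by omega : α'.card = j - 1 - σ.card), ind_pos hL, ind_pos hL']
      have h2 := ind_nonneg (dg j lam L' (x ::ₘ σ) < η)
      have h3 := ind_nonneg (dg j lam L (x ::ₘ σ) < η)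
      rcases hd with hd | hd
      · rw [ind_pos hd]; linarith
      · rw [ind_pos hd]; linarith
    have h2 := le_splitSum (hφ0 σ.card x σ) α α' (by omega : α.card = j - 1 - σ.card)
    have h3 := le_splitSum (Φ := fun σ' ρ => splitSum (j - 1 - σ.card) (φ σ.card x σ') ρ)
      (fun σ' ρ => splitSum_nonneg (hφ0 σ.card x σ') ρ) σ (α + α') rfl
    have h4 := single_le_sum (f := fun s =>
      splitSum s (fun σ' ρ => splitSum (j - 1 - s) (φ s x σ') ρ) (σ + (α + α')))
      (fun s _ => hs0 x s _) (mem_range.2 (by omega : σ.card < j))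
    rw [add_assoc]
    simp only [ha]
    exact le_mul_of_one_le_right hlam (h1.trans (h2.trans (h3.trans h4)))
  · rw [ind_neg hC, mul_zero]
    have := le_conv (ha0 x) (fun _ => zero_le_one) 0 T
    rw [zero_add] at this
    exact le_trans (mul_nonneg (ha0 x 0) zero_le_one) this

lemma Del_Sr (hj : 2 ≤ j) (hlam : 0 ≤ lam) {B b : ℝ} (hB : 0 ≤ B) (hb : 1 ≤ b)
    (hBb : 4 * j * B ≤ b) {T : Multiset V} (h : Cap j lam L B T) (h' : Cap j lam L' B T)
    (r : ℕ) (T' : Multiset V) (hT : T' ≤ T) (hr : r * b ≤ lam * cr j lam η L L' T') :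
    1 ≤ Sr (abar j lam η L L') r T' := by
  induction r generalizing T' with
  | zero => exact le_rfl
  | succ r ih =>
    have h1 := Del_conv (η := η) (L := L) (L' := L') hj hlam T'
    have h2 : conv (abar j lam η L L') (fun _ => 1) T'
        ≤ conv (abar j lam η L L') (Sr (abar j lam η L L') r) T' := by
      refine conv_mono fun c W hcW => ?_
      rcases lt_or_ge (2 * j) c.card with hc | hc
      · rw [Del_card hlam hc, zero_mul, zero_mul]
      · refine mul_le_mul_of_nonneg_left (ih W ?_ ?_) (abar_nonneg j hlam η L L' c)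
        · exact le_trans (hcW ▸ Multiset.le_add_left W c) hT
        · have h3 := Del_many (η := η) hj hlam h h' W c (hcW ▸ hT)
          have h4 : (c.card : ℝ) ≤ 2 * j := by exact_mod_cast hc
          rw [hcW] at h3
          push_cast at hr
          nlinarith [mul_le_mul_of_nonneg_left h4 hB]
    have h3 : (0 : ℝ) ≤ r * b := by positivity
    push_cast at hr
    show 1 ≤ conv (abar j lam η L L') (Sr (abar j lam η L L') r) T'
    linarith

/-- deletion method -/
theorem deletion (hj : 2 ≤ j) (hlam : 0 ≤ lam) {B b : ℝ} (hB : 0 ≤ B) (hb : 1 ≤ b)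
    (hBb : 4 * j * B ≤ b) {R : ℕ} (hR : lam ≤ R) {T : Multiset V}
    (h : Cap j lam L B T) (h' : Cap j lam L' B T) :
    Real.exp (lam * cr j lam η L L' T) ≤ FF (abar j lam η L L') b R T := by
  have hb0 : 0 < b := by linarith
  have hX0 : 0 ≤ lam * cr j lam η L L' T := mul_nonneg hlam (cr_nonneg j lam η L L' T)
  have hX1 : lam * cr j lam η L L' T ≤ R :=
    (mul_le_of_le_one_right hlam (cr_le_one j lam η L L' T)).trans hR
  have hS := Del_Sr (η := η) hj hlam hB hb hBb h h' ⌊lam * cr j lam η L L' T / b⌋₊ T le_rfl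
    ((le_div_iff₀ hb0).1 (Nat.floor_le (div_nonneg hX0 hb0.le)))
  have hlt := (div_lt_iff₀ hb0).1 (Nat.lt_floor_add_one (lam * cr j lam η L L' T / b))
  have hrR : ⌊lam * cr j lam η L L' T / b⌋₊ ≤ R :=
    Nat.floor_le_of_le ((div_le_self hX0 hb).trans hX1)
  generalize ⌊lam * cr j lam η L L' T / b⌋₊ = r at hS hlt hrR
  have h1 := single_le_sum (f := fun r : ℕ => Real.exp (b * r) * Sr (abar j lam η L L') r T)
    (s := range (R + 1)) (fun r _ => mul_nonneg (Real.exp_pos _).le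
      (Sr_nonneg (abar_nonneg j hlam η L L') r T)) (mem_range.2 (Nat.lt_succ_of_le hrR))
  unfold FF
  calc Real.exp (lam * cr j lam η L L' T) ≤ Real.exp (b + b * r) :=
        Real.exp_le_exp.2 (by linarith)
    _ = Real.exp b * Real.exp (b * r) := Real.exp_add _ _
    _ ≤ _ := mul_le_mul_of_nonneg_left
        ((le_mul_of_one_le_right (Real.exp_pos _).le hS).trans h1) (Real.exp_pos _).le

end Pool.Agent.P.MP_7badbe_co

end

section


open Finset Filter Topology
open scoped BigOperators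

namespace Pool.Agent.P.MP_7badbe_co

variable {V : Type} [Fintype V] [Nonempty V]

variable {q : ℝ}

lemma BK_succ (n : ℕ) (F : Multiset V → ℝ) :
    En q (n + 1) 0 F = (1 - q) * En q n 0 F + q * 𝔼 x, En q n 0 (fun W => F (x ::ₘ W)) := by
  rw [En_succ]
  simp only [En_shift]

lemma BK_nonneg (h0 : 0 ≤ q) (h1 : q ≤ 1) (n : ℕ) {F : Multiset V → ℝ} (hF : ∀ W, 0 ≤ F W) :
    0 ≤ En q n 0 F := by
  have := En_mono h0 h1 n (0 : Multiset V) (F := fun _ => 0) (G := F) hF
  rwa [En_const] at this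

lemma BK_conv_nonneg {a F : Multiset V → ℝ} (ha : ∀ c, 0 ≤ a c) (hF : ∀ W, 0 ≤ F W)
    (T : Multiset V) : 0 ≤ conv a F T := by
  have h := le_conv ha hF 0 T
  rw [zero_add] at h
  exact (mul_nonneg (ha 0) (hF T)).trans h

lemma BK_conv_succ (n : ℕ) (a F : Multiset V → ℝ) :
    En q (n + 1) 0 (conv a F) = (1 - q) * En q n 0 (conv a F)
      + q * (𝔼 x, En q n 0 (conv a (fun W => F (x ::ₘ W)))
        + 𝔼 x, En q n 0 (conv (fun c => a (x ::ₘ c)) F)) := by
  rw [BK_succ, ← expect_add_distrib]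
  congr 2
  refine expect_congr rfl (fun x _ => ?_)
  simp only [conv_cons]
  rw [En_add]

theorem En_conv (h0 : 0 ≤ q) (h1 : q ≤ 1) (n : ℕ) {a F : Multiset V → ℝ} (ha : ∀ c, 0 ≤ a c)
    (hF0 : ∀ W, 0 ≤ F W) (hF : ∀ x W, F W ≤ F (x ::ₘ W)) :
    En q n 0 (conv a F) ≤ En q n 0 (conv a (fun _ => 1)) * En q n 0 F := by
  induction n generalizing a F with
  | zero => simp only [En_zero, conv_nil, mul_one, le_refl]
  | succ n ih =>
    have i1 := ih ha hF0 hF
    have i2 : 𝔼 x, En q n 0 (conv a (fun W => F (x ::ₘ W)))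
        ≤ En q n 0 (conv a (fun _ => 1)) * 𝔼 x, En q n 0 (fun W => F (x ::ₘ W)) := by
      rw [mul_expect]
      refine expect_le_expect (fun x _ => ih ha (fun W => hF0 _) (fun y W => ?_))
      rw [Multiset.cons_swap]
      exact hF y _
    have i3 : 𝔼 x, En q n 0 (conv (fun c => a (x ::ₘ c)) F)
        ≤ (𝔼 x, En q n 0 (conv (fun c => a (x ::ₘ c)) (fun _ => 1))) * En q n 0 F := by
      rw [expect_mul]
      exact expect_le_expect (fun x _ => ih (fun c => ha _) hF0 hF)
    have i4 : 0 ≤ 𝔼 x, En q n 0 (conv (fun c => a (x ::ₘ c)) (fun _ => 1)) :=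
      expect_nonneg (fun x _ => BK_nonneg h0 h1 n
        (BK_conv_nonneg (fun c => ha _) (fun _ => zero_le_one)))
    have i5 : En q n 0 F ≤ 𝔼 x, En q n 0 (fun W => F (x ::ₘ W)) :=
      le_expect univ_nonempty (fun x _ => En_mono h0 h1 n 0 (fun W => hF x W))
    rw [BK_conv_succ, BK_conv_succ, BK_succ n F, expect_const univ_nonempty]
    set A := En q n 0 (conv a (fun _ => 1))
    set B := 𝔼 x, En q n 0 (conv (fun c => a (x ::ₘ c)) (fun _ => 1))
    set M := En q n 0 F
    set M' := 𝔼 x, En q n 0 (fun W => F (x ::ₘ W))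
    have e1 := mul_le_mul_of_nonneg_left i1 (sub_nonneg.2 h1)
    have e2 := mul_le_mul_of_nonneg_left (add_le_add i2 i3) h0
    have e3 : 0 ≤ q * B * (q * (M' - M)) :=
      mul_nonneg (mul_nonneg h0 i4) (mul_nonneg h0 (sub_nonneg.2 i5))
    nlinarith

lemma BK_Sr (h0 : 0 ≤ q) (h1 : q ≤ 1) (n : ℕ) {a : Multiset V → ℝ} (ha : ∀ c, 0 ≤ a c)
    {m : ℝ} (hm : En q n 0 (conv a (fun _ => 1)) ≤ m) (r : ℕ) :
    En q n 0 (Sr a r) ≤ m ^ r := by
  have hm0 : 0 ≤ m :=
    (BK_nonneg h0 h1 n (BK_conv_nonneg ha (fun _ => zero_le_one))).trans hm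
  induction r with
  | zero =>
    show En q n 0 (fun _ => (1 : ℝ)) ≤ m ^ 0
    rw [En_const, pow_zero]
  | succ r ih =>
    show En q n 0 (conv a (Sr a r)) ≤ m ^ (r + 1)
    refine (En_conv h0 h1 n ha (Sr_nonneg ha r) (fun x W => Sr_cons ha r x W)).trans ?_
    rw [pow_succ']
    exact mul_le_mul hm ih (BK_nonneg h0 h1 n (Sr_nonneg ha r)) hm0

theorem En_FF (h0 : 0 ≤ q) (h1 : q ≤ 1) (n : ℕ) {a : Multiset V → ℝ} (ha : ∀ c, 0 ≤ a c)
    {b m : ℝ} (hm : En q n 0 (conv a (fun _ => 1)) ≤ m) (hb : Real.exp b * m ≤ 1 / 2) (R : ℕ) :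
    En q n 0 (FF a b R) ≤ 2 * Real.exp b := by
  have hm0 : 0 ≤ m :=
    (BK_nonneg h0 h1 n (BK_conv_nonneg ha (fun _ => zero_le_one))).trans hm
  have e : En q n 0 (FF a b R)
      = Real.exp b * ∑ r ∈ range (R + 1), Real.exp (b * r) * En q n 0 (Sr a r) := by
    show En q n 0 (fun T => Real.exp b * ∑ r ∈ range (R + 1), Real.exp (b * r) * Sr a r T) = _
    rw [En_mul, En_sum]
    simp only [En_mul]
  have h2 : ∑ r ∈ range (R + 1), Real.exp (b * r) * En q n 0 (Sr a r)
      ≤ ∑ r ∈ range (R + 1), (1 / 2 : ℝ) ^ r := by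
    refine sum_le_sum (fun r _ => ?_)
    calc Real.exp (b * r) * En q n 0 (Sr a r) ≤ Real.exp (b * r) * m ^ r :=
          mul_le_mul_of_nonneg_left (BK_Sr h0 h1 n ha hm r) (Real.exp_pos _).le
      _ = (Real.exp b * m) ^ r := by rw [mul_pow, mul_comm b, Real.exp_nat_mul]
      _ ≤ (1 / 2 : ℝ) ^ r := pow_le_pow_left₀ (mul_nonneg (Real.exp_pos _).le hm0) hb r
  have h3 := sum_geometric_two_le (R + 1)
  rw [e, mul_comm 2]
  exact mul_le_mul_of_nonneg_left (h2.trans h3) (Real.exp_pos _).le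

theorem En_SS (n s : ℕ) (F : Multiset V → ℝ) :
    En q n 0 (SS s F) = (n.choose s : ℝ) * q ^ s * Ex s F := by
  induction n generalizing s F with
  | zero =>
    rw [En_zero]
    cases s with
    | zero => simp [SS_zero]
    | succ s => simp [SS_nil]
  | succ n ih =>
    cases s with
    | zero =>
      have : SS 0 F = fun _ => F 0 := funext (fun T => SS_zero F T)
      rw [this, En_const]
      simp
    | succ s =>
      rw [BK_succ]
      simp only [SS_cons, En_add]
      have e : ∀ x, En q n 0 (fun W => SS s (fun ω => F (x ::ₘ ω)) W)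
          = (n.choose s : ℝ) * q ^ s * Ex s (fun ω => F (x ::ₘ ω)) := fun x => ih s _
      have e' : En q n 0 (fun W => SS (s + 1) F W)
          = (n.choose (s + 1) : ℝ) * q ^ (s + 1) * Ex (s + 1) F := ih _ _
      simp only [e, e']
      rw [expect_add_distrib, expect_const univ_nonempty, ← mul_expect, ← Ex_succ,
        Nat.choose_succ_succ']
      push_cast
      ring

end Pool.Agent.P.MP_7badbe_co

end
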