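import Pool.Agent.P.MP_7badbe_co.Sp.B

set_option autoImplicit false
set_option linter.unusedSectionVars false

section


open Finset Filter Topology
open scoped BigOperators

namespace Pool.Agent.P.MP_7badbe_co

variable {V : Type} [Fintype V] [Nonempty V]

/-- the inner weight of one term of `abar` -/
noncomputable def Mc_w (j : ℕ) (lam η : ℝ) (L L' : Multiset V → Prop)
    (σ α α' : Multiset V) : ℝ :=
  𝔼 x, ind (L (x ::ₘ (σ + α))) * ind (L' (x ::ₘ (σ + α')))
      * (ind (dg j lam L' (x ::ₘ σ) < η) + ind (dg j lam L (x ::ₘ σ) < η))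

/-- one term of `abar` -/
noncomputable def Mc_a (j : ℕ) (lam η : ℝ) (L L' : Multiset V → Prop) (s : ℕ)
    (c : Multiset V) : ℝ :=
  splitSum s (fun σ ρ => splitSum (j - 1 - s) (fun α α' =>
    ind (α'.card = j - 1 - s) * Mc_w j lam η L L' σ α α') ρ) c

omit [Nonempty V] in
lemma Mc_abar (j : ℕ) (lam η : ℝ) (L L' : Multiset V → Prop) (c : Multiset V) :
    abar j lam η L L' c = lam * ∑ s ∈ range j, Mc_a j lam η L L' s c := rfl

omit [Fintype V] [Nonempty V] in
lemma Mc_split_zero {r : ℕ} {Φ : Multiset V → Multiset V → ℝ} {M : Multiset V}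
    (h : ∀ I J, I + J = M → I.card = r → Φ I J = 0) : splitSum r Φ M = 0 := by
  unfold splitSum
  refine Multiset.sum_eq_zero (fun x hx => ?_)
  obtain ⟨p, hp, rfl⟩ := Multiset.mem_map.1 hx
  split_ifs with hc
  · exact h _ _ (Multiset.mem_antidiagonal.1 hp) hc
  · rfl

omit [Nonempty V] in
lemma Mc_a_zero (j : ℕ) (lam η : ℝ) (L L' : Multiset V → Prop) (s : ℕ) (c : Multiset V)
    (hc : c.card ≠ s + 2 * (j - 1 - s)) : Mc_a j lam η L L' s c = 0 := by
  refine Mc_split_zero (fun σ ρ h1 h2 => Mc_split_zero (fun α α' h3 h4 => ?_))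
  rw [ind_neg, zero_mul]
  intro h5
  apply hc
  rw [← h1, ← h3, Multiset.card_add, Multiset.card_add, h2, h4, h5]
  ring

omit [Nonempty V] in
lemma Mc_conv (j : ℕ) (lam η : ℝ) (L L' : Multiset V → Prop) (T : Multiset V) :
    conv (abar j lam η L L') (fun _ => 1) T
      = lam * ∑ s ∈ range j, SS (s + 2 * (j - 1 - s)) (Mc_a j lam η L L' s) T := by
  unfold conv SS splitSum
  rw [← Multiset.sum_map_sum, ← Multiset.sum_map_mul_left]
  congr 1
  refine Multiset.map_congr rfl (fun p _ => ?_)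
  rw [mul_one, Mc_abar]
  congr 1
  refine Finset.sum_congr rfl (fun s _ => ?_)
  split_ifs with hc
  · rfl
  · exact Mc_a_zero j lam η L L' s _ hc

omit [Nonempty V] in
lemma Mc_light {j s : ℕ} (hs : s < j) {lam η : ℝ} (hlam : 0 < lam) (hη : 0 ≤ η)
    (L : Multiset V → Prop) (x : V) {σ : Multiset V} (hσ : σ.card = s) :
    Ex (j - 1 - s) (fun α => ind (L (x ::ₘ (σ + α)))) * ind (dg j lam L (x ::ₘ σ) < η)
      ≤ η / lam ^ (j - 1 - s) := by
  have hp : 0 < lam ^ (j - 1 - s) := pow_pos hlam _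
  by_cases h : dg j lam L (x ::ₘ σ) < η
  · rw [ind_pos h, mul_one, le_div_iff₀ hp, mul_comm]
    unfold dg at h
    have e : j - (x ::ₘ σ).card = j - 1 - s := by
      rw [Multiset.card_cons, hσ]; omega
    rw [e] at h
    simp only [Multiset.cons_add] at h
    exact h.le
  · rw [ind_neg h, mul_zero]
    exact div_nonneg hη hp.le

omit [Nonempty V] in
lemma Mc_full {j s : ℕ} (hs : s < j) (L : Multiset V → Prop) :
    Ex s (fun σ => 𝔼 x, Ex (j - 1 - s) (fun α => ind (L (x ::ₘ (σ + α)))))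
      = Ex j (fun J => ind (L J)) := by
  have e : j = (s + (j - 1 - s)) + 1 := by omega
  conv_rhs => rw [e, Ex_succ', Ex_split]
  simp only [Ex_expect]

lemma Mc_inner {j s : ℕ} (hs : s < j) {lam η d : ℝ} (hlam : 0 < lam) (hη : 0 ≤ η)
    {L L' : Multiset V → Prop}
    (hd : Ex j (fun J => ind (L J)) ≤ d) (hd' : Ex j (fun J => ind (L' J)) ≤ d) :
    Ex s (fun σ => Ex (j - 1 - s) (fun α => Ex (j - 1 - s) (fun α' =>
      Mc_w j lam η L L' σ α α'))) ≤ 2 * (η / lam ^ (j - 1 - s)) * d := by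
  set r := j - 1 - s with hr
  have hk : 0 ≤ η / lam ^ r := div_nonneg hη (pow_pos hlam _).le
  have key : ∀ σ : Multiset V, σ.card = s →
      Ex r (fun α => Ex r (fun α' => Mc_w j lam η L L' σ α α'))
        ≤ η / lam ^ r * (𝔼 x, Ex r (fun α => ind (L (x ::ₘ (σ + α)))))
          + η / lam ^ r * (𝔼 x, Ex r (fun α => ind (L' (x ::ₘ (σ + α))))) := by
    intro σ hσ
    unfold Mc_w
    simp only [Ex_expect, mul_expect]
    rw [← expect_add_distrib]
    refine expect_le_expect (fun x _ => ?_)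
    have e1 : Ex r (fun α => Ex r (fun α' => ind (L (x ::ₘ (σ + α))) * ind (L' (x ::ₘ (σ + α')))
        * (ind (dg j lam L' (x ::ₘ σ) < η) + ind (dg j lam L (x ::ₘ σ) < η))))
        = Ex r (fun α => ind (L (x ::ₘ (σ + α)))) * Ex r (fun α => ind (L' (x ::ₘ (σ + α))))
          * (ind (dg j lam L' (x ::ₘ σ) < η) + ind (dg j lam L (x ::ₘ σ) < η)) := by
      simp only [Ex_mul', Ex_mul]
    rw [e1]
    have h1 := Mc_light hs hlam hη L x hσ
    have h2 := Mc_light hs hlam hη L' x hσ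
    rw [← hr] at h1 h2
    have p1 : 0 ≤ Ex r (fun α => ind (L (x ::ₘ (σ + α)))) := Ex_nonneg (fun _ _ => ind_nonneg _)
    have p2 : 0 ≤ Ex r (fun α => ind (L' (x ::ₘ (σ + α)))) := Ex_nonneg (fun _ _ => ind_nonneg _)
    have q1 := mul_le_mul_of_nonneg_left h2 p1
    have q2 := mul_le_mul_of_nonneg_left h1 p2
    nlinarith
  refine (Ex_mono key).trans ?_
  rw [Ex_add, Ex_mul, Ex_mul, hr, Mc_full hs L, Mc_full hs L', ← hr]
  have q1 := mul_le_mul_of_nonneg_left hd hk
  have q2 := mul_le_mul_of_nonneg_left hd' hk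
  linarith

lemma Mc_Ex_a {j s : ℕ} (hs : s < j) {lam η d : ℝ} (hlam : 0 < lam) (hη : 0 ≤ η)
    {L L' : Multiset V → Prop}
    (hd : Ex j (fun J => ind (L J)) ≤ d) (hd' : Ex j (fun J => ind (L' J)) ≤ d) :
    Ex (s + 2 * (j - 1 - s)) (Mc_a j lam η L L' s)
      ≤ (((s + 2 * (j - 1 - s)).choose s * (2 * (j - 1 - s)).choose (j - 1 - s) : ℕ) : ℝ)
        * (2 * (η / lam ^ (j - 1 - s)) * d) := by
  have h := Mc_inner hs hlam hη hd hd'
  set r := j - 1 - s with hr
  have e0 : Mc_a j lam η L L' s = splitSum s (fun σ ρ => splitSum r (fun α α' =>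
    ind (α'.card = r) * Mc_w j lam η L L' σ α α') ρ) := rfl
  have e1 : s + 2 * r - s = 2 * r := by omega
  have e2 : 2 * r - r = r := by omega
  rw [e0, Ex_splitSum, e1]
  have e3 : ∀ σ : Multiset V, Ex (2 * r) (fun ρ => splitSum r (fun α α' =>
      ind (α'.card = r) * Mc_w j lam η L L' σ α α') ρ)
      = ((2 * r).choose r : ℝ) * Ex r (fun α => Ex r (fun α' => Mc_w j lam η L L' σ α α')) := by
    intro σ
    have := Ex_splitSum (2 * r) r (fun α α' => ind (α'.card = r) * Mc_w j lam η L L' σ α α')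
    rw [e2] at this
    refine this.trans ?_
    congr 1
    refine Ex_congr (fun α _ => Ex_congr (fun α' h' => ?_))
    rw [ind_pos h', one_mul]
  simp only [e3, Ex_mul]
  push_cast
  rw [mul_assoc]
  refine mul_le_mul_of_nonneg_left (mul_le_mul_of_nonneg_left h ?_) ?_ <;> positivity

lemma Mc_choose (n s r : ℕ) :
    n.choose (s + 2 * r) * ((s + 2 * r).choose s * (2 * r).choose r) ≤ n ^ (s + 2 * r) := by
  have h1 : (s + 2 * r).choose s * (2 * r).choose r ≤ (s + 2 * r).factorial := by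
    have a1 := Nat.add_choose_mul_factorial_mul_factorial (2 * r) s
    have a2 : (2 * r).choose r ≤ (2 * r).factorial := by
      have := Nat.choose_mul_factorial_mul_factorial (show r ≤ 2 * r by omega)
      calc (2 * r).choose r ≤ (2 * r).choose r * r.factorial * (2 * r - r).factorial := by
            rw [mul_assoc]
            exact Nat.le_mul_of_pos_right _ (by positivity)
        _ = _ := this
    rw [add_comm (2 * r) s] at a1
    calc (s + 2 * r).choose s * (2 * r).choose r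
        ≤ (s + 2 * r).choose s * (2 * r).factorial := Nat.mul_le_mul_left _ a2
      _ ≤ (s + 2 * r).choose s * (2 * r).factorial * s.factorial :=
          Nat.le_mul_of_pos_right _ (by positivity)
      _ = _ := a1
  calc n.choose (s + 2 * r) * ((s + 2 * r).choose s * (2 * r).choose r)
      ≤ n.choose (s + 2 * r) * (s + 2 * r).factorial := Nat.mul_le_mul_left _ h1
    _ = n.descFactorial (s + 2 * r) := by
        rw [Nat.descFactorial_eq_factorial_mul_choose, mul_comm]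
    _ ≤ _ := Nat.descFactorial_le_pow _ _

/-- the mean cross mass is small -/
theorem cross_mass {j n : ℕ} (hj : 1 ≤ j) {q C η d : ℝ} (hq : 0 ≤ q) (hC : 1 ≤ C)
    (hCq : C * q ≤ 1) (hlam : 1 ≤ n * q) (hη : 0 ≤ η) {L L' : Multiset V → Prop}
    (hd : Ex j (fun J => ind (L J)) ≤ d) (hd' : Ex j (fun J => ind (L' J)) ≤ d) :
    En (C * q) n 0 (conv (abar j (n * q) η L L') (fun _ => 1))
      ≤ 2 * j * C ^ (2 * j) * η * (n * q) ^ j * d := by
  have hd0 : 0 ≤ d := (Ex_nonneg (fun _ _ => ind_nonneg _)).trans hd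
  have hl0 : (0 : ℝ) < n * q := by linarith
  have e0 : conv (abar j (n * q) η L L') (fun _ => 1) = fun T => (n * q) *
      ∑ s ∈ range j, SS (s + 2 * (j - 1 - s)) (Mc_a j (n * q) η L L' s) T :=
    funext (Mc_conv j (n * q) η L L')
  rw [e0, En_mul, En_sum, Finset.mul_sum]
  have key : ∀ s ∈ range j, (n * q) * En (C * q) n 0
      (SS (s + 2 * (j - 1 - s)) (Mc_a j (n * q) η L L' s))
      ≤ 2 * C ^ (2 * j) * η * (n * q) ^ j * d := by
    intro s hs
    have hs' := Finset.mem_range.1 hs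
    have h := Mc_Ex_a hs' hl0 hη hd hd'
    rw [En_SS]
    set r := j - 1 - s with hr
    have hc : ((n.choose (s + 2 * r) : ℕ) : ℝ) *
        (((s + 2 * r).choose s * (2 * r).choose r : ℕ) : ℝ) ≤ (n : ℝ) ^ (s + 2 * r) := by
      exact_mod_cast Mc_choose n s r
    have hCp : C ^ (s + 2 * r) ≤ C ^ (2 * j) := pow_le_pow_right₀ hC (by omega)
    have hk : 0 ≤ 2 * (η / (n * q) ^ r) * d := by positivity
    have hC0 : 0 ≤ C := by linarith
    have hj' : j = s + r + 1 := by omega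
    have e1 : (n * q : ℝ) * ((n : ℝ) ^ (s + 2 * r) * (C * q) ^ (s + 2 * r)
        * (2 * (η / (n * q) ^ r) * d)) = 2 * C ^ (s + 2 * r) * η * (n * q) ^ j * d := by
      have hp : ((n : ℝ) * q) ^ r ≠ 0 := (pow_pos hl0 _).ne'
      have e2 : (n : ℝ) ^ (s + 2 * r) * (C * q) ^ (s + 2 * r)
          = C ^ (s + 2 * r) * ((n * q) ^ s * (n * q) ^ r * (n * q) ^ r) := by
        rw [← pow_add, ← pow_add, show s + r + r = s + 2 * r by ring, mul_pow, mul_pow]
        ring
      rw [e2, hj', pow_succ, pow_add ((n : ℝ) * q) s r]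
      field_simp
    calc (n * q : ℝ) * ((n.choose (s + 2 * r) : ℝ) * (C * q) ^ (s + 2 * r)
          * Ex (s + 2 * r) (Mc_a j (n * q) η L L' s))
        ≤ (n * q : ℝ) * ((n.choose (s + 2 * r) : ℝ) * (C * q) ^ (s + 2 * r)
          * ((((s + 2 * r).choose s * (2 * r).choose r : ℕ) : ℝ)
            * (2 * (η / (n * q) ^ r) * d))) := by
          refine mul_le_mul_of_nonneg_left (mul_le_mul_of_nonneg_left h ?_) hl0.le
          positivity
      _ = (n * q : ℝ) * (((n.choose (s + 2 * r) : ℝ)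
          * (((s + 2 * r).choose s * (2 * r).choose r : ℕ) : ℝ)) * ((C * q) ^ (s + 2 * r)
            * (2 * (η / (n * q) ^ r) * d))) := by ring
      _ ≤ (n * q : ℝ) * ((n : ℝ) ^ (s + 2 * r) * ((C * q) ^ (s + 2 * r)
            * (2 * (η / (n * q) ^ r) * d))) := by
          refine mul_le_mul_of_nonneg_left (mul_le_mul_of_nonneg_right hc ?_) hl0.le
          positivity
      _ = 2 * C ^ (s + 2 * r) * η * (n * q) ^ j * d := by rw [← e1]; ring
      _ ≤ _ := by gcongr
  refine (Finset.sum_le_sum key).trans (le_of_eq ?_)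
  rw [Finset.sum_const, Finset.card_range, nsmul_eq_mul]
  ring

end Pool.Agent.P.MP_7badbe_co

end

section


open Finset Filter Topology
open scoped BigOperators

namespace Pool.Agent.P.MP_7badbe_co

variable {V : Type} [Fintype V] [Nonempty V]

/-- the weight with a fixed part `R` -/
noncomputable def CovF (j : ℕ) (lam η D : ℝ) (L : Multiset V → Prop) (R J : Multiset V) : ℝ :=
  ind (NoForb j lam D L (R + J)) * lam ^ cnt j lam η L (R + J) J

open Classical in
/-- weight of a peeled block -/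
noncomputable def CovG (j : ℕ) (lam η D : ℝ) (L : Multiset V → Prop) (r : ℕ)
    (R I : Multiset V) : ℝ :=
  ∑ t ∈ R.powerset.toFinset, ind (η ≤ dg j lam L (t + I)) * ind (dg j lam L t < D) * lam ^ r

omit [Nonempty V] in
lemma Cov_F_nonneg {j : ℕ} {lam η D : ℝ} (hlam : 1 ≤ lam) (L : Multiset V → Prop)
    (R J : Multiset V) : 0 ≤ CovF j lam η D L R J :=
  mul_nonneg (ind_nonneg _) (pow_nonneg (by linarith) _)

omit [Nonempty V] in
lemma Cov_G_nonneg {j : ℕ} {lam η D : ℝ} (hlam : 1 ≤ lam) (L : Multiset V → Prop) (r : ℕ)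
    (R I : Multiset V) : 0 ≤ CovG j lam η D L r R I :=
  sum_nonneg fun _ _ =>
    mul_nonneg (mul_nonneg (ind_nonneg _) (ind_nonneg _)) (pow_nonneg (by linarith) _)

lemma Cov_dg_nonneg {j : ℕ} {lam : ℝ} (hlam : 1 ≤ lam) (L : Multiset V → Prop)
    (t : Multiset V) : 0 ≤ dg j lam L t :=
  mul_nonneg (pow_nonneg (by linarith) _) (Ex_nonneg fun _ _ => ind_nonneg _)

omit [Nonempty V] in
lemma Cov_dg_mean {j r : ℕ} (lam : ℝ) (L : Multiset V → Prop) (t : Multiset V)
    (h : t.card + r ≤ j) : Ex r (fun I => dg j lam L (t + I)) * lam ^ r = dg j lam L t := by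
  obtain ⟨c, hc⟩ := Nat.exists_eq_add_of_le h
  have h1 : j - t.card = r + c := by omega
  have h2 : Ex r (fun I => dg j lam L (t + I))
      = Ex r (fun I => lam ^ c * Ex c (fun B => ind (L (t + (I + B))))) := by
    refine Ex_congr (fun I hI => ?_)
    have h3 : j - (t + I).card = c := by rw [Multiset.card_add]; omega
    simp only [dg, h3, add_assoc]
  rw [h2, Ex_mul, dg, h1, Ex_split, pow_add]
  ring

lemma Cov_G_mean {j r : ℕ} {lam η D : ℝ} (hlam : 1 ≤ lam) (hη : 0 < η) (hD : η ≤ D)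
    (L : Multiset V → Prop) (R : Multiset V) (h : R.card + r ≤ j) :
    Ex r (CovG j lam η D L r R) ≤ 2 ^ j * (D / η) := by
  classical
  have hq : 0 ≤ D / η := div_nonneg (by linarith) hη.le
  have h1 : Ex r (CovG j lam η D L r R) = ∑ t ∈ R.powerset.toFinset,
      Ex r (fun I => ind (η ≤ dg j lam L (t + I)) * ind (dg j lam L t < D) * lam ^ r) := by
    rw [← Ex_sum]; rfl
  rw [h1]
  have h2 : ∀ t ∈ R.powerset.toFinset,
      Ex r (fun I => ind (η ≤ dg j lam L (t + I)) * ind (dg j lam L t < D) * lam ^ r)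
        ≤ D / η := by
    intro t ht
    have htR : t ≤ R := Multiset.mem_powerset.1 (Multiset.mem_toFinset.1 ht)
    have htc : t.card + r ≤ j := by have := Multiset.card_le_card htR; omega
    by_cases hd : dg j lam L t < D
    · have h3 : Ex r (fun I => ind (η ≤ dg j lam L (t + I)) * ind (dg j lam L t < D) * lam ^ r)
          ≤ Ex r (fun I => dg j lam L (t + I) * (lam ^ r / η)) := by
        refine Ex_mono (fun I _ => ?_)
        rw [ind_pos hd, mul_one]
        have hp : 0 ≤ lam ^ r := pow_nonneg (by linarith) _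
        by_cases hI : η ≤ dg j lam L (t + I)
        · rw [ind_pos hI, one_mul, ← mul_div_assoc, le_div_iff₀ hη, mul_comm]
          exact mul_le_mul_of_nonneg_right hI hp
        · rw [ind_neg hI, zero_mul]
          exact mul_nonneg (Cov_dg_nonneg hlam L _) (div_nonneg hp hη.le)
      refine h3.trans ?_
      rw [Ex_mul', ← mul_div_assoc, Cov_dg_mean lam L t htc]
      exact div_le_div_of_nonneg_right hd.le hη.le
    · refine Ex_le (fun I _ => ?_)
      rw [ind_neg hd, mul_zero, zero_mul]; exact hq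
  refine (sum_le_card_nsmul _ _ _ h2).trans ?_
  rw [nsmul_eq_mul]
  refine mul_le_mul_of_nonneg_right ?_ hq
  have h4 : R.powerset.toFinset.card ≤ 2 ^ j := by
    refine (Multiset.toFinset_card_le _).trans ?_
    rw [Multiset.card_powerset]
    exact Nat.pow_le_pow_right (by norm_num) (by omega)
  exact_mod_cast h4

omit [Nonempty V] in
lemma Cov_point {j : ℕ} {lam η D : ℝ} (hlam : 1 ≤ lam) (L : Multiset V → Prop)
    (R J : Multiset V) (h : R.card + J.card ≤ j) :
    CovF j lam η D L R J ≤ 1 + ∑ s ∈ range J.card, splitSum (s + 1)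
      (fun I W => CovG j lam η D L (s + 1) R I * CovF j lam η D L (R + I) W) J := by
  classical
  have h0 : ∀ s I W, 0 ≤ CovG j lam η D L (s + 1) R I * CovF j lam η D L (R + I) W :=
    fun s I W => mul_nonneg (Cov_G_nonneg hlam L _ _ _) (Cov_F_nonneg hlam L _ _)
  have hs0 : ∀ s ∈ range J.card, 0 ≤ splitSum (s + 1)
      (fun I W => CovG j lam η D L (s + 1) R I * CovF j lam η D L (R + I) W) J :=
    fun s _ => splitSum_nonneg (h0 s) _
  have hS := sum_nonneg hs0
  by_cases hN : NoForb j lam D L (R + J)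
  swap
  · rw [CovF, ind_neg hN, zero_mul]; linarith
  by_cases hc : cnt j lam η L (R + J) J = 0
  · rw [CovF, ind_pos hN, hc, pow_zero]; linarith
  obtain ⟨x, hx, σ, hσ, hη⟩ := Multiset.countP_pos.1 (Nat.pos_of_ne_zero hc)
  rw [Multiset.erase_add_right_pos _ hx] at hσ
  have h1 : σ - R ≤ J.erase x := tsub_le_iff_left.2 hσ
  have h2 : x ::ₘ (σ - R) ≤ J := by
    rw [← Multiset.cons_erase hx]; exact Multiset.cons_le_cons _ h1
  obtain ⟨W, hW⟩ := Multiset.le_iff_exists_add.1 h2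
  set I := x ::ₘ (σ - R) with hI
  set s := (σ - R).card with hs
  have hIc : I.card = s + 1 := by rw [hI, Multiset.card_cons]
  have hJc : J.card = s + 1 + W.card := by rw [hW, Multiset.card_add, hIc]
  have ht : σ ∩ R + I = x ::ₘ σ := by
    rw [hI, Multiset.add_cons, add_comm, Multiset.sub_add_inter]
  have htR : σ ∩ R ≤ R := Multiset.inter_le_right
  have htD : dg j lam L (σ ∩ R) < D := by
    refine hN _ (htR.trans (Multiset.le_add_right _ _)) ?_
    have := Multiset.card_le_card htR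
    omega
  have hG : lam ^ (s + 1) ≤ CovG j lam η D L (s + 1) R I := by
    have h3 := single_le_sum (s := R.powerset.toFinset) (a := σ ∩ R)
      (f := fun t => ind (η ≤ dg j lam L (t + I)) * ind (dg j lam L t < D) * lam ^ (s + 1))
      (fun _ _ => mul_nonneg (mul_nonneg (ind_nonneg _) (ind_nonneg _))
        (pow_nonneg (by linarith) _))
      (Multiset.mem_toFinset.2 (Multiset.mem_powerset.2 htR))
    simp only [ht, ind_pos hη, ind_pos htD, one_mul] at h3
    exact h3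
  have hRJ : R + I + W = R + J := by rw [hW, add_assoc]
  have hcnt : cnt j lam η L (R + J) J ≤ s + 1 + cnt j lam η L (R + J) W := by
    have h4 : cnt j lam η L (R + J) (I + W)
        = cnt j lam η L (R + J) I + cnt j lam η L (R + J) W := Multiset.countP_add _ _ _
    have h5 : cnt j lam η L (R + J) I ≤ I.card := Multiset.countP_le_card _ _
    rw [← hW] at h4
    omega
  have h6 : CovF j lam η D L R J
      ≤ CovG j lam η D L (s + 1) R I * CovF j lam η D L (R + I) W := by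
    refine le_trans ?_ (mul_le_mul_of_nonneg_right hG (Cov_F_nonneg hlam L _ _))
    rw [CovF, CovF, hRJ, ind_pos hN, one_mul, one_mul, ← pow_add]
    exact pow_le_pow_right₀ hlam hcnt
  have h7 := le_splitSum (h0 s) I W hIc
  rw [← hW] at h7
  have h8 := single_le_sum hs0 (mem_range.2 (by omega : s < J.card))
  linarith

lemma Cov_main {j : ℕ} {lam η D : ℝ} (hlam : 1 ≤ lam) (hη : 0 < η) (hD : η ≤ D)
    (L : Multiset V → Prop) (r : ℕ) : ∀ R : Multiset V, R.card + r ≤ j →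
    Ex r (CovF j lam η D L R) ≤ (2 ^ (2 * j + 1) * D / η) ^ r := by
  set K : ℝ := 2 ^ (2 * j + 1) * D / η with hK
  have hq : 1 ≤ D / η := (one_le_div hη).2 hD
  have hK' : K = 2 * (2 ^ j * (2 ^ j * (D / η))) := by rw [hK]; ring
  have hj : (1 : ℝ) ≤ 2 ^ j := one_le_pow₀ (by norm_num)
  have hA : 1 ≤ (2 : ℝ) ^ j * (D / η) := one_le_mul_of_one_le_of_one_le hj hq
  have hB : 1 ≤ (2 : ℝ) ^ j * (2 ^ j * (D / η)) := one_le_mul_of_one_le_of_one_le hj hA
  have hK1 : 1 ≤ K := by linarith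
  induction r using Nat.strong_induction_on with
  | _ r ih =>
  intro R hR
  rcases r with _ | r
  · rw [Ex_zero, pow_zero, CovF]
    have : cnt j lam η L (R + 0) 0 = 0 := by simp [cnt]
    rw [this, pow_zero, mul_one]; exact ind_le_one _
  have h1 : Ex (r + 1) (CovF j lam η D L R) ≤ Ex (r + 1) (fun J => 1 + ∑ s ∈ range (r + 1),
      splitSum (s + 1)
        (fun I W => CovG j lam η D L (s + 1) R I * CovF j lam η D L (R + I) W) J) := by
    refine Ex_mono (fun J hJ => ?_)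
    have := Cov_point (j := j) (η := η) (D := D) hlam L R J (by omega)
    rwa [hJ] at this
  rw [Ex_add, Ex_const, Ex_sum] at h1
  have h2 : ∀ s ∈ range (r + 1), Ex (r + 1) (splitSum (s + 1)
      (fun I W => CovG j lam η D L (s + 1) R I * CovF j lam η D L (R + I) W))
      ≤ ((r + 1).choose (s + 1) : ℝ) * (2 ^ j * (D / η) * K ^ r) := by
    intro s hs
    have hs' := mem_range.1 hs
    rw [Ex_splitSum]
    refine mul_le_mul_of_nonneg_left ?_ (Nat.cast_nonneg _)
    have h3 : Ex (s + 1) (fun I => Ex (r + 1 - (s + 1))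
        (fun W => CovG j lam η D L (s + 1) R I * CovF j lam η D L (R + I) W))
        ≤ Ex (s + 1) (fun I => CovG j lam η D L (s + 1) R I * K ^ r) := by
      refine Ex_mono (fun I hI => ?_)
      rw [Ex_mul]
      refine mul_le_mul_of_nonneg_left ?_ (Cov_G_nonneg hlam L _ _ _)
      refine (ih _ (by omega) (R + I) (by rw [Multiset.card_add]; omega)).trans ?_
      exact pow_le_pow_right₀ hK1 (by omega)
    rw [Ex_mul'] at h3
    refine h3.trans (mul_le_mul_of_nonneg_right ?_ (pow_nonneg (by linarith) _))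
    exact Cov_G_mean hlam hη hD L R (by omega)
  have h4 := sum_le_sum h2
  rw [← sum_mul] at h4
  have h5 : ∑ s ∈ range (r + 1), ((r + 1).choose (s + 1) : ℝ) ≤ 2 ^ j := by
    have h6 : ∑ s ∈ range (r + 1), (r + 1).choose (s + 1) ≤ 2 ^ j := by
      have h7 := Nat.sum_range_choose (r + 1)
      rw [sum_range_succ'] at h7
      have h8 : 2 ^ (r + 1) ≤ 2 ^ j := Nat.pow_le_pow_right (by norm_num) (by omega)
      omega
    exact_mod_cast h6
  have hKr : 1 ≤ K ^ r := one_le_pow₀ hK1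
  have h9 := mul_le_mul_of_nonneg_right h5
    (by positivity : (0 : ℝ) ≤ 2 ^ j * (D / η) * K ^ r)
  have h10 : 1 ≤ (2 : ℝ) ^ j * (2 ^ j * (D / η)) * K ^ r :=
    one_le_mul_of_one_le_of_one_le hB hKr
  have h11 : K ^ (r + 1) = 2 * (2 ^ j * (2 ^ j * (D / η)) * K ^ r) := by
    rw [pow_succ]; nth_rewrite 2 [hK']; ring
  rw [h11]
  have h12 : (2 : ℝ) ^ j * (2 ^ j * (D / η) * K ^ r) = 2 ^ j * (2 ^ j * (D / η)) * K ^ r := by
    ring
  linarith

/-- few points are covered by heavy sub-multisets -/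
theorem cover {j : ℕ} {lam η D : ℝ} (hlam : 1 ≤ lam) (hη : 0 < η) (hD : η ≤ D)
    (L : Multiset V → Prop) :
    Ex j (fun J => ind (NoForb j lam D L J) * lam ^ cnt j lam η L J J)
      ≤ (2 ^ (2 * j + 1) * D / η) ^ j := by
  have h := Cov_main (j := j) hlam hη hD L j 0 (by simp)
  refine le_trans (le_of_eq (Ex_congr (fun J _ => ?_))) h
  rw [CovF, zero_add]

end Pool.Agent.P.MP_7badbe_co

end

section


open Finset Filter Topology
open scoped BigOperators

namespace Pool.Agent.P.MP_7badbe_co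

variable {V : Type} [Fintype V] [Nonempty V]

lemma Jen_jensen {m : ℕ} {d : ℝ} (hd : 0 < d) (φ s : Multiset V → ℝ) (h0 : ∀ J, 0 ≤ φ J)
    (h1 : Ex m φ ≤ d) :
    Real.exp (Ex m (fun J => φ J * s J) / d) ≤ 1 + Ex m (fun J => φ J * Real.exp (s J)) / d := by
  obtain ⟨t, ht⟩ : ∃ t, t = Ex m (fun J => φ J * s J) / d := ⟨_, rfl⟩
  have key : ∀ u, Real.exp t * (1 - t) + Real.exp t * u ≤ Real.exp u := fun u => by
    have := mul_le_mul_of_nonneg_left (Real.add_one_le_exp (u - t)) (Real.exp_pos t).le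
    rw [← Real.exp_add, add_sub_cancel] at this
    linarith
  have a1 : Ex m (fun J => Real.exp t * (1 - t) * φ J + Real.exp t * (φ J * s J))
      ≤ Ex m (fun J => φ J * Real.exp (s J)) := Ex_mono fun J _ => by
    have := mul_le_mul_of_nonneg_left (key (s J)) (h0 J)
    linarith
  rw [Ex_add, Ex_mul, Ex_mul] at a1
  have a2 := key 0
  rw [Real.exp_zero, mul_zero, add_zero] at a2
  have a3 := mul_le_mul_of_nonneg_left a2 (sub_nonneg.2 h1)
  have a4 : 0 ≤ Ex m φ := Ex_nonneg fun J _ => h0 J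
  rw [← ht, one_add_div hd.ne', le_div_iff₀ hd]
  rw [eq_div_iff hd.ne'] at ht
  rw [← ht] at a1
  linarith

lemma Jen_cnt (r j : ℕ) (lam η : ℝ) (L : Multiset V → Prop) (φ : Multiset V → ℝ) :
    Ex (r + 1) (fun J => φ J * cnt j lam η L J J)
      = (r + 1) * Ex r (fun R => 𝔼 x, φ (x ::ₘ R) * ind (Cov j lam η L R x)) := by
  classical
  have := Ex_splitSum (r + 1) 1
    (fun I R : Multiset V => φ (I + R) * (I.map fun x => ind (Cov j lam η L R x)).sum)
  rw [Nat.choose_one_right, Nat.add_sub_cancel, Ex_succ 0] at this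
  simp only [Ex_zero, Multiset.cons_zero, Multiset.singleton_add, Multiset.map_singleton,
    Multiset.sum_singleton] at this
  rw [Ex_expect, ← Nat.cast_add_one, ← this]
  refine Ex_congr fun J _ => ?_
  rw [splitSum_one]
  simp only [Multiset.singleton_add, Multiset.map_singleton, Multiset.sum_singleton]
  rw [Multiset.map_congr rfl (g := fun x => φ J * ind (Cov j lam η L (J.erase x) x))
    fun x hx => by rw [Multiset.cons_erase hx], Multiset.sum_map_mul_left]
  congr 1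
  unfold cnt
  have : ∀ (P : V → Prop) (_ : DecidablePred P) (M : Multiset V),
      (M.countP P : ℝ) = (M.map fun x => ind (P x)).sum := fun P _ M => by
    induction M using Multiset.induction_on with
    | empty => simp
    | cons a M ih => by_cases h : P a <;> simp [ind, h, ih, add_comm]
  exact this _ _ _

lemma Jen_GG (r : ℕ) (lam η D : ℝ) (L L' bad : Multiset V → Prop) :
    GG (r + 1) (gP (r + 1) lam η D L L' bad) 0 ≤ 1 / 6 * Ex (r + 1) (fun J => ind (L J))
      + 1 / 3 * Ex (r + 1) (fun J => ind (L J) * ind (bad J))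
      + Ex (r + 1) (fun J => ind (L J) * ind (¬ bad J) * ind (NoForb (r + 1) lam D L' J)
        * cnt (r + 1) lam η L' J J) / (3 * (r + 1)) := by
  rw [Jen_cnt, Ex_succ', Ex_succ', show ∀ a : ℝ, ((r : ℝ) + 1) * a / (3 * (r + 1)) = 1 / 3 * a from
    fun a => by field_simp, ← Ex_mul, ← Ex_mul, ← Ex_mul, ← Ex_add, ← Ex_add]
  simp only [GG, Multiset.card_zero, Nat.add_sub_cancel, Nat.sub_zero, zero_add]
  refine Ex_mono fun R _ => ?_
  rw [mul_expect, mul_expect, mul_expect, ← expect_add_distrib, ← expect_add_distrib]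
  refine expect_le_expect fun x _ => ?_
  unfold gP
  by_cases h1 : L (x ::ₘ R) <;> by_cases h2 : bad (x ::ₘ R) <;>
    by_cases h3 : NoForb (r + 1) lam D L' (x ::ₘ R) <;> by_cases h4 : Cov (r + 1) lam η L' R x <;>
    simp [ind, h1, h2, h3, h4]

/-- the initial potential averaged over pairs of links -/
theorem start_bound {j y : ℕ} (hj : 1 ≤ j) {lam η D h d β κ Λ Cs : ℝ} (hlam : 1 ≤ lam)
    (hh : 0 ≤ h) (hd : 0 < d) (hκ : 0 ≤ κ) (hΛ : lam ≤ Λ)
    (hΛ' : Real.exp (2 * (h * d) / (3 * j)) ≤ Λ)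
    (L : Multiset V → Multiset V → Prop) (bad : Multiset V → Prop)
    (hgood : ∀ J, J.card = j → ¬ bad J → Ex y (fun Y => ind (L Y J)) ≤ κ)
    (hcov : ∀ Y, Ex j (fun J => ind (NoForb j lam D (L Y) J) * lam ^ cnt j lam η (L Y) J J) ≤ Cs)
    (ok : Multiset V → Prop)
    (hok : ∀ Y, ok Y → Ex j (fun J => ind (L Y J)) ≤ d ∧
      Ex j (fun J => ind (L Y J) * ind (bad J)) ≤ β) :
    Ex y (fun Y => Ex y (fun Y' => ind (ok Y) * ind (ok Y') *
        Real.exp (h * GG j (gP j lam η D (L Y) (L Y') bad) 0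
          + h * GG j (gP j lam η D (L Y') (L Y) bad) 0)))
      ≤ Real.exp (h * d / 3 + 2 * (h * β) / 3) * (1 + κ / d * (Λ / lam) ^ j * Cs) := by
  obtain ⟨r, rfl⟩ : ∃ r, j = r + 1 := ⟨j - 1, by omega⟩
  have l0 : 0 < lam := by linarith
  have q1 : 1 ≤ Λ / lam := by rwa [le_div_iff₀ l0, one_mul]
  obtain ⟨K, hK⟩ : ∃ K, K = (Λ / lam) ^ (r + 1) := ⟨_, rfl⟩
  have K0 : 0 ≤ K := by rw [hK]; positivity
  let B : Multiset V → Multiset V → ℝ := fun Y Y' => Ex (r + 1) (fun J => ind (L Y J) *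
    (ind (¬ bad J) * (ind (NoForb (r + 1) lam D (L Y') J) * lam ^ cnt (r + 1) lam η (L Y') J J)))
  have i0 := ind_nonneg
  have B0 : ∀ Y Y', 0 ≤ B Y Y' := fun Y Y' => Ex_nonneg fun J _ =>
    mul_nonneg (i0 _) (mul_nonneg (i0 _) (mul_nonneg (i0 _) (by positivity)))
  have B1 : ∀ Y', Ex y (fun Y => B Y Y') ≤ κ * Cs := fun Y' => by
    rw [Ex_comm]
    refine le_trans (Ex_mono fun J hJ => ?_) ((Ex_mul _ κ _).trans_le
      (mul_le_mul_of_nonneg_left (hcov Y') hκ))
    rw [Ex_mul']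
    by_cases hb : bad J
    · rw [ind_neg (not_not.2 hb), zero_mul, mul_zero]
      exact mul_nonneg hκ (mul_nonneg (i0 _) (by positivity))
    · rw [ind_pos hb, one_mul]
      exact mul_le_mul_of_nonneg_right (hgood J hJ hb) (mul_nonneg (i0 _) (by positivity))
  have a1 : ∀ Y Y', ok Y → Real.exp (2 * (h * GG (r + 1) (gP (r + 1) lam η D (L Y) (L Y') bad) 0))
      ≤ Real.exp (h * d / 3 + 2 * (h * β) / 3) * (1 + K / d * B Y Y') := fun Y Y' hY => by
    have b1 := mul_le_mul_of_nonneg_left (Jen_GG r lam η D (L Y) (L Y') bad) hh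
    have b2 := mul_le_mul_of_nonneg_left (hok Y hY).1 hh
    have b3 := mul_le_mul_of_nonneg_left (hok Y hY).2 hh
    have b4 := Jen_jensen (m := r + 1) hd
      (fun J => ind (L Y J) * ind (¬ bad J) * ind (NoForb (r + 1) lam D (L Y') J))
      (fun J => cnt (r + 1) lam η (L Y') J J * (2 * (h * d) / (3 * (r + 1 : ℕ))))
      (fun J => mul_nonneg (mul_nonneg (i0 _) (i0 _)) (i0 _))
      ((Ex_mono fun J _ => (mul_le_of_le_one_right (mul_nonneg (i0 _) (i0 _)) (ind_le_one _)).trans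
        (mul_le_of_le_one_right (i0 _) (ind_le_one _))).trans (hok Y hY).1)
    simp only [← mul_assoc _ (cnt (r + 1) lam η (L Y') _ _ : ℝ), Ex_mul'] at b4
    have b5 : Ex (r + 1) (fun J => ind (L Y J) * ind (¬ bad J) * ind (NoForb (r + 1) lam D (L Y') J)
        * Real.exp (cnt (r + 1) lam η (L Y') J J * (2 * (h * d) / (3 * (r + 1 : ℕ)))))
        ≤ K * B Y Y' := by
      refine le_trans (Ex_mono fun J hJ => ?_) (Ex_mul _ K _).le
      have c1 : cnt (r + 1) lam η (L Y') J J ≤ r + 1 := by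
        classical
        exact hJ ▸ Multiset.countP_le_card _ _
      generalize cnt (r + 1) lam η (L Y') J J = c at c1
      have c2 : Real.exp (c * (2 * (h * d) / (3 * (r + 1 : ℕ)))) ≤ K * lam ^ c := by
        calc _ ≤ Λ ^ c := by rw [Real.exp_nat_mul]; gcongr
          _ = (Λ / lam) ^ c * lam ^ c := by rw [← mul_pow, div_mul_cancel₀ _ l0.ne']
          _ ≤ _ := by rw [hK]; gcongr
      calc _ ≤ ind (L Y J) * ind (¬ bad J) * ind (NoForb (r + 1) lam D (L Y') J) * (K * lam ^ c) :=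
            mul_le_mul_of_nonneg_left c2 (mul_nonneg (mul_nonneg (i0 _) (i0 _)) (i0 _))
        _ = _ := by ring
    generalize Ex (r + 1) (fun J => ind (L Y J) * ind (¬ bad J) *
      ind (NoForb (r + 1) lam D (L Y') J) * (cnt (r + 1) lam η (L Y') J J : ℝ)) = A at b1 b4
    calc _ ≤ Real.exp (h * d / 3 + 2 * (h * β) / 3) *
          Real.exp (A * (2 * (h * d) / (3 * (r + 1 : ℕ))) / d) := by
          rw [← Real.exp_add, show A * (2 * (h * d) / (3 * (r + 1 : ℕ))) / d
            = 2 * (h * (A / (3 * (r + 1)))) by push_cast; field_simp]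
          apply Real.exp_le_exp.2
          linarith
      _ ≤ _ := by
          refine mul_le_mul_of_nonneg_left (b4.trans ?_) (Real.exp_pos _).le
          rw [div_mul_eq_mul_div]
          gcongr
  generalize hE : Real.exp (h * d / 3 + 2 * (h * β) / 3) = E at a1
  have E0 : 0 ≤ E := hE ▸ (Real.exp_pos _).le
  have c0 : 0 ≤ E * (K / d) / 2 := by positivity
  calc _ ≤ Ex y (fun Y => Ex y (fun Y' =>
        E + (E * (K / d) / 2 * B Y Y' + E * (K / d) / 2 * B Y' Y))) := by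
        refine Ex_mono fun Y _ => Ex_mono fun Y' _ => ?_
        have c1 := mul_nonneg c0 (B0 Y Y')
        have c2 := mul_nonneg c0 (B0 Y' Y)
        by_cases h1 : ok Y
        · by_cases h2 : ok Y'
          · have d1 := a1 Y Y' h1
            have d2 := a1 Y' Y h2
            rw [two_mul, Real.exp_add] at d1 d2
            rw [ind_pos h1, ind_pos h2, Real.exp_add]
            nlinarith [sq_nonneg (Real.exp (h * GG (r + 1) (gP (r + 1) lam η D (L Y) (L Y') bad) 0)
              - Real.exp (h * GG (r + 1) (gP (r + 1) lam η D (L Y') (L Y) bad) 0))]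
          · rw [ind_neg h2]; linarith
        · rw [ind_neg h1]; linarith
    _ = E + (E * (K / d) / 2 * Ex y (fun Y => Ex y (fun Y' => B Y Y'))
        + E * (K / d) / 2 * Ex y (fun Y => Ex y (fun Y' => B Y' Y))) := by
        simp only [Ex_add, Ex_mul, Ex_const]
    _ ≤ E + (E * (K / d) / 2 * (κ * Cs) + E * (K / d) / 2 * (κ * Cs)) := by
        gcongr
        · rw [Ex_comm]; exact Ex_le fun Y _ => B1 Y
        · exact Ex_le fun Y _ => B1 Y
    _ = _ := by rw [hK]; ring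

end Pool.Agent.P.MP_7badbe_co

end

section


open Finset Filter Topology
open scoped BigOperators

namespace Pool.Agent.P.MP_7badbe_co

variable {V : Type} [Fintype V] [Nonempty V]

open Classical in
/-- expectation over `M` blocks of size `j` of a function of the number of marked blocks and of
the sum of the blocks -/
noncomputable def badBlk (j : ℕ) (φ : Multiset V → Prop) : ℕ → (ℕ → Multiset V → ℝ) → ℝ
  | 0, F => F 0 0
  | M + 1, F => Ex j (fun J => badBlk j φ M (fun c W => F (c + if φ J then 1 else 0) (J + W)))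

omit [Nonempty V] in
lemma badBlk_mono (j : ℕ) (φ : Multiset V → Prop) (M : ℕ) {F G : ℕ → Multiset V → ℝ}
    (h : ∀ c W, F c W ≤ G c W) : badBlk j φ M F ≤ badBlk j φ M G := by
  induction M generalizing F G with
  | zero => exact h 0 0
  | succ M ih => exact Ex_mono (fun J _ => ih (fun c W => h _ _))

omit [Nonempty V] in
lemma badBlk_add (j : ℕ) (φ : Multiset V → Prop) (M : ℕ) (F G : ℕ → Multiset V → ℝ) :
    badBlk j φ M (fun c W => F c W + G c W) = badBlk j φ M F + badBlk j φ M G := by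
  induction M generalizing F G with
  | zero => rfl
  | succ M ih => simp only [badBlk, ih, Ex_add]

omit [Nonempty V] in
lemma badBlk_mul (j : ℕ) (φ : Multiset V → Prop) (M : ℕ) (a : ℝ) (F : ℕ → Multiset V → ℝ) :
    badBlk j φ M (fun c W => a * F c W) = a * badBlk j φ M F := by
  induction M generalizing F with
  | zero => rfl
  | succ M ih => simp only [badBlk, ih, Ex_mul]

omit [Nonempty V] in
lemma badBlk_sum (j : ℕ) (φ : Multiset V → Prop) (M : ℕ) (H : Multiset V → ℝ) :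
    badBlk j φ M (fun _ W => H W) = Ex (M * j) H := by
  induction M generalizing H with
  | zero => simp [badBlk]
  | succ M ih =>
    rw [show (M + 1) * j = j + M * j by ring, Ex_split]
    simp only [badBlk]
    exact Ex_congr (fun J _ => ih (fun W => H (J + W)))

lemma badBlk_pow (j : ℕ) (φ : Multiset V → Prop) (M : ℕ) (ξ : ℝ) :
    badBlk j φ M (fun c _ => ξ ^ c) = (1 + Ex j (fun J => ind (φ J)) * (ξ - 1)) ^ M := by
  induction M with
  | zero => simp [badBlk]
  | succ M ih =>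
    simp only [badBlk]
    have h1 : ∀ J : Multiset V, badBlk j φ M
        (fun c (_ : Multiset V) => ξ ^ (c + @ite ℕ (φ J) (Classical.propDecidable _) 1 0))
        = (1 + ind (φ J) * (ξ - 1)) * (1 + Ex j (fun J => ind (φ J)) * (ξ - 1)) ^ M := by
      intro J
      rw [← ih, ← badBlk_mul]
      congr 1
      funext c _
      by_cases h : φ J
      · rw [if_pos h, ind_pos h]; ring
      · rw [if_neg h, ind_neg h]; ring
    simp only [h1]
    rw [Ex_mul', Ex_add, Ex_mul', Ex_const, pow_succ']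

omit [Nonempty V] in
lemma badBlk_cnt (j : ℕ) (φ : Multiset V → Prop) (M : ℕ) (H : Multiset V → ℝ) :
    badBlk j φ (M + 1) (fun c W => (c : ℝ) * H W)
      = (M + 1) * Ex j (fun J => ind (φ J) * Ex (M * j) (fun W => H (J + W))) := by
  have h1 : ∀ (M : ℕ) (H : Multiset V → ℝ) (J : Multiset V), badBlk j φ M
      (fun c W => ((c + @ite ℕ (φ J) (Classical.propDecidable _) 1 0 : ℕ) : ℝ) * H (J + W))
      = badBlk j φ M (fun c W => (c : ℝ) * H (J + W))
        + ind (φ J) * Ex (M * j) (fun W => H (J + W)) := by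
    intro M H J
    rw [← badBlk_sum j φ M, ← badBlk_mul, ← badBlk_add]
    congr 1
    funext c W
    by_cases h : φ J
    · rw [if_pos h, ind_pos h]; push_cast; ring
    · rw [if_neg h, ind_neg h]; push_cast; ring
  induction M generalizing H with
  | zero =>
    rw [badBlk]
    simp only [h1]
    simp [badBlk]
  | succ M ih =>
    rw [badBlk]
    simp only [h1, ih]
    rw [Ex_add, Ex_mul, Ex_comm]
    have h2 : Ex j (fun J' => Ex j (fun J => ind (φ J') *
        Ex (M * j) (fun W => H (J + (J' + W)))))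
        = Ex j (fun J' => ind (φ J') * Ex ((M + 1) * j) (fun W => H (J' + W))) := by
      refine Ex_congr (fun J' _ => ?_)
      rw [Ex_mul, show (M + 1) * j = j + M * j by ring, Ex_split]
      simp only [add_left_comm J']
    rw [h2]
    push_cast
    ring

lemma bad_nat_le {ξ : ℝ} (hξ : 2 ≤ ξ) (c t : ℕ) : (c : ℝ) ≤ t + ξ ^ c / ξ ^ t := by
  have h0 : 0 < ξ := by linarith
  rcases le_total c t with h | h
  · have : (c : ℝ) ≤ t := by exact_mod_cast h
    have h2 : 0 ≤ ξ ^ c / ξ ^ t := by positivity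
    linarith
  · obtain ⟨u, rfl⟩ := Nat.exists_eq_add_of_le h
    rw [pow_add, mul_div_cancel_left₀ _ (by positivity)]
    have h1 : (u : ℝ) ≤ 2 ^ u := by exact_mod_cast (Nat.lt_two_pow_self (n := u)).le
    have h2 : (2 : ℝ) ^ u ≤ ξ ^ u := pow_le_pow_left₀ (by norm_num) hξ u
    push_cast
    linarith

lemma bad_mass {j y M t : ℕ} (hM : 1 ≤ M) (hMj : M * j ≤ y + j) {ξ : ℝ} (hξ : 2 ≤ ξ)
    (G : Multiset V → ℝ) (hG0 : ∀ W, 0 ≤ G W) (hG1 : ∀ W, G W ≤ 1) (φ : Multiset V → Prop)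
    (hp : Ex j (fun J => ind (φ J)) * ξ ≤ 1) :
    (M : ℝ) * Ex y (fun Y => Ex j (fun J => G (Y + J) * ind (φ J)))
      ≤ t * Ex (y + j) G + 2 ^ M / ξ ^ t := by
  obtain ⟨M', rfl⟩ : ∃ M', M = M' + 1 := ⟨M - 1, by omega⟩
  obtain ⟨r, hr⟩ : ∃ r, y = M' * j + r := ⟨y - M' * j, by
    have : (M' + 1) * j = M' * j + j := by ring
    omega⟩
  have h0 : 0 < ξ := by linarith
  set H : Multiset V → ℝ := fun W => Ex r (fun R => G (W + R)) with hH
  have hH0 : ∀ W, 0 ≤ H W := fun W => Ex_nonneg (fun _ _ => hG0 _)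
  have hH1 : ∀ W, H W ≤ 1 := fun W => Ex_le (fun _ _ => hG1 _)
  have e1 : Ex y (fun Y => Ex j (fun J => G (Y + J) * ind (φ J)))
      = Ex j (fun J => ind (φ J) * Ex (M' * j) (fun W => H (J + W))) := by
    rw [Ex_comm]
    refine Ex_congr (fun J _ => ?_)
    rw [Ex_mul', mul_comm, hr, Ex_split]
    simp only [hH, add_assoc, add_comm _ J]
  have e2 : Ex (y + j) G = Ex ((M' + 1) * j) H := by
    rw [show y + j = (M' + 1) * j + r by rw [hr]; ring, Ex_split]
  have e3 := badBlk_cnt j φ M' H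
  have e4 : badBlk j φ (M' + 1) (fun c W => (c : ℝ) * H W)
      ≤ badBlk j φ (M' + 1) (fun c W => t * H W + (ξ ^ t)⁻¹ * ξ ^ c) := by
    refine badBlk_mono j φ _ (fun c W => ?_)
    have a1 := bad_nat_le hξ c t
    have a2 : 0 ≤ ξ ^ c / ξ ^ t := by positivity
    rw [← div_eq_inv_mul]
    nlinarith [hH0 W, hH1 W]
  rw [badBlk_add, badBlk_mul, badBlk_mul, badBlk_sum, badBlk_pow, e3] at e4
  have hp0 : 0 ≤ Ex j (fun J => ind (φ J)) := Ex_nonneg (fun _ _ => ind_nonneg _)
  have e5 : (1 + Ex j (fun J => ind (φ J)) * (ξ - 1)) ^ (M' + 1) ≤ 2 ^ (M' + 1) :=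
    pow_le_pow_left₀ (by nlinarith) (by nlinarith) _
  have e6 : (ξ ^ t)⁻¹ * (1 + Ex j (fun J => ind (φ J)) * (ξ - 1)) ^ (M' + 1)
      ≤ 2 ^ (M' + 1) / ξ ^ t := by
    rw [div_eq_inv_mul]
    exact mul_le_mul_of_nonneg_left e5 (by positivity)
  rw [e1, e2]
  push_cast
  linarith

/-- few edges have an atypically large co-degree -/
theorem bad_split {j y z M t : ℕ} (hM : 1 ≤ M) (hMj : M * j ≤ y + j) {δ ξ ε₃ : ℝ} (hδ : 0 < δ)
    (hξ : 2 ≤ ξ) (hε : 0 < ε₃) (g : Multiset V → Prop)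
    (hg : Ex (z + y + j) (fun W => ind (g W)) ≤ δ) :
    Ex z (fun Z => Ex y (fun Y => ind (ε₃ * δ < Ex j (fun J => ind (g (Z + Y + J))
        * ind (ξ ^ 2 * δ < Ex y (fun Y' => ind (g (Z + Y' + J))))))))
      ≤ 1 / ξ + (t / M + 2 ^ M / (ξ ^ t * M * δ)) / ε₃ := by
  have h0 : 0 < ξ := by linarith
  have hM0 : (0 : ℝ) < M := by exact_mod_cast hM
  set f : Multiset V → ℝ := fun Z => Ex (y + j) (fun W => ind (g (Z + W))) with hf
  have hf0 : ∀ Z, 0 ≤ f Z := fun Z => Ex_nonneg (fun _ _ => ind_nonneg _)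
  have hfδ : Ex z f ≤ δ := by
    rw [add_assoc, Ex_split] at hg
    exact hg
  have key : ∀ Z : Multiset V,
      Ex y (fun Y => ind (ε₃ * δ < Ex j (fun J => ind (g (Z + Y + J))
        * ind (ξ ^ 2 * δ < Ex y (fun Y' => ind (g (Z + Y' + J)))))))
      ≤ ind (ξ * δ < f Z) + ((M * (ε₃ * δ))⁻¹ * t * f Z + 2 ^ M / ξ ^ t / (M * (ε₃ * δ))) := by
    intro Z
    have hpos : 0 ≤ (M * (ε₃ * δ))⁻¹ * t * f Z + 2 ^ M / ξ ^ t / (M * (ε₃ * δ)) := by
      have := hf0 Z
      positivity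
    by_cases hZ : ξ * δ < f Z
    · rw [ind_pos hZ]
      have : Ex y (fun Y => ind (ε₃ * δ < Ex j (fun J => ind (g (Z + Y + J))
        * ind (ξ ^ 2 * δ < Ex y (fun Y' => ind (g (Z + Y' + J))))))) ≤ 1 :=
        Ex_le (fun _ _ => ind_le_one _)
      linarith
    · rw [ind_neg hZ, zero_add]
      have hZ' : f Z ≤ ξ * δ := not_lt.1 hZ
      have p1 : Ex j (fun J => ind (ξ ^ 2 * δ < Ex y (fun Y' => ind (g (Z + Y' + J)))))
          ≤ Ex j (fun J => Ex y (fun Y' => ind (g (Z + Y' + J)))) / (ξ ^ 2 * δ) :=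
        Ex_markov (fun _ => Ex_nonneg (fun _ _ => ind_nonneg _)) (by positivity)
      have p2 : Ex j (fun J => Ex y (fun Y' => ind (g (Z + Y' + J)))) = f Z := by
        rw [Ex_comm, hf]
        simp only [Ex_split, add_assoc]
      rw [p2, le_div_iff₀ (by positivity)] at p1
      have p3 : Ex j (fun J => ind (ξ ^ 2 * δ < Ex y (fun Y' => ind (g (Z + Y' + J))))) * ξ
          ≤ 1 := by
        have : (Ex j (fun J => ind (ξ ^ 2 * δ < Ex y (fun Y' => ind (g (Z + Y' + J))))) * ξ)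
            * (ξ * δ) ≤ 1 * (ξ * δ) := by nlinarith
        exact le_of_mul_le_mul_right this (by positivity)
      have p4 := bad_mass (t := t) hM hMj hξ (fun W => ind (g (Z + W))) (fun _ => ind_nonneg _)
        (fun _ => ind_le_one _) _ p3
      refine (Ex_markov (fun Y => Ex_nonneg (fun _ _ =>
        mul_nonneg (ind_nonneg _) (ind_nonneg _))) (by positivity)).trans ?_
      simp only [← add_assoc] at p4
      rw [div_le_iff₀ (by positivity)]
      refine le_of_mul_le_mul_left (p4.trans (le_of_eq ?_)) hM0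
      simp only [hf]
      field_simp
  refine (Ex_mono (fun Z _ => key Z)).trans ?_
  rw [Ex_add, Ex_add, Ex_mul, Ex_const]
  have q1 : Ex z (fun Z => ind (ξ * δ < f Z)) ≤ 1 / ξ := by
    refine (Ex_markov hf0 (by positivity)).trans ?_
    rw [div_le_div_iff₀ (by positivity) h0]
    nlinarith
  have q2 : (M * (ε₃ * δ))⁻¹ * t * Ex z f ≤ (M * (ε₃ * δ))⁻¹ * t * δ :=
    mul_le_mul_of_nonneg_left hfδ (by positivity)
  have q3 : (M * (ε₃ * δ))⁻¹ * t * δ + 2 ^ M / ξ ^ t / (M * (ε₃ * δ))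
      = (t / M + 2 ^ M / (ξ ^ t * M * δ)) / ε₃ := by
    field_simp
  linarith

end Pool.Agent.P.MP_7badbe_co

end

section


open Finset Filter Topology
open scoped BigOperators

namespace Pool.Agent.P.MP_7badbe_co

variable {V : Type} [Fintype V] [Nonempty V]

/-- fraction of the `m`-subsets of `W` that are hit from `Z` -/
noncomputable def HH (g : Multiset V → Prop) (m : ℕ) (Z W : Multiset V) : ℝ :=
  SS m (fun T => ind (∃ s ∈ Z, g (s ::ₘ T))) W / (W.card.choose m : ℝ)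

noncomputable def Psi (j : ℕ) (q : ℝ) (e m : ℕ) (B : ℝ) (L : Multiset V → Prop)
    (W : Multiset V) : ℝ := ind (m ≤ W.card ∧ Qf j q e L 0 W ≤ B ^ 2)

lemma HH_nonneg (g : Multiset V → Prop) (m : ℕ) (Z W : Multiset V) : 0 ≤ HH g m Z W :=
  div_nonneg (SS_nonneg fun _ _ _ => ind_nonneg _) (Nat.cast_nonneg _)

lemma HH_le_one (g : Multiset V → Prop) (m : ℕ) (Z W : Multiset V) : HH g m Z W ≤ 1 := by
  refine div_le_one_of_le₀ ?_ (Nat.cast_nonneg _)
  have := SS_mono (s := m) (T := W) (F := fun T => ind (∃ s ∈ Z, g (s ::ₘ T)))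
    (G := fun _ => 1) (fun _ _ _ => ind_le_one _)
  rwa [SS_const, mul_one] at this

lemma HH_mono (g : Multiset V → Prop) (m : ℕ) (Z Z' W : Multiset V) :
    HH g m Z W ≤ HH g m (Z + Z') W :=
  div_le_div_of_nonneg_right (SS_mono fun _ _ _ => ind_mono fun ⟨s, hs, h⟩ =>
    ⟨s, Multiset.mem_add.2 (Or.inl hs), h⟩) (Nat.cast_nonneg _)

lemma HH_add (g : Multiset V → Prop) (m : ℕ) (Z Y W : Multiset V) :
    HH g m (Z + Y) W ≤ HH g m Z W + HH g m Y W := by
  unfold HH
  rw [← add_div, ← SS_add]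
  refine div_le_div_of_nonneg_right (SS_mono fun T _ _ => ?_) (Nat.cast_nonneg _)
  by_cases h : ∃ s ∈ Z + Y, g (s ::ₘ T)
  · obtain ⟨s, hs, h⟩ := h
    rcases Multiset.mem_add.1 hs with hs | hs
    · rw [ind_pos (P := ∃ s ∈ Z, g (s ::ₘ T)) ⟨s, hs, h⟩]
      linarith [ind_le_one (∃ s ∈ Z + Y, g (s ::ₘ T)), ind_nonneg (∃ s ∈ Y, g (s ::ₘ T))]
    · rw [ind_pos (P := ∃ s ∈ Y, g (s ::ₘ T)) ⟨s, hs, h⟩]
      linarith [ind_le_one (∃ s ∈ Z + Y, g (s ::ₘ T)), ind_nonneg (∃ s ∈ Z, g (s ::ₘ T))]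
  · rw [ind_neg h]
    exact add_nonneg (ind_nonneg _) (ind_nonneg _)

lemma HH_full {i j m : ℕ} (hi : i + j = m + 1) {g : Multiset V → Prop} (hg : Hit i m g)
    {S W : Multiset V} (hS : S.card = i) (hW : IndT j (fun J => g (S + J)) W) (hm : m ≤ W.card) :
    1 ≤ HH g m S W := by
  have h0 : (0 : ℝ) < W.card.choose m := by exact_mod_cast Nat.choose_pos hm
  unfold HH
  rw [le_div_iff₀ h0, one_mul]
  have := SS_mono (s := m) (T := W) (G := fun T => ind (∃ s ∈ S, g (s ::ₘ T)))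
    (F := fun _ => 1) (fun T hT hc => by
      rcases hg S T hS hc with ⟨J, hJ, h1, h2⟩ | h
      · exact absurd h2 (hW J (hJ.trans hT) (by omega))
      · exact (ind_pos h).ge)
  rwa [SS_const, mul_one] at this

lemma HH_null {q : ℝ} (h0 : 0 ≤ q) (h1 : q ≤ 1) (g : Multiset V → Prop) (m z n : ℕ) {δ : ℝ}
    (hδ : Ex (m + 1) (fun M => ind (g M)) ≤ δ) :
    Ex z (fun Z => En q n 0 (fun W => HH g m Z W ^ 2)) ≤ z * δ := by
  have hδ0 : 0 ≤ δ := (Ex_nonneg fun _ _ => ind_nonneg _).trans hδ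
  rw [En_Ex]
  refine En_le h0 h1 n (fun N => ?_)
  rw [Ex_comm]
  have h2 : ∀ Z : Multiset V, Ex N (fun W => HH g m Z W ^ 2)
      ≤ Ex m (fun T => (Z.map (fun s => ind (g (s ::ₘ T)))).sum) := by
    intro Z
    have h3 : Ex N (fun W => HH g m Z W ^ 2)
        ≤ Ex N (fun W => (N.choose m : ℝ)⁻¹ * SS m (fun T => ind (∃ s ∈ Z, g (s ::ₘ T))) W) := by
      refine Ex_mono fun W hW => ?_
      have := HH_nonneg g m Z W
      have := HH_le_one g m Z W
      calc HH g m Z W ^ 2 ≤ HH g m Z W := by nlinarith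
        _ = _ := by unfold HH; rw [hW, div_eq_inv_mul]
    rw [Ex_mul, Ex_SS, ← mul_assoc] at h3
    have h4 : Ex m (fun T => ind (∃ s ∈ Z, g (s ::ₘ T)))
        ≤ Ex m (fun T => (Z.map (fun s => ind (g (s ::ₘ T)))).sum) :=
      Ex_mono fun T _ => ind_le_mapsum (fun s => g (s ::ₘ T)) Z
    have h5 : 0 ≤ Ex m (fun T => ind (∃ s ∈ Z, g (s ::ₘ T))) := Ex_nonneg fun _ _ => ind_nonneg _
    have h6 : (N.choose m : ℝ)⁻¹ * (N.choose m : ℝ) ≤ 1 := inv_mul_le_one_of_le₀ le_rfl
      (Nat.cast_nonneg _)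
    nlinarith
  refine (Ex_mono fun Z _ => h2 Z).trans ?_
  rw [Ex_self_mapsum]
  exact mul_le_mul_of_nonneg_left hδ (Nat.cast_nonneg _)

section
variable {j e m n : ℕ} {q B d : ℝ} {L : Multiset V → Prop}

lemma Mas_nu_mono (h0 : 0 ≤ q) (h1 : q < 1) {F G : Multiset V → ℝ} (h : ∀ W, F W ≤ G W) :
    nu1 q (rhoL j q e L) n 0 F ≤ nu1 q (rhoL j q e L) n 0 G :=
  nu1_mono h0 h1 (rhoL_mem h0) (fun _ => True) (fun _ _ _ _ _ => trivial) n trivial
    (fun W _ => h W)

lemma Mas_good (hj : 2 ≤ j) (h0 : 0 ≤ q) (h1 : q < 1) (hm : (m : ℝ) < n * q) (hB : 0 < B)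
    (hd : Ex j (fun J => ind (L J)) ≤ d)
    (c1 : 8 * (√(n * q) + j * (((n + e).choose j : ℝ) * q ^ j * d)) ≤ n * q - m)
    (c2 : 40 * j ^ 2 * (((n + e).choose j : ℝ) * q ^ j * d) ≤ B ^ 2) :
    3 / 4 ≤ nu1 q (rhoL j q e L) n 0 (Psi j q e m B L) := by
  have hh : 0 ≤ ((n + e).choose j : ℝ) * q ^ j := by positivity
  have hd' := mul_le_mul_of_nonneg_left hd hh
  have a1 := count_dev (V := V) (e := e) (L := L) (show 1 ≤ j by omega) h0 h1 n
  have a2 := Q_moment (V := V) (e := e) (L := L) hj h0 h1 n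
  have hm' : 0 < n * q - m := by linarith
  have hB2 : 0 < B ^ 2 := by positivity
  have a3 : nu1 q (rhoL j q e L) n 0 (fun _ => 1) ≤ nu1 q (rhoL j q e L) n 0 (fun W =>
      Psi j q e m B L W + ((n * q - m)⁻¹ * |n * q - W.card| + (B ^ 2)⁻¹ * Qf j q e L 0 W)) := by
    refine Mas_nu_mono h0 h1 fun W => ?_
    have b1 : 0 ≤ (n * q - m)⁻¹ * |n * q - W.card| := by positivity
    have b2 : 0 ≤ (B ^ 2)⁻¹ * Qf j q e L 0 W := mul_nonneg (by positivity) (Qf_nonneg _ _)
    have b3 : 0 ≤ Psi j q e m B L W := ind_nonneg _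
    by_cases k1 : m ≤ W.card
    · by_cases k2 : Qf j q e L 0 W ≤ B ^ 2
      · have : Psi j q e m B L W = 1 := ind_pos ⟨k1, k2⟩
        linarith
      · have : 1 ≤ (B ^ 2)⁻¹ * Qf j q e L 0 W := by
          rw [← div_eq_inv_mul, le_div_iff₀ hB2]; linarith [not_le.1 k2]
        linarith
    · have k3 : (W.card : ℝ) ≤ m := by exact_mod_cast (not_le.1 k1).le
      have : 1 ≤ (n * q - m)⁻¹ * |n * q - W.card| := by
        rw [← div_eq_inv_mul, le_div_iff₀ hm']; linarith [le_abs_self (n * q - W.card)]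
      linarith
  rw [nu1_const h1, nu1_add, nu1_add, nu1_mul, nu1_mul] at a3
  have hj0 : (0 : ℝ) ≤ j := Nat.cast_nonneg _
  have a4 : (n * q - m)⁻¹ * nu1 q (rhoL j q e L) n 0 (fun W => |n * q - W.card|) ≤ 1 / 8 := by
    rw [← div_eq_inv_mul, div_le_iff₀ hm']
    nlinarith [mul_le_mul_of_nonneg_left hd' hj0]
  have a5 : (B ^ 2)⁻¹ * nu1 q (rhoL j q e L) n 0 (Qf j q e L 0) ≤ 1 / 8 := by
    rw [← div_eq_inv_mul, div_le_iff₀ hB2]
    nlinarith [mul_le_mul_of_nonneg_left hd' (show (0 : ℝ) ≤ 5 * j ^ 2 by positivity)]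
  have a6 : nu1 q (rhoL j q e L) n 0 (fun W => Psi j q e m B L W)
      = nu1 q (rhoL j q e L) n 0 (Psi j q e m B L) := rfl
  have a7 : nu1 q (rhoL j q e L) n 0 (fun W => Qf j q e L 0 W)
      = nu1 q (rhoL j q e L) n 0 (Qf j q e L 0) := rfl
  linarith

lemma Mas_pair (hj : 2 ≤ j) (h0 : 0 < q) (h5 : Real.exp 5 * q ≤ 1) (he : 1 ≤ e)
    (hlam : 1 ≤ n * q) (hB : 0 < B) {η D b : ℝ} (hη : 0 < η) (hb : 1 ≤ b)
    {L' bad : Multiset V → Prop}
    (hd : Ex j (fun J => ind (L J)) ≤ d) (hd' : Ex j (fun J => ind (L' J)) ≤ d)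
    (c1 : ∀ r, 1 ≤ r → r < j → 5 * (n * q) ^ r ≤ D * ((e.choose r : ℝ) * q ^ r))
    (c2 : (n * q) ^ j * d < D) (c3 : 4 * j * (n / e * B) ≤ b)
    (c4 : Real.exp b * (2 * j * Real.exp 5 ^ (2 * j) * η * (n * q) ^ j * d) ≤ 1 / 2) :
    nu2 q (rhoL j q e L) (rhoL j q e L') n 0 (fun W => Psi j q e m B L W * Psi j q e m B L' W)
      ≤ 2 * Real.exp b * Real.exp (n * q ^ 2 / (1 - q)) *
        Real.exp (((n + e).choose j : ℝ) * q ^ j * GG j (gP j (n * q) η D L L' bad) 0
          + ((n + e).choose j : ℝ) * q ^ j * GG j (gP j (n * q) η D L' L bad) 0) := by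
  have e5 : 1 < Real.exp 5 := Real.one_lt_exp_iff.2 (by norm_num)
  have h1 : q < 1 := by nlinarith
  have hl0 : 0 < n * q := by linarith
  have ha := abar_nonneg j hl0.le η L L'
  set R := ⌈n * q⌉₊
  have a1 : nu2 q (rhoL j q e L) (rhoL j q e L') n 0
      (fun W => Psi j q e m B L W * Psi j q e m B L' W)
      ≤ nu2 q (rhoL j q e L) (rhoL j q e L') n 0 (fun W =>
        Real.exp (-(n * q * cr j (n * q) η L L' W)) * FF (abar j (n * q) η L L') b R W) := by
    refine nu2_mono h0.le h1 (rhoL_mem h0.le) (rhoL_mem h0.le) n fun W _ => ?_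
    unfold Psi
    rw [← ind_and]
    by_cases k : (m ≤ W.card ∧ Qf j q e L 0 W ≤ B ^ 2) ∧ m ≤ W.card ∧ Qf j q e L' 0 W ≤ B ^ 2
    · rw [ind_pos k, Real.exp_neg, ← div_eq_inv_mul, le_div_iff₀ (Real.exp_pos _), one_mul]
      exact deletion hj hl0.le (by positivity) hb c3 (Nat.le_ceil _)
        (cap_of_Q hj h0 he n hB.le k.1.2) (cap_of_Q hj h0 he n hB.le k.2.2)
    · rw [ind_neg k]
      exact mul_nonneg (Real.exp_pos _).le (FF_nonneg ha _ _ _)
  have a2 := pair_bound (bad := bad) (η := η) (show 1 ≤ j by omega) h0.le h5 hl0 c1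
    (FF_nonneg ha b R) (FF_cons ha b R) n (noforb_nil hl0.le hd c2) (noforb_nil hl0.le hd' c2)
  have a3 := En_FF (by positivity) h5 n ha
    (cross_mass (show 1 ≤ j by omega) h0.le e5.le h5 hlam hη.le hd hd') c4 R
  rw [Pot_nil (by omega), Pot_nil (by omega), Real.exp_add] at a2
  refine a1.trans (a2.trans ((mul_le_mul_of_nonneg_left a3 (by positivity)).trans (le_of_eq ?_)))
  ring

end

/-- half of the hits come from the larger part -/
lemma Mas_swap {y z : ℕ} (hyz : y ≤ z) (A : Multiset V → Multiset V → ℝ)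
    (hA : ∀ S Z Z', A S Z ≤ A S (Z + Z')) :
    Ex z (fun Z => Ex y (fun Y => A (Z + Y) Y)) ≤ Ex z (fun Z => Ex y (fun Y => A (Z + Y) Z)) := by
  obtain ⟨w, rfl⟩ := Nat.exists_eq_add_of_le hyz
  rw [Ex_split, Ex_split]
  have h1 : Ex y (fun Z1 => Ex w (fun Z2 => Ex y (fun Y => A (Z1 + Z2 + Y) Y)))
      = Ex y (fun Y => Ex w (fun Z2 => Ex y (fun Z1 => A (Z1 + Z2 + Y) Y))) := by
    rw [Ex_comm]
    simp only [Ex_comm y y (fun Z1 Y => A (Z1 + _ + Y) Y)]
    rw [Ex_comm]
  rw [h1]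
  refine Ex_mono fun Y _ => Ex_mono fun Z2 _ => Ex_mono fun Z1 _ => ?_
  rw [show Z1 + Z2 + Y = Y + Z2 + Z1 by abel]
  exact hA _ _ _

theorem master {i j m : ℕ} (hj : 2 ≤ j) (hi : i + j = m + 1) {δ : ℝ} (hP : Par j m δ)
    (g : Multiset V → Prop) (hg : Hit i m g) : δ < Ex (m + 1) (fun M => ind (g M)) := by
  obtain ⟨y, z, n, e, M, t, q, eps, ξ, η, D, B, b, ε₃, Λ, p1, p2, p3, p4, p5, p6, p7, p8, p9, p10,
    p11, p12, p13, p14, p15, p16, p17, c1, c2, c3, c4, c5, c6, c7, c8, c9, c10⟩ := hP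
  by_contra hδ
  rw [not_lt] at hδ
  have e5 : 1 < Real.exp 5 := Real.one_lt_exp_iff.2 (by norm_num)
  have h1 : q < 1 := by nlinarith
  set d := (1 + eps) * δ with hd
  set p0 := eps / (1 + eps) with hp0
  have hd0 : 0 < d := by positivity
  have hp00 : 0 < p0 := by positivity
  have hiz : z + y = i := by omega
  -- the planted masses
  set A : Multiset V → Multiset V → ℝ := fun S Z => ind (Ex j (fun J => ind (g (S + J))) ≤ d) *
    nu1 q (rhoL j q e (fun J => g (S + J))) n 0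
      (fun W => Psi j q e m B (fun J => g (S + J)) W * HH g m Z W) with hA
  have hPsi0 : ∀ (L : Multiset V → Prop) W, 0 ≤ Psi j q e m B L W := fun _ _ => ind_nonneg _
  have hPsi1 : ∀ (L : Multiset V → Prop) W, Psi j q e m B L W ≤ 1 := fun _ _ => ind_le_one _
  have A1 : ∀ S Z Z', A S Z ≤ A S (Z + Z') := fun S Z Z' =>
    mul_le_mul_of_nonneg_left (Mas_nu_mono p6.le h1 fun W =>
      mul_le_mul_of_nonneg_left (HH_mono _ _ _ _ _) (hPsi0 _ _)) (ind_nonneg _)
  have A2 : ∀ S Z Y, A S (Z + Y) ≤ A S Z + A S Y := fun S Z Y => by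
    simp only [hA]
    rw [← mul_add, ← nu1_add]
    refine mul_le_mul_of_nonneg_left (Mas_nu_mono p6.le h1 fun W => ?_) (ind_nonneg _)
    rw [← mul_add]
    exact mul_le_mul_of_nonneg_left (HH_add _ _ _ _ _) (hPsi0 _ _)
  have A3 : ∀ S : Multiset V, S.card = i →
      3 / 4 * (1 - ind (d < Ex j (fun J => ind (g (S + J))))) ≤ A S S := fun S hS => by
    simp only [hA]
    by_cases k : Ex j (fun J => ind (g (S + J))) ≤ d
    · rw [ind_pos k, ind_neg (not_lt.2 k), one_mul, sub_zero, mul_one]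
      refine (Mas_good (m := m) hj p6.le h1 p8 p15 k c3 c4).trans ?_
      refine nu1_mono p6.le h1 (rhoL_mem p6.le) (IndT j (fun J => g (S + J)))
        (fun _ _ _ hT hx => indT_step (by omega) hT hx) n (fun J hJ hc => ?_) (fun W hW => ?_)
      · rw [Multiset.le_zero.1 hJ] at hc
        simp at hc; omega
      · unfold Psi
        by_cases k2 : m ≤ W.card ∧ Qf j q e (fun J => g (S + J)) 0 W ≤ B ^ 2
        · rw [ind_pos k2, one_mul]; exact HH_full hi hg hS hW k2.1
        · rw [ind_neg k2, zero_mul]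
    · rw [ind_neg k, ind_pos (not_le.1 k)]; simp
  have A4 : 3 / 4 * p0 ≤ Ex z (fun Z => Ex y (fun Y => A (Z + Y) (Z + Y))) := by
    rw [← Ex_split z y (fun S => A S S), hiz]
    refine le_trans ?_ (Ex_mono A3)
    rw [Ex_mul, Ex_sub, Ex_const]
    have k1 := Ex_markov (m := i) (F := fun S : Multiset V => Ex j (fun J => ind (g (S + J))))
      (fun _ => Ex_nonneg fun _ _ => ind_nonneg _) hd0
    rw [← Ex_split i j (fun M => ind (g M)), hi] at k1
    have k2 : Ex (m + 1) (fun M => ind (g M)) / d ≤ 1 - p0 := by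
      rw [div_le_iff₀ hd0, hp0, hd]
      have : (1 - eps / (1 + eps)) * ((1 + eps) * δ) = δ := by field_simp; ring
      linarith
    linarith
  have A5 : 3 / 8 * p0 ≤ Ex z (fun Z => Ex y (fun Y => A (Z + Y) Z)) := by
    have k1 : Ex z (fun Z => Ex y (fun Y => A (Z + Y) (Z + Y)))
        ≤ Ex z (fun Z => Ex y (fun Y => A (Z + Y) Z))
          + Ex z (fun Z => Ex y (fun Y => A (Z + Y) Y)) := by
      rw [← Ex_add]
      refine Ex_mono fun Z _ => ?_
      rw [← Ex_add]
      exact Ex_mono fun Y _ => A2 _ _ _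
    linarith [Mas_swap p2 A A1]
  -- good splits
  set bad : Multiset V → Multiset V → Prop := fun Z J =>
    ξ ^ 2 * δ < Ex y (fun Y' => ind (g (Z + Y' + J))) with hbad
  set ok : Multiset V → Multiset V → Prop := fun Z Y =>
    Ex j (fun J => ind (g (Z + Y + J))) ≤ d ∧
      Ex j (fun J => ind (g (Z + Y + J)) * ind (bad Z J)) ≤ ε₃ * δ with hok
  set Φ : Multiset V → Multiset V → Multiset V → ℝ := fun Z Y W =>
    ind (ok Z Y) * Psi j q e m B (fun J => g (Z + Y + J)) W with hΦ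
  have B1 : p0 / 4 ≤ Ex z (fun Z => Ex y (fun Y => nu1 q (rhoL j q e (fun J => g (Z + Y + J))) n 0
      (fun W => Φ Z Y W * HH g m Z W))) := by
    have k1 := bad_split (t := t) p4 p5 p10 p12 p17 g (by rw [p1]; exact hδ)
    have k2 : Ex z (fun Z => Ex y (fun Y => A (Z + Y) Z)) ≤ Ex z (fun Z => Ex y (fun Y =>
        nu1 q (rhoL j q e (fun J => g (Z + Y + J))) n 0 (fun W => Φ Z Y W * HH g m Z W)))
        + Ex z (fun Z => Ex y (fun Y => ind (ε₃ * δ < Ex j (fun J => ind (g (Z + Y + J))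
          * ind (bad Z J))))) := by
      rw [← Ex_add]
      refine Ex_mono fun Z _ => ?_
      rw [← Ex_add]
      refine Ex_mono fun Y _ => ?_
      simp only [hA, hΦ, mul_assoc]
      rw [nu1_mul]
      have k3 : nu1 q (rhoL j q e (fun J => g (Z + Y + J))) n 0
          (fun W => Psi j q e m B (fun J => g (Z + Y + J)) W * HH g m Z W) ≤ 1 := by
        rw [← nu1_const (V := V) (ρ := rhoL j q e (fun J => g (Z + Y + J))) h1 n 0 1]
        exact Mas_nu_mono p6.le h1 fun W =>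
          mul_le_one₀ (hPsi1 _ _) (HH_nonneg _ _ _ _) (HH_le_one _ _ _ _)
      have k4 : 0 ≤ nu1 q (rhoL j q e (fun J => g (Z + Y + J))) n 0
          (fun W => Psi j q e m B (fun J => g (Z + Y + J)) W * HH g m Z W) := by
        rw [← nu1_const (V := V) (ρ := rhoL j q e (fun J => g (Z + Y + J))) h1 n 0 0]
        exact Mas_nu_mono p6.le h1 fun W => mul_nonneg (hPsi0 _ _) (HH_nonneg _ _ _ _)
      by_cases k5 : Ex j (fun J => ind (g (Z + Y + J))) ≤ d
      · by_cases k6 : Ex j (fun J => ind (g (Z + Y + J)) * ind (bad Z J)) ≤ ε₃ * δ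
        · rw [ind_pos k5, ind_pos (P := ok Z Y) ⟨k5, k6⟩]
          linarith [ind_nonneg (ε₃ * δ < Ex j (fun J => ind (g (Z + Y + J)) * ind (bad Z J)))]
        · rw [ind_pos k5, ind_pos (not_le.1 k6)]
          nlinarith [ind_nonneg (ok Z Y)]
      · rw [ind_neg k5, zero_mul]
        exact add_nonneg (mul_nonneg (ind_nonneg _) k4) (ind_nonneg _)
    linarith
  -- second moment
  set h := ((n + e).choose j : ℝ) * q ^ j with hh
  have hh0 : 0 ≤ h := by positivity
  set Bd := 2 * Real.exp b * Real.exp (n * q ^ 2 / (1 - q))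
      * (Real.exp (h * d / 3 + 2 * (h * (ε₃ * δ)) / 3)
        * (1 + ξ ^ 2 * (Λ / (n * q)) ^ j * (2 ^ (2 * j + 1) * D / η) ^ j)) with hBd
  have hD0 : 0 < D := p13.trans_le p14
  have hΛ0 : 0 < Λ := by linarith
  have hl0 : 0 < n * q := by linarith
  have hBd0 : 0 < Bd := by positivity
  have B2 : ∀ Z, Ex y (fun Y => Ex y (fun Y' => nu2 q (rhoL j q e (fun J => g (Z + Y + J)))
      (rhoL j q e (fun J => g (Z + Y' + J))) n 0 (fun W => Φ Z Y W * Φ Z Y' W))) ≤ Bd := by
    intro Z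
    have k1 := start_bound (y := y) (show 1 ≤ j by omega) (η := η) (D := D) (β := ε₃ * δ) p9 hh0 hd0
      (show 0 ≤ ξ ^ 2 * δ by positivity) c8 c9 (fun Y J => g (Z + Y + J)) (bad Z)
      (fun J _ hJ => not_lt.1 hJ) (fun Y => cover p9 p13 p14 _) (ok Z) (fun Y hY => hY)
    have k2 : ξ ^ 2 * δ / d ≤ ξ ^ 2 := by
      rw [div_le_iff₀ hd0, hd]
      have : 0 ≤ ξ ^ 2 * (eps * δ) := by positivity
      nlinarith
    have k3 : Real.exp (h * d / 3 + 2 * (h * (ε₃ * δ)) / 3)
        * (1 + ξ ^ 2 * δ / d * (Λ / (n * q)) ^ j * (2 ^ (2 * j + 1) * D / η) ^ j)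
        ≤ Real.exp (h * d / 3 + 2 * (h * (ε₃ * δ)) / 3)
        * (1 + ξ ^ 2 * (Λ / (n * q)) ^ j * (2 ^ (2 * j + 1) * D / η) ^ j) := by
      gcongr
    refine le_trans ?_ (mul_le_mul_of_nonneg_left (k1.trans k3) (by positivity))
    rw [← Ex_mul]
    refine Ex_mono fun Y _ => ?_
    rw [← Ex_mul]
    refine Ex_mono fun Y' _ => ?_
    have k4 : (fun W => Φ Z Y W * Φ Z Y' W) = fun W => ind (ok Z Y) * ind (ok Z Y') *
        (Psi j q e m B (fun J => g (Z + Y + J)) W * Psi j q e m B (fun J => g (Z + Y' + J)) W) := by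
      funext W; simp only [hΦ]; ring
    rw [k4, nu2_mul, ← ind_and]
    by_cases k5 : ok Z Y ∧ ok Z Y'
    · rw [ind_pos k5, one_mul, one_mul]
      exact Mas_pair hj p6 p7 p3 p9 p15 p13 p16 k5.1.1 k5.2.1 c1 c2 c5 c6
    · rw [ind_neg k5]; simp
  have ht : 0 < p0 / 4 / Bd := by positivity
  have B3 : Ex z (fun Z => Ex y (fun Y => nu1 q (rhoL j q e (fun J => g (Z + Y + J))) n 0
      (fun W => Φ Z Y W * HH g m Z W)))
      ≤ p0 / 4 / Bd / 2 * Bd + 1 / (2 * (p0 / 4 / Bd)) * (z * δ) := by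
    refine le_trans (Ex_mono (G := fun Z => p0 / 4 / Bd / 2 * Bd + 1 / (2 * (p0 / 4 / Bd))
      * En q n 0 (fun W => HH g m Z W ^ 2)) fun Z _ => ?_) ?_
    · refine (amgm p6.le h1 (fun Y => rhoL j q e (fun J => g (Z + Y + J))) (Φ Z) (HH g m Z) y n
        ht).trans ?_
      gcongr
      exact B2 Z
    · rw [Ex_add, Ex_const, Ex_mul]
      gcongr
      exact HH_null p6.le h1.le g m z n hδ
  have B4 : p0 / 4 / Bd / 2 * Bd = p0 / 8 := by field_simp; ring
  have B5 : 1 / (2 * (p0 / 4 / Bd)) * (z * δ) = z * δ * Bd * (2 / p0) := by field_simp; ring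
  have B6 : z * δ * Bd * (2 / p0) < (p0 / 4) ^ 2 * (2 / p0) :=
    mul_lt_mul_of_pos_right c10 (by positivity)
  have B7 : (p0 / 4) ^ 2 * (2 / p0) = p0 / 8 := by field_simp; ring
  linarith

end Pool.Agent.P.MP_7badbe_co

end
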